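import Pool.Agent.Helper379.Div3

namespace Pool.Agent.H40CS

open Finset

theorem crt_count (T : Finset ℕ) (q : ℕ → ℕ) (hq0 : ∀ l ∈ T, 0 < q l)
    (hco : ∀ l ∈ T, ∀ l' ∈ T, l ≠ l' → Nat.Coprime (q l) (q l')) (S : ℕ → Finset ℕ) :
    ((range (∏ l ∈ T, q l)).filter (fun m => ∀ l ∈ T, m % q l ∈ S l)).card ≤
      ∏ l ∈ T, (S l).card := by
  classical
  induction T using Finset.induction_on with
  | empty => simp
  | insert p T hpT ih =>
    rw [prod_insert hpT, prod_insert hpT]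
    have ih' := ih (fun l hl => hq0 l (mem_insert_of_mem hl))
      (fun l hl l' hl' h => hco l (mem_insert_of_mem hl) l' (mem_insert_of_mem hl') h)
    set Q := ∏ l ∈ T, q l with hQ
    have hQ0 : 0 < Q := prod_pos fun l hl => hq0 l (mem_insert_of_mem hl)
    have hp0 : 0 < q p := hq0 p (mem_insert_self p T)
    have hcop : Nat.Coprime (q p) Q := by
      rw [hQ]
      apply Nat.Coprime.prod_right
      intro l hl
      exact hco p (mem_insert_self p T) l (mem_insert_of_mem hl)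
        (fun h => hpT (h ▸ hl))
    refine le_trans ?_ (Nat.mul_le_mul_left _ ih')
    rw [← card_product]
    apply card_le_card_of_injOn (fun m => (m % q p, m % Q))
    · intro m hm
      have hm' := mem_filter.1 (mem_coe.1 hm)
      rw [mem_coe, mem_product]
      refine ⟨hm'.2 p (mem_insert_self p T), ?_⟩
      refine mem_filter.2 ⟨mem_range.2 (Nat.mod_lt _ hQ0), ?_⟩
      intro l hl
      have hd : q l ∣ Q := dvd_prod_of_mem q hl
      simp only
      rw [Nat.mod_mod_of_dvd _ hd]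
      exact hm'.2 l (mem_insert_of_mem hl)
    · intro m hm m' hm' h
      have h1 := mem_range.1 (mem_filter.1 (mem_coe.1 hm)).1
      have h2 := mem_range.1 (mem_filter.1 (mem_coe.1 hm')).1
      simp only [Prod.mk.injEq] at h
      have h3 : m ≡ m' [MOD q p * Q] :=
        (Nat.modEq_and_modEq_iff_modEq_mul hcop).1 ⟨h.1, h.2⟩
      unfold Nat.ModEq at h3
      rwa [Nat.mod_eq_of_lt h1, Nat.mod_eq_of_lt h2] at h3

theorem cnt_le {P : ℕ → Prop} [DecidablePred P] {Q : ℕ} (hQ0 : 0 < Q)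
    (hper : ∀ m, P m → P (m % Q)) (X : ℕ) :
    ((range X).filter P).card ≤ (X / Q + 1) * ((range Q).filter P).card := by
  classical
  rw [← card_range (X / Q + 1), ← card_product]
  apply card_le_card_of_injOn (fun r => (r / Q, r % Q))
  · intro r hr
    have hr' := mem_filter.1 (mem_coe.1 hr)
    rw [mem_coe, mem_product]
    refine ⟨?_, mem_filter.2 ⟨mem_range.2 (Nat.mod_lt _ hQ0), hper r hr'.2⟩⟩
    rw [mem_range, Nat.lt_succ_iff]
    exact Nat.div_le_div_right (mem_range.1 hr'.1).le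
  · intro m _ m' _ h
    simp only [Prod.mk.injEq] at h
    rw [← Nat.div_add_mod m Q, ← Nat.div_add_mod m' Q, h.1, h.2]

theorem exists_finset_mod {w : ℕ} [NeZero w] {a : ZMod w} (ha : IsUnit a) (K : ℝ) :
    ∃ T : Finset ℕ, (∀ p ∈ T, p.Prime ∧ (p : ZMod w) = a) ∧ K ≤ ∑ p ∈ T, (1 : ℝ) / p := by
  classical
  by_contra hcon
  push Not at hcon
  apply Helper379.Div3.not_summable_inv_primes_mod ha
  refine summable_of_sum_le (c := K) ?_ ?_
  · intro n; dsimp only; split_ifs <;> positivity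
  · intro u
    rw [← Finset.sum_filter]
    refine (hcon _ ?_).le
    intro p hp
    exact (Finset.mem_filter.mp hp).2

theorem sieve {w : ℕ} [NeZero w] {a : ZMod w} (ha : IsUnit a) (q : ℕ → ℕ) (S : ℕ → Finset ℕ)
    (hq : ∀ l : ℕ, l.Prime → (l : ZMod w) = a → ∃ e, q l = l ^ e)
    (hS : ∀ l : ℕ, l.Prime → (l : ZMod w) = a →
      ((S l).card : ℝ) ≤ q l * (1 - 1 / (2 * l))) (ε : ℝ) (hε : 0 < ε) :
    ∃ T : Finset ℕ, (∀ l ∈ T, l.Prime ∧ (l : ZMod w) = a) ∧ ∃ X₀ : ℕ, ∀ X ≥ X₀,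
      (((range X).filter (fun m => ∀ l ∈ T, m % q l ∈ S l)).card : ℝ) ≤ ε * X := by
  classical
  obtain ⟨T, hT, hK⟩ := exists_finset_mod ha (-2 * Real.log (ε / 2))
  refine ⟨T, hT, ?_⟩
  set Q : ℕ := ∏ l ∈ T, q l with hQ
  have hqpos : ∀ l ∈ T, 0 < q l := by
    intro l hl
    obtain ⟨e, he⟩ := hq l (hT l hl).1 (hT l hl).2
    rw [he]
    exact pow_pos (hT l hl).1.pos e
  have hQ0 : 0 < Q := prod_pos hqpos
  have hco : ∀ l ∈ T, ∀ l' ∈ T, l ≠ l' → Nat.Coprime (q l) (q l') := by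
    intro l hl l' hl' hne
    obtain ⟨e, he⟩ := hq l (hT l hl).1 (hT l hl).2
    obtain ⟨e', he'⟩ := hq l' (hT l' hl').1 (hT l' hl').2
    rw [he, he']
    exact Nat.Coprime.pow _ _ ((Nat.coprime_primes (hT l hl).1 (hT l' hl').1).2 hne)
  have hcrt := crt_count T q hqpos hco S
  rw [← hQ] at hcrt
  have hprod : ((∏ l ∈ T, (S l).card : ℕ) : ℝ) ≤ Q * (ε / 2) := by
    push_cast
    calc ∏ l ∈ T, ((S l).card : ℝ) ≤ ∏ l ∈ T, ((q l : ℝ) * Real.exp (-(1 / (2 * l)))) := by
          apply prod_le_prod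
          · intro l _; positivity
          · intro l hl
            refine (hS l (hT l hl).1 (hT l hl).2).trans ?_
            apply mul_le_mul_of_nonneg_left _ (by positivity)
            have := Real.add_one_le_exp (-(1 / (2 * (l : ℝ))))
            linarith
      _ = Q * Real.exp (∑ l ∈ T, -(1 / (2 * (l : ℝ)))) := by
          rw [prod_mul_distrib, Real.exp_sum, hQ]
          push_cast
          ring
      _ ≤ Q * (ε / 2) := by
          apply mul_le_mul_of_nonneg_left _ (by positivity)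
          have h1 : ∑ l ∈ T, -(1 / (2 * (l : ℝ))) ≤ Real.log (ε / 2) := by
            have h2 : ∑ l ∈ T, -(1 / (2 * (l : ℝ))) = -(1 / 2) * ∑ l ∈ T, 1 / (l : ℝ) := by
              rw [mul_sum]
              apply sum_congr rfl
              intro l _
              field_simp
            rw [h2]
            linarith
          calc Real.exp (∑ l ∈ T, -(1 / (2 * (l : ℝ)))) ≤ Real.exp (Real.log (ε / 2)) :=
                Real.exp_le_exp.2 h1
            _ = ε / 2 := Real.exp_log (by linarith)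
  refine ⟨Q, ?_⟩
  intro X hX
  have hcnt := cnt_le (P := fun m => ∀ l ∈ T, m % q l ∈ S l) hQ0 (by
    intro m hm l hl
    have hd : q l ∣ Q := dvd_prod_of_mem q hl
    rw [Nat.mod_mod_of_dvd _ hd]
    exact hm l hl) X
  have hQR : (0 : ℝ) < Q := by exact_mod_cast hQ0
  have h1 : (((range X).filter (fun m => ∀ l ∈ T, m % q l ∈ S l)).card : ℝ) ≤
      ((X / Q + 1 : ℕ) : ℝ) * (Q * (ε / 2)) := by
    refine le_trans (Nat.cast_le.2 hcnt) ?_
    rw [Nat.cast_mul]
    apply mul_le_mul_of_nonneg_left _ (by positivity)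
    exact le_trans (Nat.cast_le.2 hcrt) hprod
  refine h1.trans ?_
  have h2 : ((X / Q : ℕ) : ℝ) ≤ (X : ℝ) / Q := Nat.cast_div_le
  have h3 : ((X / Q + 1 : ℕ) : ℝ) * (Q * (ε / 2)) ≤ ((X : ℝ) / Q + 1) * (Q * (ε / 2)) := by
    apply mul_le_mul_of_nonneg_right _ (by positivity)
    push_cast
    linarith
  refine h3.trans ?_
  have h4 : ((X : ℝ) / Q + 1) * (Q * (ε / 2)) = (X + Q) * (ε / 2) := by
    field_simp
  rw [h4]
  have h5 : (Q : ℝ) ≤ X := by exact_mod_cast hX
  nlinarith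

end Pool.Agent.H40CS
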