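import Pool.Agent.H40CS.LocalSidon
import Pool.Agent.H40CS.Sieve

namespace Pool.Agent.H40CS

open Finset Filter

/-- The natural numbers with property `P` have density zero. -/
def DZ (P : ℕ → Prop) : Prop :=
  ∀ ε : ℝ, 0 < ε → ∃ X₀ : ℕ, ∀ X ≥ X₀, ({m : ℕ | m < X ∧ P m}.ncard : ℝ) ≤ ε * X

theorem ncard_eq (P : ℕ → Prop) [DecidablePred P] (X : ℕ) :
    {m : ℕ | m < X ∧ P m}.ncard = ((range X).filter P).card := by
  rw [← Set.ncard_coe_finset]
  have : {m : ℕ | m < X ∧ P m} = (((range X).filter P : Finset ℕ) : Set ℕ) := by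
    ext m
    simp
  rw [this]

theorem fin_lt (P : ℕ → Prop) (X : ℕ) : {m : ℕ | m < X ∧ P m}.Finite :=
  (Set.finite_lt_nat X).subset fun _ hm => hm.1

theorem DZ.mono {P Q : ℕ → Prop} (hQ : DZ Q) (h : ∀ m, P m → Q m) : DZ P := by
  intro ε hε
  obtain ⟨X₀, hX₀⟩ := hQ ε hε
  refine ⟨X₀, fun X hX => le_trans ?_ (hX₀ X hX)⟩
  apply Nat.cast_le.2
  exact Set.ncard_le_ncard (fun m hm => ⟨hm.1, h m hm.2⟩) (fin_lt Q X)

theorem DZ.or {P Q : ℕ → Prop} (hP : DZ P) (hQ : DZ Q) : DZ (fun m => P m ∨ Q m) := by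
  intro ε hε
  obtain ⟨X₁, hX₁⟩ := hP (ε / 2) (by linarith)
  obtain ⟨X₂, hX₂⟩ := hQ (ε / 2) (by linarith)
  refine ⟨max X₁ X₂, fun X hX => ?_⟩
  have h1 := hX₁ X (le_trans (le_max_left _ _) hX)
  have h2 := hX₂ X (le_trans (le_max_right _ _) hX)
  have h3 : {m : ℕ | m < X ∧ (P m ∨ Q m)}.ncard ≤
      {m : ℕ | m < X ∧ P m}.ncard + {m : ℕ | m < X ∧ Q m}.ncard := by
    refine le_trans (Set.ncard_le_ncard ?_ ((fin_lt P X).union (fin_lt Q X)))
      (Set.ncard_union_le _ _)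
    rintro m ⟨hm, hPm | hQm⟩
    · exact Or.inl ⟨hm, hPm⟩
    · exact Or.inr ⟨hm, hQm⟩
  have h4 := (Nat.cast_le (α := ℝ)).2 h3
  push_cast at h4
  linarith

theorem DZ.false : DZ (fun _ => False) := by
  intro ε hε
  refine ⟨0, fun X _ => ?_⟩
  have : {m : ℕ | m < X ∧ False} = ∅ := by ext m; simp
  rw [this, Set.ncard_empty, Nat.cast_zero]
  positivity

theorem DZ.exists_finset {ι : Type*} (s : Finset ι) (P : ι → ℕ → Prop)
    (h : ∀ i ∈ s, DZ (P i)) : DZ (fun m => ∃ i ∈ s, P i m) := by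
  classical
  induction s using Finset.induction_on with
  | empty => exact DZ.false.mono (by simp)
  | insert i s his ih =>
    have h1 := ih fun j hj => h j (mem_insert_of_mem hj)
    refine ((h i (mem_insert_self i s)).or h1).mono ?_
    rintro m ⟨j, hj, hm⟩
    rcases mem_insert.1 hj with rfl | hj
    · exact Or.inl hm
    · exact Or.inr ⟨j, hj, hm⟩

theorem DZ.le (B : ℕ) : DZ (fun m => m ≤ B) := by
  intro ε hε
  refine ⟨⌈(B + 1) / ε⌉₊, fun X hX => ?_⟩
  have h1 : {m : ℕ | m < X ∧ m ≤ B}.ncard ≤ B + 1 := by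
    rw [ncard_eq, ← card_range (B + 1)]
    apply card_le_card
    intro m hm
    rw [mem_filter] at hm
    rw [mem_range]
    omega
  have h2 := (Nat.cast_le (α := ℝ)).2 h1
  have h3 : ((B : ℝ) + 1) / ε ≤ X := le_trans (Nat.le_ceil _) (by exact_mod_cast hX)
  rw [div_le_iff₀ hε] at h3
  push_cast at h2
  linarith

theorem tendsto_of_DZ {P : ℕ → Prop} (h : DZ P) :
    Tendsto (fun X : ℕ => ({m : ℕ | m < X ∧ P m}.ncard : ℝ) / X) atTop (nhds 0) := by
  rw [Metric.tendsto_atTop]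
  intro ε hε
  obtain ⟨X₀, hX₀⟩ := h (ε / 2) (by linarith)
  refine ⟨X₀ + 1, fun X hX => ?_⟩
  have h1 := hX₀ X (by omega)
  have hX0 : (0 : ℝ) < X := by
    have : 0 < X := by omega
    exact_mod_cast this
  rw [Real.dist_eq, sub_zero, abs_of_nonneg (by positivity), div_lt_iff₀ hX0]
  nlinarith

theorem cast_modN {R : Type*} [CommRing R] (δ m : ℕ) :
    ((modN δ m : ℕ) : R) = (m : R) * m - m + δ + 1 := by
  unfold modN
  push_cast [Nat.cast_sub (Nat.le_mul_self m)]
  ring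

/-- Density zero for a fixed divisor `w` and a fixed type. -/
theorem DZ_Has (w δ : ℕ) (hw : 2 ≤ w) (τ : ℕ → ℕ) : DZ (Has w δ τ) := by
  classical
  intro ε hε
  have : NeZero w := ⟨by omega⟩
  have hu : IsUnit (-1 : ZMod w) := isUnit_one.neg
  set S : ℕ → Finset ℕ := fun l => (range (l ^ 2)).filter (fun r => ∃ m, Has w δ τ m ∧ m % l ^ 2 = r)
    with hS
  have hSc : ∀ l : ℕ, l.Prime → (l : ZMod w) = -1 →
      ((S l).card : ℝ) ≤ (fun l : ℕ => l ^ 2) l * (1 - 1 / (2 * l)) := by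
    intro l hl hlw
    have : Fact l.Prime := ⟨hl⟩
    have hdvd : w ∣ l + 1 := by
      rw [← ZMod.natCast_eq_zero_iff]
      push_cast
      rw [hlw]; ring
    obtain ⟨r, hr, hmain⟩ := local_main l w δ hw hdvd τ
    set E : Finset ℕ := (range l).image (fun j => j * l + r) with hE
    have hEc : E.card = l := by
      rw [hE, card_image_of_injective, card_range]
      intro a b hab
      have : a * l = b * l := by simpa using hab
      exact Nat.eq_of_mul_eq_mul_right hl.pos this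
    have hEs : E ⊆ range (l ^ 2) := by
      intro x hx
      rw [hE, mem_image] at hx
      obtain ⟨j, hj, rfl⟩ := hx
      rw [mem_range] at hj ⊢
      have : j * l + l ≤ l ^ 2 := by nlinarith
      omega
    have hEr : ∀ x ∈ E, x % l = r := by
      intro x hx
      rw [hE, mem_image] at hx
      obtain ⟨j, _, rfl⟩ := hx
      exact Nat.mul_add_mod_of_lt hr
    have h1 : (S l \ E).card ≤ l ^ 2 - l := by
      calc (S l \ E).card ≤ (range (l ^ 2) \ E).card := by
            apply card_le_card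
            apply sdiff_subset_sdiff (filter_subset _ _) (le_refl _)
        _ = l ^ 2 - l := by rw [card_sdiff_of_subset hEs, card_range, hEc]
    have h2 : (S l ∩ E).card ≤ 1 := by
      rw [card_le_one]
      intro x hx y hy
      rw [mem_inter] at hx hy
      obtain ⟨m, hm, hmx⟩ := (mem_filter.1 hx.1).2
      obtain ⟨m', hm', hmy⟩ := (mem_filter.1 hy.1).2
      have e1 : m % l = r := by
        rw [← hEr x hx.2, ← hmx, Nat.mod_mod_of_dvd _ (dvd_pow_self l (by norm_num))]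
      have e2 : m' % l = r := by
        rw [← hEr y hy.2, ← hmy, Nat.mod_mod_of_dvd _ (dvd_pow_self l (by norm_num))]
      have h3 := hmain m m' hm hm' e1 e2
      rw [← hmx, ← hmy]
      have h4 : (m : ℤ) ≡ m' [ZMOD ((l ^ 2 : ℕ) : ℤ)] := by
        rw [Int.modEq_comm, Int.modEq_iff_dvd]
        push_cast
        exact h3
      exact (Int.natCast_modEq_iff.1 h4)
    have h5 : (S l).card ≤ l ^ 2 - l + 1 := by
      rw [← card_sdiff_add_card_inter (S l) E]
      exact add_le_add h1 h2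
    have hl2 : (2 : ℝ) ≤ l := by exact_mod_cast hl.two_le
    have h6 : ((S l).card : ℝ) ≤ (l : ℝ) ^ 2 - l + 1 := by
      have h7 : l ≤ l ^ 2 := by nlinarith [hl.two_le]
      have h8 := (Nat.cast_le (α := ℝ)).2 h5
      push_cast [Nat.cast_sub h7] at h8
      exact h8
    refine h6.trans ?_
    push_cast
    have h9 : (l : ℝ) ^ 2 * (1 - 1 / (2 * l)) = (l : ℝ) ^ 2 - l / 2 := by
      field_simp
    rw [h9]
    linarith
  obtain ⟨T, hT, X₀, hX₀⟩ := sieve hu (fun l => l ^ 2) S (fun l _ _ => ⟨2, rfl⟩) hSc ε hε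
  refine ⟨X₀, fun X hX => le_trans ?_ (hX₀ X hX)⟩
  apply Nat.cast_le.2
  rw [ncard_eq]
  apply card_le_card
  intro m hm
  rw [mem_filter] at hm ⊢
  refine ⟨hm.1, ?_⟩
  intro l hl
  have hlp := (hT l hl).1
  exact mem_filter.2 ⟨mem_range.2 (Nat.mod_lt _ (pow_pos hlp.pos 2)), m, hm.2, rfl⟩

/-- There is a Sidon set of `m` elements modulo `m ^ 2 - m + 1 + δ`. -/
def Good (δ m : ℕ) : Prop := ∃ A : Finset (ZMod (modN δ m)), IsSidonSet A ∧ A.card = m

theorem DZ_dvd (w δ : ℕ) (hw : 2 ≤ w) : DZ (fun m => w ∣ modN δ m ∧ Good δ m) := by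
  classical
  have h := DZ.exists_finset (univ : Finset (Fin w → Fin (δ + 1)))
    (fun f => Has w δ (fun j => if h : j < w then (f ⟨j, h⟩ : ℕ) else 0))
    (fun f _ => DZ_Has w δ hw _)
  refine h.mono ?_
  rintro m ⟨hd, A, hA, hAm⟩
  have hcm : (missing A).card = δ := by
    have h1 := card_missing hA
    have h2 : modN δ m = m * m - m + δ + 1 := rfl
    rw [hAm] at h1
    have h3 := h2.symm.trans h1
    omega
  have hty : ∀ j, ty w (missing A) j < δ + 1 := by
    intro j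
    unfold ty
    have := card_filter_le (missing A) (fun x => x.val % w = j)
    omega
  refine ⟨fun j => ⟨ty w (missing A) j, hty j⟩, mem_univ _, hd, A, hA, hAm, ?_⟩
  intro j hj
  simp [hj]

/-- Primes congruent to one modulo `4 (4 δ + 3)` divide some value `r ^ 2 - r + 1 + δ`. -/
theorem exists_root_mod (δ l : ℕ) (hl : l.Prime) (h : (l : ZMod (4 * (4 * δ + 3))) = 1) :
    ∃ r < l, l ∣ modN δ r := by
  have : Fact l.Prime := ⟨hl⟩
  have hmod : l % (4 * (4 * δ + 3)) = 1 := by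
    have h1 : (l : ZMod (4 * (4 * δ + 3))) = ((1 : ℕ) : ZMod (4 * (4 * δ + 3))) := by
      rw [h]; simp
    rw [ZMod.natCast_eq_natCast_iff] at h1
    unfold Nat.ModEq at h1
    rw [h1]
    exact Nat.mod_eq_of_lt (by omega)
  have hgt : 4 * δ + 3 < l := by
    by_contra hle
    push Not at hle
    rw [Nat.mod_eq_of_lt (by omega)] at hmod
    exact hl.one_lt.ne' hmod
  have hodd : Odd l := by
    rw [Nat.odd_iff]
    have h1 : l % 2 = (l % (4 * (4 * δ + 3))) % 2 := by
      rw [Nat.mod_mod_of_dvd]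
      exact ⟨2 * (4 * δ + 3), by ring⟩
    rw [h1, hmod]
  have hj : jacobiSym (-(4 * δ + 3 : ℕ)) l = 1 := by
    rw [jacobiSym.mod_right _ hodd]
    have : (-((4 * δ + 3 : ℕ) : ℤ)).natAbs = 4 * δ + 3 := by
      rw [Int.natAbs_neg, Int.natAbs_natCast]
    rw [this, hmod, jacobiSym.one_right]
  have hne : ((-((4 * δ + 3 : ℕ) : ℤ) : ℤ) : ZMod l) ≠ 0 := by
    intro h0
    rw [ZMod.intCast_zmod_eq_zero_iff_dvd, dvd_neg, Int.natCast_dvd_natCast] at h0
    have := Nat.le_of_dvd (by omega) h0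
    omega
  rw [← jacobiSym.legendreSym.to_jacobiSym, legendreSym.eq_one_iff l hne] at hj
  obtain ⟨s, hs⟩ := hj
  have h2 : (2 : ZMod l) ≠ 0 := by
    intro h0
    have h1 : ((2 : ℕ) : ZMod l) = 0 := by simpa using h0
    rw [ZMod.natCast_eq_zero_iff] at h1
    have := Nat.le_of_dvd (by norm_num) h1
    omega
  have hpos : NeZero l := ⟨hl.ne_zero⟩
  refine ⟨((1 + s) / 2).val, ZMod.val_lt _, ?_⟩
  rw [← ZMod.natCast_eq_zero_iff, cast_modN, ZMod.natCast_zmod_val]
  push_cast at hs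
  field_simp
  linear_combination -hs

theorem DZ_Good (δ : ℕ) : DZ (Good δ) := by
  classical
  intro ε hε
  have : NeZero (4 * (4 * δ + 3)) := ⟨by omega⟩
  set S : ℕ → Finset ℕ := fun l => (range l).filter (fun r => ¬ l ∣ modN δ r) with hS
  have hper : ∀ l m : ℕ, l ∣ modN δ (m % l) ↔ l ∣ modN δ m := by
    intro l m
    rw [← ZMod.natCast_eq_zero_iff, ← ZMod.natCast_eq_zero_iff, cast_modN, cast_modN,
      ZMod.natCast_mod]
  have hSc : ∀ l : ℕ, l.Prime → (l : ZMod (4 * (4 * δ + 3))) = 1 →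
      ((S l).card : ℝ) ≤ (fun l : ℕ => l) l * (1 - 1 / (2 * l)) := by
    intro l hl hl1
    obtain ⟨r, hr, hrd⟩ := exists_root_mod δ l hl hl1
    have h1 : (S l).card < l := by
      conv_rhs => rw [← card_range l]
      apply card_lt_card
      rw [ssubset_iff_of_subset (filter_subset _ _)]
      refine ⟨r, mem_range.2 hr, ?_⟩
      rw [mem_filter]
      push Not
      intro _
      exact hrd
    have h2 : ((S l).card : ℝ) + 1 ≤ l := by exact_mod_cast h1
    have hl0 : (0 : ℝ) < l := by exact_mod_cast hl.pos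
    have h9 : (l : ℝ) * (1 - 1 / (2 * l)) = (l : ℝ) - 1 / 2 := by
      field_simp
    simp only
    rw [h9]
    linarith
  obtain ⟨T, hT, X₀, hX₀⟩ := sieve (isUnit_one) (fun l => l) S (fun l _ _ => ⟨1, (pow_one l).symm⟩)
    hSc (ε / 2) (by linarith)
  have hDZ : DZ (fun m => ∃ l ∈ T, l ∣ modN δ m ∧ Good δ m) :=
    DZ.exists_finset T _ fun l hl => DZ_dvd l δ (hT l hl).1.two_le
  obtain ⟨X₁, hX₁⟩ := hDZ (ε / 2) (by linarith)
  refine ⟨max X₀ X₁, fun X hX => ?_⟩
  have h1 := hX₀ X (le_trans (le_max_left _ _) hX)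
  have h2 := hX₁ X (le_trans (le_max_right _ _) hX)
  rw [ncard_eq] at h2
  rw [ncard_eq]
  have h3 : ((range X).filter (Good δ)).card ≤
      ((range X).filter (fun m => ∀ l ∈ T, m % l ∈ S l)).card +
      ((range X).filter (fun m => ∃ l ∈ T, l ∣ modN δ m ∧ Good δ m)).card := by
    refine le_trans (card_le_card ?_) (card_union_le _ _)
    intro m hm
    rw [mem_filter] at hm
    rw [mem_union, mem_filter, mem_filter]
    by_cases hex : ∃ l ∈ T, l ∣ modN δ m
    · obtain ⟨l, hl, hld⟩ := hex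
      exact Or.inr ⟨hm.1, l, hl, hld, hm.2⟩
    · push Not at hex
      refine Or.inl ⟨hm.1, fun l hl => ?_⟩
      refine mem_filter.2 ⟨mem_range.2 (Nat.mod_lt _ (hT l hl).1.pos), ?_⟩
      rw [hper]
      exact hex l hl
  have h4 := (Nat.cast_le (α := ℝ)).2 h3
  push_cast at h4
  refine h4.trans ?_
  have h5 : ε * X = ε / 2 * X + ε / 2 * X := by ring
  rw [h5]
  exact add_le_add h1 h2

end Pool.Agent.H40CS
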