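import Pool.Agent.H40CS.Density

namespace Pool.Agent.H40CS

open Finset Filter

/-- Integers which are divisible by the square of each of their prime factors `l ≡ -1` modulo a
fixed `w` have density zero. -/
theorem DZ_exact (w : ℕ) (hw : 2 ≤ w) (P : ℕ → Prop)
    (hP : ∀ v, P v → ∀ l : ℕ, l.Prime → w ∣ l + 1 → l ∣ v → l ^ 2 ∣ v) : DZ P := by
  classical
  intro ε hε
  have : NeZero w := ⟨by omega⟩
  have hu : IsUnit (-1 : ZMod w) := isUnit_one.neg
  set S : ℕ → Finset ℕ := fun l => (range (l ^ 2)).filter (fun r => l ∣ r → l ^ 2 ∣ r)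
    with hS
  have hSc : ∀ l : ℕ, l.Prime → (l : ZMod w) = -1 →
      ((S l).card : ℝ) ≤ (fun l : ℕ => l ^ 2) l * (1 - 1 / (2 * l)) := by
    intro l hl _
    set E : Finset ℕ := (range (l - 1)).image (fun j => (j + 1) * l) with hE
    have hEc : E.card = l - 1 := by
      rw [hE, card_image_of_injective, card_range]
      intro a b hab
      have := Nat.eq_of_mul_eq_mul_right hl.pos hab
      omega
    have hl2 := hl.two_le
    have hEs : E ⊆ range (l ^ 2) := by
      intro x hx
      rw [hE, mem_image] at hx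
      obtain ⟨j, hj, rfl⟩ := hx
      rw [mem_range] at hj ⊢
      have h1 : (j + 1) * l < l * l := Nat.mul_lt_mul_of_pos_right (by omega) hl.pos
      rw [sq]
      exact h1
    have hdis : Disjoint (S l) E := by
      rw [disjoint_left]
      intro x hx hxE
      have hx2 := (mem_filter.1 hx).2
      rw [hE, mem_image] at hxE
      obtain ⟨j, hj, rfl⟩ := hxE
      rw [mem_range] at hj
      have h4 := hx2 (Dvd.intro_left _ rfl)
      have h5 : l * l ∣ (j + 1) * l := by rw [← sq]; exact h4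
      have h6 := Nat.dvd_of_mul_dvd_mul_right hl.pos h5
      have h7 := Nat.le_of_dvd (by omega) h6
      omega
    have h1 : (S l).card + (l - 1) ≤ l ^ 2 := by
      rw [← hEc, ← card_union_of_disjoint hdis]
      calc (S l ∪ E).card ≤ (range (l ^ 2)).card :=
            card_le_card (union_subset (filter_subset _ _) hEs)
        _ = l ^ 2 := card_range _
    have h2 : ((S l).card : ℝ) + (l - 1) ≤ (l : ℝ) ^ 2 := by
      have h3 : (((S l).card + (l - 1) : ℕ) : ℝ) ≤ ((l ^ 2 : ℕ) : ℝ) := by exact_mod_cast h1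
      push_cast [Nat.cast_sub (by omega : 1 ≤ l)] at h3
      exact h3
    have hl2' : (2 : ℝ) ≤ l := by exact_mod_cast hl2
    push_cast
    have h9 : (l : ℝ) ^ 2 * (1 - 1 / (2 * l)) = (l : ℝ) ^ 2 - l / 2 := by
      field_simp
    rw [h9]
    linarith
  obtain ⟨T, hT, X₀, hX₀⟩ := sieve hu (fun l => l ^ 2) S (fun l _ _ => ⟨2, rfl⟩) hSc ε hε
  refine ⟨X₀, fun X hX => le_trans ?_ (hX₀ X hX)⟩
  apply Nat.cast_le.2
  rw [ncard_eq]
  apply card_le_card
  intro t ht
  rw [mem_filter] at ht ⊢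
  refine ⟨ht.1, ?_⟩
  intro l hl
  have hlp := (hT l hl).1
  have hdvd : w ∣ l + 1 := by
    rw [← ZMod.natCast_eq_zero_iff]
    push_cast
    rw [(hT l hl).2]; ring
  refine mem_filter.2 ⟨mem_range.2 (Nat.mod_lt _ (pow_pos hlp.pos 2)), ?_⟩
  intro h
  have h1 : l ∣ t := (Nat.dvd_mod_iff (dvd_pow_self l (by norm_num))).1 h
  exact (Nat.dvd_mod_iff (dvd_refl _)).2 (hP t ht.2 l hlp hdvd h1)

/-- A property `P` of integers has density zero if, for every prime `w`, the `v` with `P v` which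
are divisible by `w` have density zero. -/
theorem DZ_of_dvd (P : ℕ → Prop) (hP : ∀ w : ℕ, w.Prime → DZ (fun v => w ∣ v ∧ P v)) : DZ P := by
  classical
  intro ε hε
  set S : ℕ → Finset ℕ := fun l => (range l).filter (fun r => ¬ l ∣ r) with hS
  have hSc : ∀ l : ℕ, l.Prime → (l : ZMod 2) = 1 →
      ((S l).card : ℝ) ≤ (fun l : ℕ => l) l * (1 - 1 / (2 * l)) := by
    intro l hl _
    have h1 : (S l).card < l := by
      conv_rhs => rw [← card_range l]
      apply card_lt_card
      rw [ssubset_iff_of_subset (filter_subset _ _)]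
      refine ⟨0, mem_range.2 hl.pos, ?_⟩
      rw [mem_filter]
      push Not
      intro _
      exact dvd_zero l
    have h2 : ((S l).card : ℝ) + 1 ≤ l := by exact_mod_cast h1
    have hl0 : (0 : ℝ) < l := by exact_mod_cast hl.pos
    have h9 : (l : ℝ) * (1 - 1 / (2 * l)) = (l : ℝ) - 1 / 2 := by
      field_simp
    simp only
    rw [h9]
    linarith
  obtain ⟨T, hT, X₀, hX₀⟩ := sieve (w := 2) (isUnit_one) (fun l => l) S
    (fun l _ _ => ⟨1, (pow_one l).symm⟩) hSc (ε / 2) (by linarith)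
  have hDZ : DZ (fun t => ∃ l ∈ T, l ∣ t ∧ P t) :=
    DZ.exists_finset T _ fun l hl => hP l (hT l hl).1
  obtain ⟨X₁, hX₁⟩ := hDZ (ε / 2) (by linarith)
  refine ⟨max X₀ X₁, fun X hX => ?_⟩
  have h1 := hX₀ X (le_trans (le_max_left _ _) hX)
  have h2 := hX₁ X (le_trans (le_max_right _ _) hX)
  rw [ncard_eq] at h2
  rw [ncard_eq]
  have h3 : ((range X).filter P).card ≤
      ((range X).filter (fun m => ∀ l ∈ T, m % l ∈ S l)).card +
      ((range X).filter (fun t => ∃ l ∈ T, l ∣ t ∧ P t)).card := by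
    refine le_trans (card_le_card ?_) (card_union_le _ _)
    intro m hm
    rw [mem_filter] at hm
    rw [mem_union, mem_filter, mem_filter]
    by_cases hex : ∃ l ∈ T, l ∣ m
    · obtain ⟨l, hl, hld⟩ := hex
      exact Or.inr ⟨hm.1, l, hl, hld, hm.2⟩
    · push Not at hex
      refine Or.inl ⟨hm.1, fun l hl => ?_⟩
      refine mem_filter.2 ⟨mem_range.2 (Nat.mod_lt _ (hT l hl).1.pos), ?_⟩
      rw [Nat.dvd_mod_iff (dvd_refl l)]
      exact hex l hl
  have h4 := (Nat.cast_le (α := ℝ)).2 h3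
  push_cast at h4
  refine h4.trans ?_
  have h5 : ε * X = ε / 2 * X + ε / 2 * X := by ring
  rw [h5]
  exact add_le_add h1 h2

end Pool.Agent.H40CS
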