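import Pool.Agent.H40CS.Density

namespace Pool.Agent.H40CS

open Finset Filter

theorem exists_finset_mod' {w : ℕ} [NeZero w] {a : ZMod w} (ha : IsUnit a) (M : ℕ) (K : ℝ) :
    ∃ T : Finset ℕ, (∀ p ∈ T, p.Prime ∧ (p : ZMod w) = a ∧ M < p) ∧ K ≤ ∑ p ∈ T, (1 : ℝ) / p := by
  classical
  obtain ⟨T, hT, hK⟩ := exists_finset_mod ha (K + (M + 1))
  refine ⟨T.filter (fun p => M < p), ?_, ?_⟩
  · intro p hp
    rw [mem_filter] at hp
    exact ⟨(hT p hp.1).1, (hT p hp.1).2, hp.2⟩
  · have h1 := sum_filter_add_sum_filter_not T (fun p => M < p) (fun p : ℕ => (1 : ℝ) / p)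
    have h2 : ∑ p ∈ T.filter (fun p => ¬ M < p), (1 : ℝ) / p ≤ M + 1 := by
      calc ∑ p ∈ T.filter (fun p => ¬ M < p), (1 : ℝ) / p
          ≤ ∑ p ∈ T.filter (fun p => ¬ M < p), (1 : ℝ) := by
            apply sum_le_sum
            intro p hp
            rw [mem_filter] at hp
            have h3 : (1 : ℝ) ≤ p := by exact_mod_cast (hT p hp.1).1.one_lt.le
            rw [div_le_one (by linarith)]
            exact h3
        _ = ((T.filter (fun p => ¬ M < p)).card : ℝ) := by simp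
        _ ≤ M + 1 := by
            have h3 : (T.filter (fun p => ¬ M < p)).card ≤ M + 1 := by
              rw [← card_range (M + 1)]
              apply card_le_card
              intro p hp
              rw [mem_filter] at hp
              rw [mem_range]
              omega
            exact_mod_cast h3
    linarith

theorem sieve' {w : ℕ} [NeZero w] {a : ZMod w} (ha : IsUnit a) (M : ℕ) (q : ℕ → ℕ)
    (S : ℕ → Finset ℕ)
    (hq : ∀ l : ℕ, l.Prime → (l : ZMod w) = a → ∃ e, q l = l ^ e)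
    (hS : ∀ l : ℕ, l.Prime → (l : ZMod w) = a →
      ((S l).card : ℝ) ≤ q l * (1 - 1 / (2 * l))) (ε : ℝ) (hε : 0 < ε) :
    ∃ T : Finset ℕ, (∀ l ∈ T, l.Prime ∧ (l : ZMod w) = a ∧ M < l) ∧ ∃ X₀ : ℕ, ∀ X ≥ X₀,
      (((range X).filter (fun m => ∀ l ∈ T, m % q l ∈ S l)).card : ℝ) ≤ ε * X := by
  classical
  obtain ⟨T, hT, hK⟩ := exists_finset_mod' ha M (-2 * Real.log (ε / 2))
  refine ⟨T, hT, ?_⟩
  set Q : ℕ := ∏ l ∈ T, q l with hQ
  have hqpos : ∀ l ∈ T, 0 < q l := by
    intro l hl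
    obtain ⟨e, he⟩ := hq l (hT l hl).1 (hT l hl).2.1
    rw [he]
    exact pow_pos (hT l hl).1.pos e
  have hQ0 : 0 < Q := prod_pos hqpos
  have hco : ∀ l ∈ T, ∀ l' ∈ T, l ≠ l' → Nat.Coprime (q l) (q l') := by
    intro l hl l' hl' hne
    obtain ⟨e, he⟩ := hq l (hT l hl).1 (hT l hl).2.1
    obtain ⟨e', he'⟩ := hq l' (hT l' hl').1 (hT l' hl').2.1
    rw [he, he']
    exact Nat.Coprime.pow _ _ ((Nat.coprime_primes (hT l hl).1 (hT l' hl').1).2 hne)
  have hcrt := crt_count T q hqpos hco S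
  rw [← hQ] at hcrt
  have hprod : ((∏ l ∈ T, (S l).card : ℕ) : ℝ) ≤ Q * (ε / 2) := by
    push_cast
    calc ∏ l ∈ T, ((S l).card : ℝ) ≤ ∏ l ∈ T, ((q l : ℝ) * Real.exp (-(1 / (2 * l)))) := by
          apply Finset.prod_le_prod
          · intro l _; positivity
          · intro l hl
            refine (hS l (hT l hl).1 (hT l hl).2.1).trans ?_
            apply mul_le_mul_of_nonneg_left _ (by positivity)
            have := Real.add_one_le_exp (-(1 / (2 * (l : ℝ))))
            linarith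
      _ = Q * Real.exp (∑ l ∈ T, -(1 / (2 * (l : ℝ)))) := by
          rw [prod_mul_distrib, Real.exp_sum, hQ]
          push_cast
          ring
      _ ≤ Q * (ε / 2) := by
          apply mul_le_mul_of_nonneg_left _ (by positivity)
          have h1 : ∑ l ∈ T, -(1 / (2 * (l : ℝ))) ≤ Real.log (ε / 2) := by
            have h2 : ∑ l ∈ T, -(1 / (2 * (l : ℝ))) = -(1 / 2) * ∑ l ∈ T, 1 / (l : ℝ) := by
              rw [mul_sum]
              apply sum_congr rfl
              intro l _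
              field_simp
            rw [h2]
            linarith
          calc Real.exp (∑ l ∈ T, -(1 / (2 * (l : ℝ)))) ≤ Real.exp (Real.log (ε / 2)) :=
                Real.exp_le_exp.2 h1
            _ = ε / 2 := Real.exp_log (by linarith)
  refine ⟨Q, ?_⟩
  intro X hX
  have hcnt := cnt_le (P := fun m => ∀ l ∈ T, m % q l ∈ S l) hQ0 (by
    intro m hm l hl
    have hd : q l ∣ Q := dvd_prod_of_mem q hl
    rw [Nat.mod_mod_of_dvd _ hd]
    exact hm l hl) X
  have hQR : (0 : ℝ) < Q := by exact_mod_cast hQ0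
  have h1 : (((range X).filter (fun m => ∀ l ∈ T, m % q l ∈ S l)).card : ℝ) ≤
      ((X / Q + 1 : ℕ) : ℝ) * (Q * (ε / 2)) := by
    refine le_trans (Nat.cast_le.2 hcnt) ?_
    rw [Nat.cast_mul]
    apply mul_le_mul_of_nonneg_left _ (by positivity)
    exact le_trans (Nat.cast_le.2 hcrt) hprod
  refine h1.trans ?_
  have h2 : ((X / Q : ℕ) : ℝ) ≤ (X : ℝ) / Q := Nat.cast_div_le
  have h3 : ((X / Q + 1 : ℕ) : ℝ) * (Q * (ε / 2)) ≤ ((X : ℝ) / Q + 1) * (Q * (ε / 2)) := by
    apply mul_le_mul_of_nonneg_right _ (by positivity)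
    push_cast
    linarith
  refine h3.trans ?_
  have h4 : ((X : ℝ) / Q + 1) * (Q * (ε / 2)) = (X + Q) * (ε / 2) := by
    field_simp
  rw [h4]
  have h5 : (Q : ℝ) ≤ X := by exact_mod_cast hX
  nlinarith

/-- Integers which are divisible by the square of each of their prime factors `l ≡ -1` modulo a
fixed `w` with `l > M` have density zero. -/
theorem DZ_exact' (w M : ℕ) (hw : 2 ≤ w) (P : ℕ → Prop)
    (hP : ∀ v, P v → ∀ l : ℕ, l.Prime → M < l → w ∣ l + 1 → l ∣ v → l ^ 2 ∣ v) : DZ P := by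
  classical
  intro ε hε
  have : NeZero w := ⟨by omega⟩
  have hu : IsUnit (-1 : ZMod w) := isUnit_one.neg
  set S : ℕ → Finset ℕ := fun l => (range (l ^ 2)).filter (fun r => l ∣ r → l ^ 2 ∣ r)
    with hS
  have hSc : ∀ l : ℕ, l.Prime → (l : ZMod w) = -1 →
      ((S l).card : ℝ) ≤ (fun l : ℕ => l ^ 2) l * (1 - 1 / (2 * l)) := by
    intro l hl _
    set E : Finset ℕ := (range (l - 1)).image (fun j => (j + 1) * l) with hE
    have hEc : E.card = l - 1 := by
      rw [hE, card_image_of_injective, card_range]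
      intro a b hab
      have := Nat.eq_of_mul_eq_mul_right hl.pos hab
      omega
    have hl2 := hl.two_le
    have hEs : E ⊆ range (l ^ 2) := by
      intro x hx
      rw [hE, mem_image] at hx
      obtain ⟨j, hj, rfl⟩ := hx
      rw [mem_range] at hj ⊢
      have h1 : (j + 1) * l < l * l := Nat.mul_lt_mul_of_pos_right (by omega) hl.pos
      rw [sq]
      exact h1
    have hdis : Disjoint (S l) E := by
      rw [disjoint_left]
      intro x hx hxE
      have hx2 := (mem_filter.1 hx).2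
      rw [hE, mem_image] at hxE
      obtain ⟨j, hj, rfl⟩ := hxE
      rw [mem_range] at hj
      have h4 := hx2 (Dvd.intro_left _ rfl)
      have h5 : l * l ∣ (j + 1) * l := by rw [← sq]; exact h4
      have h6 := Nat.dvd_of_mul_dvd_mul_right hl.pos h5
      have h7 := Nat.le_of_dvd (by omega) h6
      omega
    have h1 : (S l).card + (l - 1) ≤ l ^ 2 := by
      rw [← hEc, ← card_union_of_disjoint hdis]
      calc (S l ∪ E).card ≤ (range (l ^ 2)).card :=
            card_le_card (union_subset (filter_subset _ _) hEs)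
        _ = l ^ 2 := card_range _
    have h2 : ((S l).card : ℝ) + (l - 1) ≤ (l : ℝ) ^ 2 := by
      have h3 : (((S l).card + (l - 1) : ℕ) : ℝ) ≤ ((l ^ 2 : ℕ) : ℝ) := by exact_mod_cast h1
      push_cast [Nat.cast_sub (by omega : 1 ≤ l)] at h3
      exact h3
    have hl2' : (2 : ℝ) ≤ l := by exact_mod_cast hl2
    push_cast
    have h9 : (l : ℝ) ^ 2 * (1 - 1 / (2 * l)) = (l : ℝ) ^ 2 - l / 2 := by
      field_simp
    rw [h9]
    linarith
  obtain ⟨T, hT, X₀, hX₀⟩ := sieve' hu M (fun l => l ^ 2) S (fun l _ _ => ⟨2, rfl⟩) hSc ε hε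
  refine ⟨X₀, fun X hX => le_trans ?_ (hX₀ X hX)⟩
  apply Nat.cast_le.2
  rw [ncard_eq]
  apply card_le_card
  intro t ht
  rw [mem_filter] at ht ⊢
  refine ⟨ht.1, ?_⟩
  intro l hl
  have hlp := (hT l hl).1
  have hdvd : w ∣ l + 1 := by
    rw [← ZMod.natCast_eq_zero_iff]
    push_cast
    rw [(hT l hl).2.1]; ring
  refine mem_filter.2 ⟨mem_range.2 (Nat.mod_lt _ (pow_pos hlp.pos 2)), ?_⟩
  intro h
  have h1 : l ∣ t := (Nat.dvd_mod_iff (dvd_pow_self l (by norm_num))).1 h
  exact (Nat.dvd_mod_iff (dvd_refl _)).2 (hP t ht.2 l hlp (hT l hl).2.2 hdvd h1)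

/-- Shifting by one preserves density zero. -/
theorem DZ.shift {P : ℕ → Prop} (h : DZ (fun t => P (t + 1))) : DZ P := by
  have h0 : DZ (fun m => m ≤ 0) := DZ.le 0
  intro ε hε
  obtain ⟨X₁, hX₁⟩ := h (ε / 2) (by linarith)
  obtain ⟨X₂, hX₂⟩ := h0 (ε / 2) (by linarith)
  refine ⟨max X₁ X₂, fun X hX => ?_⟩
  have h1 := hX₁ X (le_trans (le_max_left _ _) hX)
  have h2 := hX₂ X (le_trans (le_max_right _ _) hX)
  have h3 : {m : ℕ | m < X ∧ P m}.ncard ≤
      {m : ℕ | m < X ∧ P (m + 1)}.ncard + {m : ℕ | m < X ∧ m ≤ 0}.ncard := by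
    have hsub : {m : ℕ | m < X ∧ P m} ⊆
        (fun t => t + 1) '' {m : ℕ | m < X ∧ P (m + 1)} ∪ {m : ℕ | m < X ∧ m ≤ 0} := by
      rintro m ⟨hm, hPm⟩
      rcases Nat.eq_zero_or_pos m with h4 | h4
      · exact Or.inr ⟨hm, h4.le⟩
      · left
        obtain ⟨t, rfl⟩ : ∃ t, m = t + 1 := ⟨m - 1, by omega⟩
        exact ⟨t, ⟨by omega, hPm⟩, rfl⟩
    refine le_trans (Set.ncard_le_ncard hsub (((fin_lt _ X).image _).union (fin_lt _ X))) ?_
    refine (Set.ncard_union_le _ _).trans ?_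
    exact Nat.add_le_add_right (Set.ncard_image_le (fin_lt _ X)) _
  have h4 := (Nat.cast_le (α := ℝ)).2 h3
  push_cast at h4
  linarith

end Pool.Agent.H40CS
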