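import Pool.Agent.H40CS.Sedf
import Pool.Agent.H40CS.SieveTwo
import Pool.Agent.H40CS.ExactDivisors

namespace Pool.Agent.H40CS

open Finset WittVector

/-- The character sums of a direct product difference set in `G × G`. -/
theorem dpds_identity {G : Type*} [CommGroup G] [Fintype G] [DecidableEq G] (D : Finset (G × G))
    (hcard : D.card + 1 = Fintype.card G)
    (hD : ∀ α β : G, (α ≠ 1 ∨ β ≠ 1) → (D.filter (fun d => (α * d.1, β * d.2) ∈ D)).card =
      if α ≠ 1 ∧ β ≠ 1 ∧ α ≠ β then 1 else 0)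
    {R : Type*} [CommRing R] (ψ ψ' : G → R) (hmul : ∀ a b, ψ (a * b) = ψ a * ψ b)
    (hinv : ∀ a, ψ a * ψ' a = 1) (hone : ψ 1 = 1) (h0 : ∑ a : G, ψ a = 0)
    (h02 : ∑ a : G, ψ a * ψ a = 0) :
    (∑ d ∈ D, ψ d.1 * ψ d.2) * (∑ d ∈ D, ψ' d.1 * ψ' d.2) = (Fintype.card G : R) + 1 := by
  have hψ' : ∀ a b : G, ψ a * ψ' b = ψ (a * b⁻¹) := by
    intro a b
    have h1 : ψ (a * b⁻¹) * ψ b = ψ a := by rw [← hmul, inv_mul_cancel_right]
    rw [← h1, mul_assoc, hinv, mul_one]
  have h2 : (∑ d ∈ D, ψ d.1 * ψ d.2) * (∑ d ∈ D, ψ' d.1 * ψ' d.2) =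
      ∑ p ∈ D ×ˢ D, ψ (p.1.1 * p.2.1⁻¹) * ψ (p.1.2 * p.2.2⁻¹) := by
    rw [sum_mul_sum, ← sum_product']
    apply sum_congr rfl
    intro p _
    rw [← hψ', ← hψ']
    ring
  have h3 : ∑ p ∈ D ×ˢ D, ψ (p.1.1 * p.2.1⁻¹) * ψ (p.1.2 * p.2.2⁻¹) =
      ∑ g : G × G, ((D.filter (fun d => (g.1 * d.1, g.2 * d.2) ∈ D)).card : R) *
        (ψ g.1 * ψ g.2) := by
    rw [← sum_fiberwise_of_maps_to
      (g := fun p : (G × G) × (G × G) => (p.1.1 * p.2.1⁻¹, p.1.2 * p.2.2⁻¹))
      (t := (univ : Finset (G × G))) (fun p _ => mem_univ _)]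
    apply sum_congr rfl
    rintro ⟨α, β⟩ _
    rw [sum_congr rfl (g := fun _ => ψ α * ψ β) (fun p hp => by
      have h5 := (mem_filter.1 hp).2
      simp only [Prod.mk.injEq] at h5
      rw [h5.1, h5.2]), sum_const, nsmul_eq_mul]
    congr 2
    apply card_bij (fun p _ => p.2)
    · rintro ⟨p, d⟩ hp
      rw [mem_filter, mem_product] at hp
      simp only [Prod.mk.injEq] at hp
      rw [mem_filter]
      refine ⟨hp.1.2, ?_⟩
      have e1 : α * d.1 = p.1 := by rw [← hp.2.1, inv_mul_cancel_right]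
      have e2 : β * d.2 = p.2 := by rw [← hp.2.2, inv_mul_cancel_right]
      simp only
      rw [e1, e2]
      exact hp.1.1
    · rintro ⟨p, d⟩ hp ⟨p', d'⟩ hp' hdd
      rw [mem_filter, mem_product] at hp hp'
      simp only [Prod.mk.injEq] at hp hp'
      simp only at hdd
      subst hdd
      have e1 : p.1 = p'.1 := by
        have := hp.2.1.trans hp'.2.1.symm
        exact mul_right_cancel this
      have e2 : p.2 = p'.2 := by
        have := hp.2.2.trans hp'.2.2.symm
        exact mul_right_cancel this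
      rw [Prod.ext e1 e2]
    · intro d hd
      rw [mem_filter] at hd
      refine ⟨((α * d.1, β * d.2), d), ?_, rfl⟩
      rw [mem_filter, mem_product]
      refine ⟨⟨hd.2, hd.1⟩, ?_⟩
      simp only [mul_inv_cancel_right]
  have h1c : (D.filter (fun d => ((1 : G) * d.1, (1 : G) * d.2) ∈ D)).card = D.card := by
    congr 1
    apply filter_true_of_mem
    rintro ⟨a, b⟩ hd
    simpa using hd
  have hDc : (D.card : R) = (Fintype.card G : R) - 1 := by
    rw [← hcard]; push_cast; ring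
  rw [h2, h3]
  -- evaluate the sum over the group
  have h4 : ∀ g : G × G, ((D.filter (fun d => (g.1 * d.1, g.2 * d.2) ∈ D)).card : R) *
      (ψ g.1 * ψ g.2) = ψ g.1 * ψ g.2 - (if g.1 = 1 then ψ g.1 * ψ g.2 else 0) -
        (if g.2 = 1 then ψ g.1 * ψ g.2 else 0) - (if g.1 = g.2 then ψ g.1 * ψ g.2 else 0) +
        (if g = 1 then ((D.card : R) + 2) * (ψ g.1 * ψ g.2) else 0) := by
    rintro ⟨α, β⟩
    simp only [Prod.mk_eq_one]
    by_cases ha : α = 1
    · by_cases hb : β = 1
      · subst ha; subst hb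
        rw [h1c]
        simp only [if_true, and_self]
        ring
      · subst ha
        rw [hD 1 β (Or.inr hb)]
        have hb' : ¬ (1 : G) = β := fun h => hb h.symm
        simp [hb, hb']
    · by_cases hb : β = 1
      · subst hb
        rw [hD α 1 (Or.inl ha)]
        simp [ha]
      · rw [hD α β (Or.inl ha)]
        by_cases hab : α = β
        · simp [ha, hb, hab]
        · simp [ha, hb, hab]
  rw [sum_congr rfl (fun g _ => h4 g), sum_add_distrib, sum_sub_distrib, sum_sub_distrib,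
    sum_sub_distrib]
  have s0 : ∑ g : G × G, ψ g.1 * ψ g.2 = 0 := by
    rw [Fintype.sum_prod_type]
    simp only [← mul_sum, h0, mul_zero, sum_const_zero]
  have s1 : ∑ g : G × G, (if g.1 = 1 then ψ g.1 * ψ g.2 else 0) = 0 := by
    rw [Fintype.sum_prod_type]
    have : ∀ a : G, ∑ b : G, (if a = 1 then ψ a * ψ b else 0) = 0 := by
      intro a
      by_cases ha : a = 1
      · simp only [ha, if_true]
        rw [← mul_sum, h0, mul_zero]
      · simp [ha]
    exact sum_eq_zero fun a _ => this a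
  have s2 : ∑ g : G × G, (if g.2 = 1 then ψ g.1 * ψ g.2 else 0) = 0 := by
    rw [Fintype.sum_prod_type_right]
    have : ∀ b : G, ∑ a : G, (if b = 1 then ψ a * ψ b else 0) = 0 := by
      intro b
      by_cases hb : b = 1
      · simp only [hb, if_true]
        rw [← sum_mul, h0, zero_mul]
      · simp [hb]
    exact sum_eq_zero fun b _ => this b
  have s3 : ∑ g : G × G, (if g.1 = g.2 then ψ g.1 * ψ g.2 else 0) = 0 := by
    rw [Fintype.sum_prod_type]
    have : ∀ a : G, ∑ b : G, (if a = b then ψ a * ψ b else 0) = ψ a * ψ a := by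
      intro a
      rw [sum_ite_eq univ a]
      simp
    rw [sum_congr rfl fun a _ => this a]
    exact h02
  have s4 : ∑ g : G × G, (if g = 1 then ((D.card : R) + 2) * (ψ g.1 * ψ g.2) else 0) =
      (D.card : R) + 2 := by
    rw [sum_ite_eq' univ (1 : G × G)]
    simp [hone]
  rw [s0, s1, s2, s3, s4, hDc]
  ring

end Pool.Agent.H40CS
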