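import Pool.Agent.H40CS.Density

namespace Pool.Agent.H40CS

open Finset Filter

theorem even_square {n : ℕ} [NeZero n] (hn : Even n) {A : Finset (ZMod n)}
    (hA : IsSidonSet A) :
    ∃ s : ℕ, |(s : ℤ) ^ 2 - ((A.card : ℤ) - 1)| ≤ ((missing A).card : ℤ) := by
  have h : (-1 : ℤ) ^ n = 1 := hn.neg_one_pow
  set ψ : AddChar (ZMod n) ℤ := AddChar.zmodChar n h with hψ
  have hψa : ∀ a, ψ a = (-1) ^ a.val := fun a => AddChar.zmodChar_apply h a
  have hψ1 : ψ ≠ 1 := by
    intro hcon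
    have h1 := AddChar.zmodChar_apply' h 1
    rw [← hψ, hcon] at h1
    simp at h1
  have hneg : ∀ a, ψ (-a) = ψ a := by
    intro a
    have e1 : ψ a * ψ (-a) = 1 := by
      rw [← AddChar.map_add_eq_mul, add_neg_cancel, AddChar.map_zero_eq_one]
    rcases neg_one_pow_eq_or ℤ a.val with h2 | h2
    · rw [hψa a, h2] at e1
      rw [hψa a, h2]
      linarith
    · rw [hψa a, h2] at e1
      rw [hψa a, h2]
      linarith
  have h1 := char_identity hA ψ hψ1
  rw [sum_congr rfl (fun a _ => hneg a)] at h1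
  refine ⟨(∑ a ∈ A, ψ a).natAbs, ?_⟩
  have h2 : (((∑ a ∈ A, ψ a).natAbs : ℕ) : ℤ) ^ 2 = (∑ a ∈ A, ψ a) * (∑ a ∈ A, ψ a) := by
    rw [Int.natAbs_sq, sq]
  rw [h2, h1]
  have h3 : |∑ x ∈ missing A, ψ x| ≤ ((missing A).card : ℤ) := by
    calc |∑ x ∈ missing A, ψ x| ≤ ∑ x ∈ missing A, |ψ x| := abs_sum_le_sum_abs _ _
      _ = ∑ x ∈ missing A, (1 : ℤ) := by
          apply sum_congr rfl
          intro x _
          rw [hψa, abs_neg_one_pow]
      _ = ((missing A).card : ℤ) := by simp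
  have h4 : (A.card : ℤ) - 1 - ∑ x ∈ missing A, ψ x - ((A.card : ℤ) - 1) =
      -∑ x ∈ missing A, ψ x := by ring
  rw [h4, abs_neg]
  exact h3

theorem DZ_near_square (g : ℕ → ℝ) (hg : g =o[atTop] (fun m : ℕ => Real.sqrt m)) :
    DZ (fun m => ∃ s : ℕ, |(s : ℝ) ^ 2 - ((m : ℝ) - 1)| ≤ g m) := by
  classical
  intro ε hε
  set c : ℝ := min ε 1 / 16 with hc
  have hc0 : 0 < c := by
    rw [hc]
    have : 0 < min ε 1 := lt_min hε one_pos
    positivity
  have hc1 : c ≤ 1 / 16 := by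
    rw [hc]
    have := min_le_right ε 1
    linarith
  have hcε : c ≤ ε / 16 := by
    rw [hc]
    have := min_le_left ε 1
    linarith
  have hb := (hg.bound hc0)
  rw [eventually_atTop] at hb
  obtain ⟨M₀, hM₀⟩ := hb
  set X₀ : ℕ := ⌈64 / ε ^ 2⌉₊ + ⌈4 * (M₀ + 2) / ε⌉₊ + 1 with hX₀
  refine ⟨X₀, fun X hX => ?_⟩
  set r : ℕ := ⌊c * Real.sqrt X⌋₊ with hr
  set R : ℕ := Nat.sqrt X with hR
  have hsub : (range X).filter (fun m : ℕ => ∃ s : ℕ, |(s : ℝ) ^ 2 - ((m : ℝ) - 1)| ≤ g m) ⊆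
      range M₀ ∪ (range (R + 2)).biUnion (fun s : ℕ => Icc (s ^ 2 + 1 - r) (s ^ 2 + 1 + r)) := by
    intro m hm
    rw [mem_filter, mem_range] at hm
    obtain ⟨hmX, s, hs⟩ := hm
    rw [mem_union]
    by_cases hmM : m < M₀
    · exact Or.inl (mem_range.2 hmM)
    · push Not at hmM
      right
      have h1 := hM₀ m hmM
      rw [Real.norm_eq_abs, Real.norm_eq_abs, abs_of_nonneg (Real.sqrt_nonneg _)] at h1
      have hmX' : (m : ℝ) ≤ X := by exact_mod_cast hmX.le
      have h2 : Real.sqrt m ≤ Real.sqrt X := Real.sqrt_le_sqrt hmX'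
      have h3 : |(s : ℝ) ^ 2 - ((m : ℝ) - 1)| ≤ c * Real.sqrt X := by
        calc |(s : ℝ) ^ 2 - ((m : ℝ) - 1)| ≤ g m := hs
          _ ≤ |g m| := le_abs_self _
          _ ≤ c * Real.sqrt m := h1
          _ ≤ c * Real.sqrt X := mul_le_mul_of_nonneg_left h2 hc0.le
      have h4 : |((s : ℤ) ^ 2 + 1 - m)| ≤ (r : ℤ) := by
        have h5 : ((|((s : ℤ) ^ 2 + 1 - m)|.toNat : ℕ) : ℝ) ≤ c * Real.sqrt X := by
          have h6 : ((|((s : ℤ) ^ 2 + 1 - m)|.toNat : ℕ) : ℤ) = |((s : ℤ) ^ 2 + 1 - m)| :=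
            Int.toNat_of_nonneg (abs_nonneg _)
          have h7 : ((|((s : ℤ) ^ 2 + 1 - m)|.toNat : ℕ) : ℝ) = |(s : ℝ) ^ 2 - ((m : ℝ) - 1)| := by
            have h8 : ((|((s : ℤ) ^ 2 + 1 - m)|.toNat : ℕ) : ℝ) =
                (((|((s : ℤ) ^ 2 + 1 - m)|.toNat : ℕ) : ℤ) : ℝ) := by norm_cast
            rw [h8, h6]
            push_cast
            congr 1
            ring
          rw [h7]; exact h3
        have h9 := Nat.le_floor h5
        have h10 : ((|((s : ℤ) ^ 2 + 1 - m)|.toNat : ℕ) : ℤ) ≤ (r : ℤ) := by exact_mod_cast h9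
        rwa [Int.toNat_of_nonneg (abs_nonneg _)] at h10
      rw [abs_le] at h4
      rw [mem_biUnion]
      refine ⟨s, ?_, ?_⟩
      · rw [mem_range]
        by_contra hge
        push Not at hge
        have h5 : Real.sqrt X < R + 1 := by
          rw [Real.sqrt_lt' (by positivity)]
          have := Nat.lt_succ_sqrt X
          rw [← hR] at this
          have h6 : X < (R + 1) * (R + 1) := this
          have h7 : (X : ℝ) < ((R + 1) * (R + 1) : ℕ) := by exact_mod_cast h6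
          push_cast at h7
          nlinarith
        have h6 : ((R : ℝ) + 2) ≤ s := by exact_mod_cast hge
        have h7 : (s : ℝ) ^ 2 ≤ (m : ℝ) - 1 + c * Real.sqrt X := by
          have := le_trans (le_abs_self _) h3
          linarith
        have h8 : Real.sqrt X ^ 2 = X := Real.sq_sqrt (by positivity)
        have h9 : 0 ≤ Real.sqrt X := Real.sqrt_nonneg _
        nlinarith
      · rw [mem_Icc]
        constructor
        · have := h4.2
          zify at this ⊢
          have h11 : ((s ^ 2 + 1 - r : ℕ) : ℤ) ≤ max ((s : ℤ) ^ 2 + 1 - r) 0 := by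
            rcases le_total r (s ^ 2 + 1) with h12 | h12
            · rw [Nat.cast_sub h12]
              push_cast
              exact le_max_left _ _
            · rw [Nat.sub_eq_zero_of_le h12]
              simp
          refine h11.trans (max_le ?_ (by positivity))
          linarith
        · have := h4.1
          zify
          linarith
  have hcard : {m : ℕ | m < X ∧ ∃ s : ℕ, |(s : ℝ) ^ 2 - ((m : ℝ) - 1)| ≤ g m}.ncard ≤
      M₀ + (R + 2) * (2 * r + 1) := by
    rw [ncard_eq]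
    refine (card_le_card hsub).trans ((card_union_le _ _).trans ?_)
    rw [card_range]
    apply Nat.add_le_add_left
    refine (card_biUnion_le_card_mul _ _ (2 * r + 1) ?_).trans ?_
    · intro s _
      rw [Nat.card_Icc]
      omega
    · rw [card_range]
  have h1 := (Nat.cast_le (α := ℝ)).2 hcard
  push_cast at h1
  refine h1.trans ?_
  set q : ℝ := Real.sqrt X with hq
  have hq0 : 0 ≤ q := Real.sqrt_nonneg _
  have hq2 : q ^ 2 = X := Real.sq_sqrt (by positivity)
  have hRq : (R : ℝ) ≤ q := by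
    rw [hq]
    apply Real.le_sqrt_of_sq_le
    have := Nat.sqrt_le X
    rw [← hR] at this
    have h2 : ((R * R : ℕ) : ℝ) ≤ X := by exact_mod_cast this
    push_cast at h2
    nlinarith
  have hrq : (r : ℝ) ≤ c * q := Nat.floor_le (by positivity)
  have hXbig : (X₀ : ℝ) ≤ X := by exact_mod_cast hX
  have hX1 : 64 / ε ^ 2 ≤ (X : ℝ) := by
    refine le_trans (Nat.le_ceil _) (le_trans ?_ hXbig)
    rw [hX₀]; push_cast
    have : (0 : ℝ) ≤ (⌈4 * ((M₀ : ℝ) + 2) / ε⌉₊ : ℝ) := by positivity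
    linarith
  have hX2 : 4 * ((M₀ : ℝ) + 2) / ε ≤ (X : ℝ) := by
    refine le_trans (Nat.le_ceil _) (le_trans ?_ hXbig)
    rw [hX₀]; push_cast
    have : (0 : ℝ) ≤ (⌈64 / ε ^ 2⌉₊ : ℝ) := by positivity
    linarith
  have h8q : 8 / ε ≤ q := by
    rw [hq]
    apply Real.le_sqrt_of_sq_le
    have : (8 / ε) ^ 2 = 64 / ε ^ 2 := by rw [div_pow]; norm_num
    rw [this]; exact hX1
  rw [div_le_iff₀ hε] at h8q hX2
  have e1 : ((R : ℝ) + 2) * (2 * r + 1) ≤ (q + 2) * (2 * (c * q) + 1) := by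
    apply mul_le_mul
    · linarith
    · linarith
    · positivity
    · positivity
  have e2 : (q + 2) * (2 * (c * q) + 1) = 2 * c * q ^ 2 + q + 4 * c * q + 2 := by ring
  have e3 : 8 * q ≤ ε * q ^ 2 := by nlinarith
  have e4 : c * q ^ 2 ≤ ε / 16 * q ^ 2 := mul_le_mul_of_nonneg_right hcε (by positivity)
  have e5 : c * q ≤ 1 / 16 * q := mul_le_mul_of_nonneg_right hc1 hq0
  rw [← hq2] at hX2 ⊢
  nlinarith

end Pool.Agent.H40CS
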