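import Pool.Agent.H40CS.Density

namespace Pool.Agent.H40CS

open Finset WittVector

/-- `D` is a cyclic difference set with parameters `(4 t + 3, 2 t + 1, t)`, whose order is
`t + 1`. -/
def HasDS (t : ℕ) : Prop :=
  ∃ D : Finset (ZMod (4 * t + 3)), D.card = 2 * t + 1 ∧
    ∀ x : ZMod (4 * t + 3), x ≠ 0 → ((D ×ˢ D).filter (fun p => p.1 - p.2 = x)).card = t

theorem ds_identity {n : ℕ} [NeZero n] {R : Type*} [CommRing R] [IsDomain R]
    {D : Finset (ZMod n)} {t : ℕ}
    (hD : ∀ x : ZMod n, x ≠ 0 → ((D ×ˢ D).filter (fun p => p.1 - p.2 = x)).card = t)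
    (ψ : AddChar (ZMod n) R) (hψ : ψ ≠ 1) :
    (∑ a ∈ D, ψ a) * (∑ a ∈ D, ψ (-a)) = (D.card : R) - t := by
  classical
  have h0 : ∑ x : ZMod n, ψ x = 0 := AddChar.sum_eq_zero_of_ne_one hψ
  have h2 : (∑ a ∈ D, ψ a) * (∑ a ∈ D, ψ (-a)) = ∑ p ∈ D ×ˢ D, ψ (p.1 - p.2) := by
    rw [sum_mul_sum, ← sum_product']
    apply sum_congr rfl
    intro p _
    rw [sub_eq_add_neg, AddChar.map_add_eq_mul]
  have h3 : ∑ p ∈ D ×ˢ D, ψ (p.1 - p.2) =
      ∑ x : ZMod n, (((D ×ˢ D).filter (fun p => p.1 - p.2 = x)).card : R) * ψ x := by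
    rw [← sum_fiberwise_of_maps_to (g := fun p : ZMod n × ZMod n => p.1 - p.2)
      (t := (univ : Finset (ZMod n))) (fun p _ => mem_univ _)]
    apply sum_congr rfl
    intro x _
    rw [sum_congr rfl (g := fun _ => ψ x) (fun p hp => by rw [(mem_filter.1 hp).2]),
      sum_const, nsmul_eq_mul]
  have hz : ((D ×ˢ D).filter (fun p : ZMod n × ZMod n => p.1 - p.2 = 0)).card = D.card := by
    have : (D ×ˢ D).filter (fun p : ZMod n × ZMod n => p.1 - p.2 = 0) = D.diag := by
      ext p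
      simp only [mem_filter, mem_product, mem_diag, sub_eq_zero]
      constructor
      · rintro ⟨⟨h1, _⟩, h4⟩; exact ⟨h1, h4⟩
      · rintro ⟨h1, h4⟩; exact ⟨⟨h1, h4 ▸ h1⟩, h4⟩
    rw [this, diag_card]
  rw [h2, h3, ← add_sum_erase univ _ (mem_univ (0 : ZMod n)), hz, AddChar.map_zero_eq_one,
    mul_one]
  have h4 : ∑ x ∈ univ.erase (0 : ZMod n),
      (((D ×ˢ D).filter (fun p => p.1 - p.2 = x)).card : R) * ψ x =
      (t : R) * ∑ x ∈ univ.erase (0 : ZMod n), ψ x := by
    rw [mul_sum]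
    apply sum_congr rfl
    intro x hx
    rw [hD x (ne_of_mem_erase hx)]
  rw [h4]
  rw [← add_sum_erase univ _ (mem_univ (0 : ZMod n)), AddChar.map_zero_eq_one] at h0
  linear_combination (t : R) * h0

/-- The self-conjugacy condition for cyclic Hadamard difference sets. -/
theorem local_ds (l w : ℕ) [Fact l.Prime] (hw : 2 ≤ w) (hwl : w ∣ l + 1) {t : ℕ}
    (hwt : w ∣ 4 * t + 3) (h : HasDS t) (hl : l ∣ t + 1) : l ^ 2 ∣ t + 1 := by
  obtain ⟨D, hDc, hD⟩ := h
  obtain ⟨z, hz, hz1⟩ := exists_root l w hw hwl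
  have : NeZero (4 * t + 3) := ⟨by omega⟩
  set Z : WittVector l (GaloisField l 2) := teichmuller l z with hZ
  have hZw : Z ^ w = 1 := by rw [hZ, ← map_pow, hz, map_one]
  have hZ1 : Z ≠ 1 := by
    intro hcon
    apply hz1
    have := congrArg (fun t : WittVector l (GaloisField l 2) => t.coeff 0) hcon
    simpa [hZ, teichmuller_coeff_zero] using this
  have hZn : Z ^ (4 * t + 3) = 1 := by
    obtain ⟨c, hc⟩ := hwt
    rw [hc, pow_mul, hZw, one_pow]
  have hZl : Z ^ (l + 1) = 1 := by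
    obtain ⟨c, hc⟩ := hwl
    rw [hc, pow_mul, hZw, one_pow]
  have hFZ : frobenius Z = Z ^ l := by
    rw [hZ, frobenius_eq_map_frobenius, map_teichmuller, frobenius_def, map_pow]
  set ψ : AddChar (ZMod (4 * t + 3)) (WittVector l (GaloisField l 2)) :=
    AddChar.zmodChar (4 * t + 3) hZn with hψ
  have hψa : ∀ a, ψ a = Z ^ a.val := fun a => AddChar.zmodChar_apply hZn a
  have hψ1 : ψ ≠ 1 := by
    intro hcon
    apply hZ1
    have h1 := AddChar.zmodChar_apply' hZn 1
    rw [← hψ, hcon] at h1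
    simpa using h1.symm
  have hneg : ∀ a, frobenius (ψ a) = ψ (-a) := by
    intro a
    have e1 : ψ a * ψ (-a) = 1 := by
      rw [← AddChar.map_add_eq_mul, add_neg_cancel, AddChar.map_zero_eq_one]
    have e2 : frobenius (ψ a) * ψ a = 1 := by
      rw [hψa, map_pow, hFZ, ← mul_pow, ← pow_succ, hZl, one_pow]
    exact left_inv_eq_right_inv e2 e1
  have h1 := ds_identity hD ψ hψ1
  have h2 : frobenius (∑ a ∈ D, ψ a) = ∑ a ∈ D, ψ (-a) := by
    rw [map_sum]
    exact sum_congr rfl fun a _ => hneg a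
  set α : WittVector l (GaloisField l 2) := ∑ a ∈ D, ψ a with hα
  have h3 : α * frobenius α = ((t + 1 : ℕ) : WittVector l (GaloisField l 2)) := by
    rw [h2, h1, hDc]
    push_cast
    ring
  have h4 : (constantCoeff α) * (constantCoeff α) ^ l = (0 : GaloisField l 2) := by
    have h5 := congrArg (fun t => (constantCoeff : WittVector l (GaloisField l 2) →+* _) t) h3
    simp only [map_mul, map_natCast] at h5
    have h6 : constantCoeff (frobenius α) = (constantCoeff α) ^ l := coeff_frobenius_charP l α 0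
    rw [h6] at h5
    rw [h5]
    exact (CharP.cast_eq_zero_iff (GaloisField l 2) l (t + 1)).2 hl
  have h5 : constantCoeff α = 0 := by
    rw [← pow_succ'] at h4
    exact pow_eq_zero_iff (Nat.succ_ne_zero l) |>.1 h4
  obtain ⟨y, hy⟩ := exists_mul_of_coeff_zero α h5
  have h6 : (((t + 1 : ℕ) : ℤ) : WittVector l (GaloisField l 2)) =
      (l : WittVector l (GaloisField l 2)) ^ 2 * (y * frobenius y) := by
    rw [Int.cast_natCast, ← h3, hy, map_mul, map_natCast]
    ring
  have h7 := int_dvd_of_witt _ _ h6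
  exact_mod_cast h7

theorem DZ_ds_dvd (w : ℕ) (hw : 2 ≤ w) : DZ (fun t => w ∣ 4 * t + 3 ∧ HasDS t) := by
  classical
  intro ε hε
  have : NeZero w := ⟨by omega⟩
  have hu : IsUnit (-1 : ZMod w) := isUnit_one.neg
  set S : ℕ → Finset ℕ := fun l => (range (l ^ 2)).filter (fun r => l ∣ r + 1 → l ^ 2 ∣ r + 1)
    with hS
  have hSc : ∀ l : ℕ, l.Prime → (l : ZMod w) = -1 →
      ((S l).card : ℝ) ≤ (fun l : ℕ => l ^ 2) l * (1 - 1 / (2 * l)) := by
    intro l hl _
    set E : Finset ℕ := (range (l - 1)).image (fun j => j * l + (l - 1)) with hE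
    have hEc : E.card = l - 1 := by
      rw [hE, card_image_of_injective, card_range]
      intro a b hab
      have : a * l = b * l := by simpa using hab
      exact Nat.eq_of_mul_eq_mul_right hl.pos this
    have hl2 := hl.two_le
    have hEs : E ⊆ range (l ^ 2) := by
      intro x hx
      rw [hE, mem_image] at hx
      obtain ⟨j, hj, rfl⟩ := hx
      rw [mem_range] at hj ⊢
      have h1 : (j + 1) * l ≤ l * l := Nat.mul_le_mul_right l (by omega)
      have h2 : l ^ 2 = l * l := sq l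
      have h3 : (j + 1) * l = j * l + l := by ring
      omega
    have hdis : Disjoint (S l) E := by
      rw [disjoint_left]
      intro x hx hxE
      have hx2 := (mem_filter.1 hx).2
      rw [hE, mem_image] at hxE
      obtain ⟨j, hj, rfl⟩ := hxE
      rw [mem_range] at hj
      have h1 : j * l + (l - 1) + 1 = (j + 1) * l := by
        have h3 : (j + 1) * l = j * l + l := by ring
        omega
      rw [h1] at hx2
      have h4 := hx2 (Dvd.intro_left _ rfl)
      have h5 : l * l ∣ (j + 1) * l := by rw [← sq]; exact h4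
      have h6 := Nat.dvd_of_mul_dvd_mul_right hl.pos h5
      have h7 := Nat.le_of_dvd (by omega) h6
      omega
    have h1 : (S l).card + (l - 1) ≤ l ^ 2 := by
      rw [← hEc, ← card_union_of_disjoint hdis]
      calc (S l ∪ E).card ≤ (range (l ^ 2)).card :=
            card_le_card (union_subset (filter_subset _ _) hEs)
        _ = l ^ 2 := card_range _
    have h2 : ((S l).card : ℝ) + (l - 1) ≤ (l : ℝ) ^ 2 := by
      have h3 : (((S l).card + (l - 1) : ℕ) : ℝ) ≤ ((l ^ 2 : ℕ) : ℝ) := by exact_mod_cast h1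
      push_cast [Nat.cast_sub (by omega : 1 ≤ l)] at h3
      exact h3
    have hl2' : (2 : ℝ) ≤ l := by exact_mod_cast hl2
    push_cast
    have h9 : (l : ℝ) ^ 2 * (1 - 1 / (2 * l)) = (l : ℝ) ^ 2 - l / 2 := by
      field_simp
    rw [h9]
    linarith
  obtain ⟨T, hT, X₀, hX₀⟩ := sieve hu (fun l => l ^ 2) S (fun l _ _ => ⟨2, rfl⟩) hSc ε hε
  refine ⟨X₀, fun X hX => le_trans ?_ (hX₀ X hX)⟩
  apply Nat.cast_le.2
  rw [ncard_eq]
  apply card_le_card
  intro t ht
  rw [mem_filter] at ht ⊢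
  refine ⟨ht.1, ?_⟩
  intro l hl
  have hlp := (hT l hl).1
  have : Fact l.Prime := ⟨hlp⟩
  have hdvd : w ∣ l + 1 := by
    rw [← ZMod.natCast_eq_zero_iff]
    push_cast
    rw [(hT l hl).2]; ring
  have hmod : ∀ e : ℕ, e ≤ 2 → (l ^ e ∣ t % l ^ 2 + 1 ↔ l ^ e ∣ t + 1) := by
    intro e he
    have h1 : t + 1 = l ^ 2 * (t / l ^ 2) + (t % l ^ 2 + 1) := by
      have := Nat.div_add_mod t (l ^ 2)
      omega
    have h2 : l ^ e ∣ l ^ 2 * (t / l ^ 2) := Dvd.dvd.mul_right (pow_dvd_pow l he) _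
    rw [h1]
    exact (Nat.dvd_add_right h2).symm
  refine mem_filter.2 ⟨mem_range.2 (Nat.mod_lt _ (pow_pos hlp.pos 2)), ?_⟩
  intro h
  have h1 : l ∣ t + 1 := by
    have := (hmod 1 (by norm_num)).1 (by simpa using h)
    simpa using this
  exact (hmod 2 le_rfl).2 (local_ds l w hw hdvd ht.2.1 ht.2.2 h1)

theorem DZ_HasDS : DZ HasDS := by
  classical
  intro ε hε
  set S : ℕ → Finset ℕ := fun l => (range l).filter (fun r => ¬ l ∣ 4 * r + 3) with hS
  have hper : ∀ l m : ℕ, l ∣ 4 * (m % l) + 3 ↔ l ∣ 4 * m + 3 := by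
    intro l m
    rw [← ZMod.natCast_eq_zero_iff, ← ZMod.natCast_eq_zero_iff]
    push_cast
    rw [ZMod.natCast_mod]
  have hSc : ∀ l : ℕ, l.Prime → (l : ZMod 2) = 1 →
      ((S l).card : ℝ) ≤ (fun l : ℕ => l) l * (1 - 1 / (2 * l)) := by
    intro l hl hl1
    have : Fact l.Prime := ⟨hl⟩
    have hodd : l % 2 = 1 := by
      have h1 : (l : ZMod 2) = ((1 : ℕ) : ZMod 2) := by rw [hl1]; simp
      rw [ZMod.natCast_eq_natCast_iff] at h1
      exact h1
    have h4 : (4 : ZMod l) ≠ 0 := by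
      intro h0
      have h1 : ((4 : ℕ) : ZMod l) = 0 := by simpa using h0
      rw [ZMod.natCast_eq_zero_iff] at h1
      have h2 : l ∣ 2 ^ 2 := by simpa using h1
      have h3 := (Nat.prime_dvd_prime_iff_eq hl Nat.prime_two).1 (hl.dvd_of_dvd_pow h2)
      omega
    have hne : NeZero l := ⟨hl.ne_zero⟩
    have hr : l ∣ 4 * ((-3 / 4 : ZMod l)).val + 3 := by
      rw [← ZMod.natCast_eq_zero_iff]
      push_cast
      rw [ZMod.natCast_zmod_val]
      field_simp
      ring
    have h1 : (S l).card < l := by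
      conv_rhs => rw [← card_range l]
      apply card_lt_card
      rw [ssubset_iff_of_subset (filter_subset _ _)]
      refine ⟨_, mem_range.2 (ZMod.val_lt (-3 / 4 : ZMod l)), ?_⟩
      rw [mem_filter]
      push Not
      intro _
      exact hr
    have h2 : ((S l).card : ℝ) + 1 ≤ l := by exact_mod_cast h1
    have hl0 : (0 : ℝ) < l := by exact_mod_cast hl.pos
    have h9 : (l : ℝ) * (1 - 1 / (2 * l)) = (l : ℝ) - 1 / 2 := by
      field_simp
    simp only
    rw [h9]
    linarith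
  obtain ⟨T, hT, X₀, hX₀⟩ := sieve (w := 2) (isUnit_one) (fun l => l) S
    (fun l _ _ => ⟨1, (pow_one l).symm⟩) hSc (ε / 2) (by linarith)
  have hDZ : DZ (fun t => ∃ l ∈ T, l ∣ 4 * t + 3 ∧ HasDS t) :=
    DZ.exists_finset T _ fun l hl => DZ_ds_dvd l (hT l hl).1.two_le
  obtain ⟨X₁, hX₁⟩ := hDZ (ε / 2) (by linarith)
  refine ⟨max X₀ X₁, fun X hX => ?_⟩
  have h1 := hX₀ X (le_trans (le_max_left _ _) hX)
  have h2 := hX₁ X (le_trans (le_max_right _ _) hX)
  rw [ncard_eq] at h2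
  rw [ncard_eq]
  have h3 : ((range X).filter HasDS).card ≤
      ((range X).filter (fun m => ∀ l ∈ T, m % l ∈ S l)).card +
      ((range X).filter (fun t => ∃ l ∈ T, l ∣ 4 * t + 3 ∧ HasDS t)).card := by
    refine le_trans (card_le_card ?_) (card_union_le _ _)
    intro m hm
    rw [mem_filter] at hm
    rw [mem_union, mem_filter, mem_filter]
    by_cases hex : ∃ l ∈ T, l ∣ 4 * m + 3
    · obtain ⟨l, hl, hld⟩ := hex
      exact Or.inr ⟨hm.1, l, hl, hld, hm.2⟩
    · push Not at hex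
      refine Or.inl ⟨hm.1, fun l hl => ?_⟩
      refine mem_filter.2 ⟨mem_range.2 (Nat.mod_lt _ (hT l hl).1.pos), ?_⟩
      rw [hper]
      exact hex l hl
  have h4 := (Nat.cast_le (α := ℝ)).2 h3
  push_cast at h4
  refine h4.trans ?_
  have h5 : ε * X = ε / 2 * X + ε / 2 * X := by ring
  rw [h5]
  exact add_le_add h1 h2

end Pool.Agent.H40CS
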