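import Mathlib

namespace Pool.Agent.H40CS

open Finset WittVector

noncomputable section

/-- Elements of Witt vectors with vanishing zeroth component are multiples of `p`. -/
theorem exists_mul_of_coeff_zero {p : ℕ} [Fact p.Prime] {k : Type*} [Field k] [CharP k p]
    [PerfectRing k p] (x : WittVector p k) (hx : x.coeff 0 = 0) :
    ∃ y : WittVector p k, x = (p : WittVector p k) * y := by
  have h1 : verschiebung (x.shift 1) = x.shift 0 := by
    apply verschiebung_shift
    intro i hi
    have : i = 0 := by omega
    rw [this]; exact hx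
  have h0 : x.shift 0 = x := by
    ext n
    rw [shift_coeff]
    simp
  rw [h0] at h1
  obtain ⟨z, hz⟩ := (frobenius_bijective p k).2 (x.shift 1)
  refine ⟨z, ?_⟩
  rw [mul_comm, ← verschiebung_frobenius, hz, h1]

/-- An integer divisible by `p ^ 2` in the Witt vectors is divisible by `p ^ 2`. -/
theorem int_dvd_of_witt {p : ℕ} [Fact p.Prime] {k : Type*} [Field k] [CharP k p]
    (a : ℤ) (y : WittVector p k) (h : (a : WittVector p k) = (p : WittVector p k) ^ 2 * y) :
    (p : ℤ) ^ 2 ∣ a := by
  have key : ∀ (b : ℤ) (z : WittVector p k), (b : WittVector p k) = (p : WittVector p k) * z →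
      (p : ℤ) ∣ b := by
    intro b z hb
    have h2 := congrArg (fun t => (constantCoeff : WittVector p k →+* k) t) hb
    simp only [map_intCast, map_mul, map_natCast] at h2
    rw [CharP.cast_eq_zero, zero_mul] at h2
    exact (CharP.intCast_eq_zero_iff k p b).1 h2
  obtain ⟨b, hb⟩ := key a ((p : WittVector p k) * y) (by rw [h]; ring)
  have hp0 : (p : WittVector p k) ≠ 0 := WittVector.p_nonzero p k
  have h3 : (b : WittVector p k) = (p : WittVector p k) * y := by
    apply mul_left_cancel₀ hp0
    rw [hb] at h
    push_cast at h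
    rw [h]; ring
  obtain ⟨c, hc⟩ := key b y h3
  exact ⟨c, by rw [hb, hc]; ring⟩

/-- An element fixed by the Frobenius map of a field of characteristic `p` is in the
prime field. -/
theorem exists_natCast_of_pow_eq {p : ℕ} [Fact p.Prime] {k : Type*} [Field k] [CharP k p]
    (x : k) (hx : x ^ p = x) : ∃ r : ℕ, r < p ∧ (r : k) = x := by
  classical
  by_contra hcon
  push Not at hcon
  have hp : p.Prime := Fact.out
  set S : Finset k := (range p).image (fun r : ℕ => (r : k)) with hS
  have hcard : S.card = p := by
    rw [hS, Finset.card_image_of_injOn, card_range]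
    intro a ha b hb hab
    have ha' : a < p := by simpa using ha
    have hb' : b < p := by simpa using hb
    have := (CharP.natCast_eq_natCast (R := k) p).1 hab
    unfold Nat.ModEq at this
    rwa [Nat.mod_eq_of_lt ha', Nat.mod_eq_of_lt hb'] at this
  have hxS : x ∉ S := by
    rw [hS, mem_image]
    rintro ⟨r, hr, hrx⟩
    exact hcon r (by simpa using hr) hrx
  set P : Polynomial k := Polynomial.X ^ p - Polynomial.X with hP
  have hP0 : P ≠ 0 := FiniteField.X_pow_card_sub_X_ne_zero k hp.one_lt
  have hdeg : P.natDegree = p := FiniteField.X_pow_card_sub_X_natDegree_eq k hp.one_lt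
  have hroots : insert x S ⊆ P.roots.toFinset := by
    intro y hy
    rw [Multiset.mem_toFinset, Polynomial.mem_roots hP0, Polynomial.IsRoot.def, hP]
    simp only [Polynomial.eval_sub, Polynomial.eval_pow, Polynomial.eval_X]
    rw [mem_insert] at hy
    rcases hy with rfl | hy
    · rw [hx, sub_self]
    · rw [hS, mem_image] at hy
      obtain ⟨r, _, rfl⟩ := hy
      have : ((r : k)) ^ p = (r : k) := by
        have h5 := map_natCast (frobenius k p) r
        rwa [frobenius_def] at h5
      rw [this, sub_self]
  have h1 := card_le_card hroots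
  rw [card_insert_of_notMem hxS, hcard] at h1
  have h2 : P.roots.toFinset.card ≤ p := by
    calc P.roots.toFinset.card ≤ Multiset.card P.roots := Multiset.toFinset_card_le _
      _ ≤ P.natDegree := Polynomial.card_roots' P
      _ = p := hdeg
  omega

/-- In the field with `l ^ 2` elements, where `w` divides `l + 1`, there is an element `z`
with `z ^ w = 1` and `z ≠ 1`. -/
theorem exists_root (l w : ℕ) [Fact l.Prime] (hw : 2 ≤ w) (hwl : w ∣ l + 1) :
    ∃ z : GaloisField l 2, z ^ w = 1 ∧ z ≠ 1 := by
  classical
  have : Fintype (GaloisField l 2) := Fintype.ofFinite _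
  have hl : l.Prime := Fact.out
  have hcard : Nat.card (GaloisField l 2) = l ^ 2 := GaloisField.card l 2 (by norm_num)
  obtain ⟨g, hg⟩ := IsCyclic.exists_generator (α := (GaloisField l 2)ˣ)
  have hgo : orderOf g = Nat.card (GaloisField l 2)ˣ := orderOf_eq_card_of_forall_mem_zpowers hg
  have hu : Nat.card (GaloisField l 2)ˣ = l ^ 2 - 1 := by
    rw [Nat.card_units, hcard]
  have hdv : w ∣ l ^ 2 - 1 := by
    have : l ^ 2 - 1 = (l + 1) * (l - 1) := by
      have := Nat.sq_sub_sq l 1
      simpa using this
    rw [this]
    exact Dvd.dvd.mul_right hwl _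
  obtain ⟨c, hc⟩ := hdv
  have hpos : 0 < l ^ 2 - 1 := by
    have := hl.two_le
    have : 4 ≤ l ^ 2 := by nlinarith
    omega
  have hc0 : 0 < c := by
    rcases Nat.eq_zero_or_pos c with h | h
    · rw [h, mul_zero] at hc; omega
    · exact h
  refine ⟨((g ^ c : (GaloisField l 2)ˣ) : GaloisField l 2), ?_, ?_⟩
  · rw [← Units.val_pow_eq_pow_val, ← pow_mul]
    have : g ^ (c * w) = 1 := by
      rw [mul_comm, ← hc, ← hu, ← hgo]
      exact pow_orderOf_eq_one g
    rw [this, Units.val_one]
  · intro h
    have h1 : g ^ c = 1 := Units.ext (by simpa using h)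
    have h2 := orderOf_dvd_of_pow_eq_one h1
    rw [hgo, hu, hc] at h2
    have h3 := Nat.le_of_dvd hc0 h2
    nlinarith

end

end Pool.Agent.H40CS
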