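import Mathlib

namespace Pool.Agent.H40CS

open Finset

/-- `A` is a Sidon set: the sums `a + b` with `a, b` in `A` (repetitions allowed) are pairwise
distinct up to the order of the summands. -/
def IsSidonSet {G : Type*} [Add G] (A : Finset G) : Prop :=
  ∀ a ∈ A, ∀ b ∈ A, ∀ c ∈ A, ∀ d ∈ A, a + b = c + d → (a = c ∧ b = d) ∨ (a = d ∧ b = c)

section

variable {n : ℕ} [NeZero n]

/-- The differences of distinct elements. -/
def diffs (A : Finset (ZMod n)) : Finset (ZMod n) := A.offDiag.image (fun p => p.1 - p.2)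

/-- The nonzero elements which are not differences. -/
def missing (A : Finset (ZMod n)) : Finset (ZMod n) :=
  univ.filter (fun x => x ≠ 0 ∧ x ∉ diffs A)

theorem diff_inj {A : Finset (ZMod n)} (hA : IsSidonSet A) :
    Set.InjOn (fun p : ZMod n × ZMod n => p.1 - p.2) (A.offDiag : Set (ZMod n × ZMod n)) := by
  rintro ⟨a, b⟩ hab ⟨c, d⟩ hcd h
  rw [mem_coe, mem_offDiag] at hab hcd
  obtain ⟨ha, hb, hne⟩ := hab
  obtain ⟨hc, hd, hne'⟩ := hcd
  simp only at ha hb hne hc hd hne' h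
  have h1 : a + d = c + b := by
    have : a - b + (b + d) = c - d + (b + d) := by rw [h]
    calc a + d = a - b + (b + d) := by ring
      _ = c - d + (b + d) := this
      _ = c + b := by ring
  rcases hA a ha d hd c hc b hb h1 with ⟨h2, h3⟩ | ⟨h2, h3⟩
  · rw [h2, h3]
  · exact absurd h2 hne

theorem zero_notMem_diffs (A : Finset (ZMod n)) : (0 : ZMod n) ∉ diffs A := by
  unfold diffs
  rw [mem_image]
  rintro ⟨⟨a, b⟩, hab, h⟩
  rw [mem_offDiag] at hab
  exact hab.2.2 (sub_eq_zero.1 h)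

theorem card_diffs {A : Finset (ZMod n)} (hA : IsSidonSet A) :
    (diffs A).card = A.card * A.card - A.card := by
  unfold diffs
  rw [card_image_of_injOn (diff_inj hA), offDiag_card]

theorem univ_split (A : Finset (ZMod n)) :
    (univ : Finset (ZMod n)) = insert 0 (diffs A ∪ missing A) := by
  ext x
  simp only [mem_univ, mem_insert, mem_union, missing, mem_filter, true_and, true_iff]
  by_cases h0 : x = 0
  · exact Or.inl h0
  · by_cases h1 : x ∈ diffs A
    · exact Or.inr (Or.inl h1)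
    · exact Or.inr (Or.inr ⟨h0, h1⟩)

theorem disj (A : Finset (ZMod n)) : Disjoint (diffs A) (missing A) := by
  rw [disjoint_left]
  intro x hx hx'
  exact (mem_filter.1 hx').2.2 hx

theorem zero_notMem (A : Finset (ZMod n)) : (0 : ZMod n) ∉ diffs A ∪ missing A := by
  rw [mem_union]
  rintro (h | h)
  · exact zero_notMem_diffs A h
  · exact (mem_filter.1 h).2.1 rfl

theorem card_missing {A : Finset (ZMod n)} (hA : IsSidonSet A) :
    n = 1 + ((A.card * A.card - A.card) + (missing A).card) := by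
  have h := congrArg Finset.card (univ_split A)
  rw [card_univ, ZMod.card, card_insert_of_notMem (zero_notMem A),
    card_union_of_disjoint (disj A), card_diffs hA] at h
  omega

theorem neg_mem_missing {A : Finset (ZMod n)} {x : ZMod n} (hx : x ∈ missing A) :
    -x ∈ missing A := by
  have h := (mem_filter.1 hx).2
  refine mem_filter.2 ⟨mem_univ _, by simpa using h.1, ?_⟩
  intro h2
  apply h.2
  unfold diffs at h2 ⊢
  rw [mem_image] at h2 ⊢
  obtain ⟨⟨a, b⟩, hab, hxx⟩ := h2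
  rw [mem_offDiag] at hab
  refine ⟨(b, a), mem_offDiag.2 ⟨hab.2.1, hab.1, Ne.symm hab.2.2⟩, ?_⟩
  simp only at hxx ⊢
  rw [← neg_eq_iff_eq_neg.2 hxx]
  ring

theorem char_identity {R : Type*} [CommRing R] [IsDomain R] {A : Finset (ZMod n)}
    (hA : IsSidonSet A) (ψ : AddChar (ZMod n) R) (hψ : ψ ≠ 1) :
    (∑ a ∈ A, ψ a) * (∑ a ∈ A, ψ (-a)) = (A.card : R) - 1 - ∑ x ∈ missing A, ψ x := by
  have h0 : ∑ x : ZMod n, ψ x = 0 := AddChar.sum_eq_zero_of_ne_one hψ
  rw [univ_split A, sum_insert (zero_notMem A), sum_union (disj A), AddChar.map_zero_eq_one] at h0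
  have h1 : ∑ x ∈ diffs A, ψ x = ∑ p ∈ A.offDiag, ψ (p.1 - p.2) := by
    unfold diffs
    rw [sum_image (diff_inj hA)]
  have h2 : (∑ a ∈ A, ψ a) * (∑ a ∈ A, ψ (-a)) = ∑ p ∈ A ×ˢ A, ψ (p.1 - p.2) := by
    rw [sum_mul_sum, ← sum_product']
    apply sum_congr rfl
    intro p _
    rw [sub_eq_add_neg, AddChar.map_add_eq_mul]
  have h3 : ∑ p ∈ A ×ˢ A, ψ (p.1 - p.2) =
      ∑ p ∈ A.diag, ψ (p.1 - p.2) + ∑ p ∈ A.offDiag, ψ (p.1 - p.2) := by
    rw [← sum_union (disjoint_diag_offDiag A), diag_union_offDiag]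
  have h4 : ∑ p ∈ A.diag, ψ (p.1 - p.2) = (A.card : R) := by
    rw [sum_diag]
    simp [AddChar.map_zero_eq_one]
  rw [h2, h3, h4, ← h1]
  linear_combination h0

end

end Pool.Agent.H40CS
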