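import Pool.Agent.H40CS.Local
import Pool.Agent.H40CS.Ring

namespace Pool.Agent.H40CS

open Finset WittVector

/-- The modulus `m ^ 2 - m + 1 + δ`. -/
def modN (δ m : ℕ) : ℕ := m * m - m + δ + 1

instance (δ m : ℕ) : NeZero (modN δ m) := ⟨Nat.succ_ne_zero _⟩

/-- Number of elements of `S` whose representative is congruent to `j` modulo `w`. -/
def ty (w : ℕ) {n : ℕ} (S : Finset (ZMod n)) (j : ℕ) : ℕ :=
  (S.filter (fun x => x.val % w = j)).card

/-- There is a Sidon set of `m` elements modulo `m ^ 2 - m + 1 + δ` whose missing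
differences have residues modulo `w` prescribed by `τ`. -/
def Has (w δ : ℕ) (τ : ℕ → ℕ) (m : ℕ) : Prop :=
  w ∣ modN δ m ∧ ∃ A : Finset (ZMod (modN δ m)), IsSidonSet A ∧ A.card = m ∧
    ∀ j < w, ty w (missing A) j = τ j

noncomputable section

theorem key_identity (l w : ℕ) [Fact l.Prime] (hw : 2 ≤ w) (hwl : w ∣ l + 1)
    (z : GaloisField l 2) (hz : z ^ w = 1) (hz1 : z ≠ 1) (δ : ℕ) (τ : ℕ → ℕ) (m : ℕ)
    (h : Has w δ τ m) :
    ∃ α : WittVector l (GaloisField l 2), α * frobenius α =
      (m : WittVector l (GaloisField l 2)) - 1 -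
        ∑ j ∈ range w, (τ j : WittVector l (GaloisField l 2)) * (teichmuller l z) ^ j := by
  obtain ⟨hdvd, A, hA, hAm, hty⟩ := h
  set Z : WittVector l (GaloisField l 2) := teichmuller l z with hZ
  have hZw : Z ^ w = 1 := by rw [hZ, ← map_pow, hz, map_one]
  have hZ1 : Z ≠ 1 := by
    intro hcon
    apply hz1
    have := congrArg (fun t : WittVector l (GaloisField l 2) => t.coeff 0) hcon
    simpa [hZ, teichmuller_coeff_zero] using this
  have hZn : Z ^ (modN δ m) = 1 := by
    obtain ⟨c, hc⟩ := hdvd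
    rw [hc, pow_mul, hZw, one_pow]
  have hZl : Z ^ (l + 1) = 1 := by
    obtain ⟨c, hc⟩ := hwl
    rw [hc, pow_mul, hZw, one_pow]
  have hFZ : frobenius Z = Z ^ l := by
    rw [hZ, frobenius_eq_map_frobenius, map_teichmuller, frobenius_def, map_pow]
  set ψ : AddChar (ZMod (modN δ m)) (WittVector l (GaloisField l 2)) :=
    AddChar.zmodChar (modN δ m) hZn with hψ
  have hψa : ∀ a, ψ a = Z ^ a.val := fun a => AddChar.zmodChar_apply hZn a
  have hψ1 : ψ ≠ 1 := by
    intro hcon
    apply hZ1
    have h1 := AddChar.zmodChar_apply' hZn 1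
    rw [← hψ, hcon] at h1
    simpa using h1.symm
  have hneg : ∀ a, frobenius (ψ a) = ψ (-a) := by
    intro a
    have e1 : ψ a * ψ (-a) = 1 := by
      rw [← AddChar.map_add_eq_mul, add_neg_cancel, AddChar.map_zero_eq_one]
    have e2 : frobenius (ψ a) * ψ a = 1 := by
      rw [hψa, map_pow, hFZ, ← mul_pow, ← pow_succ, hZl, one_pow]
    exact left_inv_eq_right_inv e2 e1
  refine ⟨∑ a ∈ A, ψ a, ?_⟩
  have h1 := char_identity hA ψ hψ1
  have h2 : frobenius (∑ a ∈ A, ψ a) = ∑ a ∈ A, ψ (-a) := by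
    rw [map_sum]
    exact sum_congr rfl fun a _ => hneg a
  have h3 : ∑ x ∈ missing A, ψ x = ∑ j ∈ range w, (τ j : WittVector l (GaloisField l 2)) * Z ^ j := by
    have hmaps : ∀ x ∈ missing A, x.val % w ∈ range w := fun x _ =>
      mem_range.2 (Nat.mod_lt _ (by omega))
    rw [← sum_fiberwise_of_maps_to hmaps]
    apply sum_congr rfl
    intro j hj
    have hj' : j < w := mem_range.1 hj
    have : ∀ x ∈ (missing A).filter (fun x => x.val % w = j), ψ x = Z ^ j := by
      intro x hx
      rw [hψa, pow_eq_pow_mod _ hZw, (mem_filter.1 hx).2]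
    rw [sum_congr rfl this, sum_const, nsmul_eq_mul]
    have h5 := hty j hj'
    unfold ty at h5
    rw [h5]
  rw [h2, h1, h3, hAm]

theorem local_main (l w δ : ℕ) [Fact l.Prime] (hw : 2 ≤ w) (hwl : w ∣ l + 1) (τ : ℕ → ℕ) :
    ∃ r < l, ∀ m m', Has w δ τ m → Has w δ τ m' → m % l = r → m' % l = r →
      (l : ℤ) ^ 2 ∣ (m : ℤ) - m' := by
  have hl : l.Prime := Fact.out
  by_cases hne : ∃ m, Has w δ τ m
  swap
  · push Not at hne
    exact ⟨0, hl.pos, fun m m' h => absurd h (hne m)⟩
  obtain ⟨m₀, hm₀⟩ := hne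
  obtain ⟨z, hz, hz1⟩ := exists_root l w hw hwl
  set c : WittVector l (GaloisField l 2) :=
    ∑ j ∈ range w, (τ j : WittVector l (GaloisField l 2)) * (teichmuller l z) ^ j with hc
  have key : ∀ m, Has w δ τ m → ∃ α : WittVector l (GaloisField l 2), α * frobenius α =
      (m : WittVector l (GaloisField l 2)) - 1 - c := fun m hm =>
    key_identity l w hw hwl z hz hz1 δ τ m hm
  have hcc : ∀ α : WittVector l (GaloisField l 2),
      constantCoeff (frobenius α) = (constantCoeff α) ^ l := fun α => coeff_frobenius_charP l α 0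
  have hcard : ∀ x : GaloisField l 2, x ^ (l ^ 2) = x := by
    intro x
    have : Fintype (GaloisField l 2) := Fintype.ofFinite _
    have h1 := FiniteField.pow_card x
    rw [← Nat.card_eq_fintype_card, GaloisField.card l 2 (by norm_num)] at h1
    exact h1
  obtain ⟨r, hr, hrc⟩ : ∃ r : ℕ, r < l ∧ (r : GaloisField l 2) = 1 + constantCoeff c := by
    apply exists_natCast_of_pow_eq
    obtain ⟨α, hα⟩ := key m₀ hm₀
    have h1 := congrArg (fun t => (constantCoeff : WittVector l (GaloisField l 2) →+* _) t) hα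
    simp only [map_mul, map_sub, map_natCast, map_one, hcc] at h1
    have h2 : 1 + constantCoeff c = (m₀ : GaloisField l 2) -
        constantCoeff α * constantCoeff α ^ l := by
      rw [h1]; ring
    rw [h2, sub_pow_char]
    congr 1
    · have h5 := map_natCast (_root_.frobenius (GaloisField l 2) l) m₀
      rwa [frobenius_def] at h5
    · rw [mul_pow, ← pow_mul, ← pow_two, hcard, mul_comm]
  refine ⟨r, hr, ?_⟩
  have step : ∀ m, Has w δ τ m → m % l = r → ∃ y : WittVector l (GaloisField l 2),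
      (m : WittVector l (GaloisField l 2)) - 1 - c = (l : WittVector l (GaloisField l 2)) ^ 2 * y := by
    intro m hm hmr
    obtain ⟨α, hα⟩ := key m hm
    have h1 := congrArg (fun t => (constantCoeff : WittVector l (GaloisField l 2) →+* _) t) hα
    simp only [map_mul, map_sub, map_natCast, map_one, hcc] at h1
    have h2 : (m : GaloisField l 2) = (r : GaloisField l 2) := by
      rw [CharP.natCast_eq_natCast (GaloisField l 2) l]
      unfold Nat.ModEq
      rw [hmr, Nat.mod_eq_of_lt hr]
    have h3 : constantCoeff α * constantCoeff α ^ l = 0 := by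
      rw [h1, h2, hrc]; ring
    have h4 : constantCoeff α = 0 := by
      rw [← pow_succ'] at h3
      exact pow_eq_zero_iff (Nat.succ_ne_zero l) |>.1 h3
    obtain ⟨y, hy⟩ := exists_mul_of_coeff_zero α h4
    refine ⟨y * frobenius y, ?_⟩
    rw [← hα, hy, map_mul, map_natCast]
    ring
  intro m m' hm hm' hr1 hr2
  obtain ⟨y, hy⟩ := step m hm hr1
  obtain ⟨y', hy'⟩ := step m' hm' hr2
  apply int_dvd_of_witt (k := GaloisField l 2) _ (y - y')
  push_cast
  linear_combination hy - hy'

end

end Pool.Agent.H40CS
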