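import Pool.Agent.H40CS.Neofield

namespace Pool.Agent.H40CS

open Finset WittVector

noncomputable section

/-- The multiplicative group of a neofield with commutative multiplication. -/
@[reducible]
def neoGroup {K : Type} {add mul : K → K → K} {zero : K} (h : IsPlanarNeofield add mul zero)
    (hcomm : ∀ a b, a ≠ zero → b ≠ zero → mul a b = mul b a) :
    CommGroup {x : K // x ≠ zero} :=
  let _ : Mul {x : K // x ≠ zero} := ⟨fun a b => ⟨mul a b, h.mul_ne a b a.2 b.2⟩⟩
  let _ : One {x : K // x ≠ zero} := ⟨⟨h.group.choose, h.group.choose_spec.1⟩⟩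
  let _ : Inv {x : K // x ≠ zero} :=
    ⟨fun a => ⟨(h.group.choose_spec.2.2 a a.2).choose,
      (h.group.choose_spec.2.2 a a.2).choose_spec.1⟩⟩
  { Group.ofLeftAxioms
      (fun a b c => Subtype.ext (h.assoc a b c a.2 b.2 c.2))
      (fun a => Subtype.ext (h.group.choose_spec.2.1 a a.2).1)
      (fun a => Subtype.ext (h.group.choose_spec.2.2 a a.2).choose_spec.2.2) with
    mul_comm := fun a b => Subtype.ext (hcomm a b a.2 b.2) }

theorem neofield_criterion {K : Type} [Finite K] {add mul : K → K → K} {zero : K}
    (h : IsPlanarNeofield add mul zero)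
    (hcomm : ∀ a b, a ≠ zero → b ≠ zero → mul a b = mul b a) {w l i : ℕ}
    (hw : w.Prime) (hw2 : w ≠ 2) (hl : l.Prime) (hwK : w ∣ Nat.card K - 1) (hi : i ≠ 0)
    (hwl : w ∣ l ^ i + 1) : Even ((Nat.card K).factorization l) := by
  classical
  have : Fintype K := Fintype.ofFinite K
  let G : Type := {x : K // x ≠ zero}
  let inst : CommGroup G := neoGroup h hcomm
  set e : K := ((1 : G) : K) with he
  have he0 : e ≠ zero := (1 : G).2
  have hmulG : ∀ a b : G, ((a * b : G) : K) = mul a b := fun a b => rfl
  have hone : ∀ a : K, a ≠ zero → mul e a = a ∧ mul a e = a := h.group.choose_spec.2.1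
  have hemul : ∀ a : K, mul e a = a := by
    intro a
    by_cases ha : a = zero
    · rw [ha, mul_zero' h]
    · exact (hone a ha).1
  have hcG : Fintype.card G + 1 = Fintype.card K := by
    have h1 : Fintype.card G = Fintype.card K - 1 := by
      have := Fintype.card_subtype_compl (fun x : K => x = zero)
      rw [Fintype.card_subtype_eq] at this
      exact this
    have h2 : 0 < Fintype.card K := Fintype.card_pos_iff.2 ⟨zero⟩
    omega
  set D : Finset (G × G) := univ.filter (fun d => (d.2 : K) = add d.1 e) with hD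
  have hmem : ∀ d : G × G, d ∈ D ↔ (d.2 : K) = add d.1 e := by
    intro d
    rw [hD, mem_filter]
    exact ⟨fun t => t.2, fun t => ⟨mem_univ _, t⟩⟩
  -- the number of elements of `D`
  have hDcard : D.card + 1 = Fintype.card G := by
    obtain ⟨y0, hy0, hy0u⟩ := h.right_div e zero
    have hy0ne : y0 ≠ zero := by
      intro h1
      rw [h1] at hy0
      have : add zero e = zero := hy0
      rw [(h.add_zero e).1] at this
      exact he0 this
    have h1 : D.card = (univ.filter (fun x : G => add x e ≠ zero)).card := by
      apply card_bij (fun d _ => d.1)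
      · intro d hd
        rw [hmem] at hd
        rw [mem_filter]
        refine ⟨mem_univ _, ?_⟩
        rw [← hd]
        exact d.2.2
      · rintro ⟨a, b⟩ hd ⟨a', b'⟩ hd' hab
        rw [hmem] at hd hd'
        simp only at hd hd' hab
        subst hab
        have : b = b' := Subtype.ext (hd.trans hd'.symm)
        rw [this]
      · intro x hx
        rw [mem_filter] at hx
        exact ⟨(x, ⟨add x e, hx.2⟩), (hmem _).2 rfl, rfl⟩
    have h2 : (univ.filter (fun x : G => ¬ (add x e ≠ zero))).card = 1 := by
      rw [card_eq_one]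
      refine ⟨⟨y0, hy0ne⟩, ?_⟩
      ext x
      rw [mem_filter, mem_singleton]
      constructor
      · rintro ⟨_, hx⟩
        push Not at hx
        exact Subtype.ext (hy0u x hx)
      · intro hx
        refine ⟨mem_univ _, ?_⟩
        rw [hx]
        push Not
        exact hy0
    have h3 := card_filter_add_card_filter_not (s := (univ : Finset G)) (fun x : G => add x e ≠ zero)
    rw [h2, card_univ] at h3
    rw [h1]
    exact h3
  -- the counting
  have hcount : ∀ α β : G, (α ≠ 1 ∨ β ≠ 1) →
      (D.filter (fun d => (α * d.1, β * d.2) ∈ D)).card =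
        if α ≠ 1 ∧ β ≠ 1 ∧ α ≠ β then 1 else 0 := by
    intro α β hαβ
    have hval : ∀ a b : G, (a : K) = b → a = b := fun a b hab => Subtype.ext hab
    have hchar : ∀ d : G × G, d ∈ D.filter (fun d => (α * d.1, β * d.2) ∈ D) ↔
        (d.2 : K) = add d.1 e ∧ mul β d.2 = add (mul α d.1) e := by
      intro d
      rw [mem_filter, hmem, hmem]
      exact Iff.rfl
    split_ifs with hcase
    · obtain ⟨ha, hb, hab⟩ := hcase
      have hβα : (β : K) ≠ α := fun t => hab (hval _ _ t).symm
      obtain ⟨x, hx, hxu⟩ := exists_unique_meet h hβα (β : K) e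
      have hx0 : x ≠ zero := by
        intro t
        rw [t, zero_mul' h, zero_mul' h, (h.add_zero _).1, (h.add_zero _).1] at hx
        exact hb (hval _ _ hx)
      have hβdist : ∀ x : K, mul (add x e) β = add (mul x β) β := by
        intro x
        rw [h.right_distrib, hemul]
      have hxe : add x e ≠ zero := by
        intro t
        have h1 : add (mul x α) e = zero := by
          rw [← hx, ← hβdist, t, zero_mul' h]
        have h2 : mul x α = x := add_right_cancel' h (h1.trans t.symm)
        have h3 : (⟨x, hx0⟩ : G) * α = ⟨x, hx0⟩ := Subtype.ext h2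
        exact ha (mul_eq_left.1 h3)
      rw [card_eq_one]
      refine ⟨((⟨x, hx0⟩ : G), (⟨add x e, hxe⟩ : G)), ?_⟩
      ext d
      rw [hchar, mem_singleton]
      constructor
      · rintro ⟨h1, h2⟩
        have h3 : add (mul d.1 β) β = add (mul d.1 α) e := by
          rw [← hβdist, ← h1, hcomm _ _ d.2.2 β.2, h2, hcomm _ _ α.2 d.1.2]
        have h4 : (d.1 : K) = x := hxu _ h3
        have h5 : d.1 = ⟨x, hx0⟩ := Subtype.ext h4
        have h6 : d.2 = ⟨add x e, hxe⟩ := Subtype.ext (by rw [h1, h4])
        exact Prod.ext h5 h6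
      · intro hd
        rw [hd]
        refine ⟨rfl, ?_⟩
        show mul β (add x e) = add (mul α x) e
        rw [hcomm _ _ β.2 hxe, hβdist, hx, hcomm _ _ α.2 hx0]
    · rw [card_eq_zero]
      apply eq_empty_of_forall_notMem
      intro d hd
      rw [hchar] at hd
      obtain ⟨h1, h2⟩ := hd
      by_cases ha : α = 1
      · have hb : β ≠ 1 := hαβ.resolve_left (fun t => t ha)
        apply hb
        have h3 : mul β d.2 = d.2 := by
          rw [h2, ha]
          have : mul ((1 : G) : K) (d.1 : K) = d.1 := hemul _
          rw [this, ← h1]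
        have h4 : β * d.2 = d.2 := Subtype.ext h3
        exact mul_eq_right.1 h4
      · by_cases hb : β = 1
        · apply ha
          have h3 : mul α d.1 = d.1 := by
            apply add_right_cancel' h (a := e)
            rw [← h2, hb, ← h1]
            exact hemul _
          have h4 : α * d.1 = d.1 := Subtype.ext h3
          exact mul_eq_right.1 h4
        · have hab : α = β := by
            by_contra hne
            exact hcase ⟨ha, hb, hne⟩
          apply hb
          have h3 : mul β d.2 = add (mul β d.1) (mul β e) := by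
            rw [h1, h.left_distrib]
          have h4 : mul β e = e := by
            apply add_left_cancel' h (a := mul β d.1)
            rw [← h3, h2, hab]
          have h5 : mul (β : K) e = β := (hone β β.2).2
          exact hval _ _ (h5.symm.trans h4)
  -- characters
  have : Fact l.Prime := ⟨hl⟩
  have : Fact w.Prime := ⟨hw⟩
  have hwG : w ∣ Nat.card (Additive G) := by
    have h1 : Nat.card (Additive G) = Nat.card K - 1 := by
      rw [Nat.card_eq_fintype_card, Nat.card_eq_fintype_card, ← hcG, Nat.add_sub_cancel]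
      exact Fintype.card_congr Additive.toMul
    rw [h1]; exact hwK
  obtain ⟨f, hf⟩ := exists_hom hw hwG
  obtain ⟨z, hz, hz1⟩ := exists_root' l w i hi hw.two_le hwl
  set Z : WittVector l (GaloisField l (2 * i)) := teichmuller l z with hZ
  have hZw : Z ^ w = 1 := by rw [hZ, ← map_pow, hz, map_one]
  have hZ1 : Z ≠ 1 := by
    intro hcon
    apply hz1
    have := congrArg (fun t : WittVector l (GaloisField l (2 * i)) => t.coeff 0) hcon
    simpa [hZ, teichmuller_coeff_zero] using this
  have hFZ : WittVector.frobenius Z = Z ^ l := by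
    rw [hZ, frobenius_eq_map_frobenius, map_teichmuller, frobenius_def, map_pow]
  have hσZ := iterate_frobenius_pow Z hFZ i
  set σ : WittVector l (GaloisField l (2 * i)) →+* WittVector l (GaloisField l (2 * i)) :=
    (WittVector.frobenius : WittVector l (GaloisField l (2 * i)) →+*
      WittVector l (GaloisField l (2 * i))) ^ i with hσd
  have hZo : orderOf Z = w := orderOf_eq_prime hZw hZ1
  set ψ : AddChar (Additive G) (WittVector l (GaloisField l (2 * i))) :=
    (AddChar.zmodChar w hZw).compAddMonoidHom f with hψ
  have hψa : ∀ a, ψ a = Z ^ (f a).val := fun a => AddChar.zmodChar_apply hZw (f a)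
  have hψ1' : ∀ a, ψ a = 1 → f a = 0 := by
    intro a h1
    rw [hψa] at h1
    have h2 := orderOf_dvd_of_pow_eq_one h1
    rw [hZo] at h2
    have h3 := Nat.eq_zero_of_dvd_of_lt h2 (ZMod.val_lt (f a))
    rwa [ZMod.val_eq_zero] at h3
  have hψ1 : ψ ≠ 1 := by
    intro hcon
    apply hf
    refine AddMonoidHom.ext fun a => ?_
    exact hψ1' a (by rw [hcon]; rfl)
  have hψψ1 : ψ * ψ ≠ 1 := by
    intro hcon
    apply hf
    refine AddMonoidHom.ext fun a => ?_
    have h1 : ψ a * ψ a = 1 := by
      have := DFunLike.congr_fun hcon a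
      exact this
    apply hψ1'
    have h2 : (ψ a) ^ w = 1 := by rw [hψa, ← pow_mul, mul_comm (f a).val w, pow_mul, hZw, one_pow]
    obtain ⟨c, hc⟩ := hw.odd_of_ne_two hw2
    rw [hc, pow_succ, pow_mul, sq, h1, one_pow, one_mul] at h2
    exact h2
  have hneg : ∀ a, σ (ψ a) = ψ (-a) := by
    intro a
    have e1 : ψ a * ψ (-a) = 1 := by
      rw [← AddChar.map_add_eq_mul, add_neg_cancel, AddChar.map_zero_eq_one]
    have e2 : σ (ψ a) * ψ a = 1 := by
      rw [hψa, map_pow, hσZ, ← mul_pow, ← pow_succ]
      obtain ⟨c, hc⟩ := hwl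
      rw [hc, pow_mul, hZw, one_pow, one_pow]
    exact left_inv_eq_right_inv e2 e1
  have hmain := dpds_identity D hDcard hcount (fun a : G => ψ (Additive.ofMul a))
    (fun a : G => ψ (-Additive.ofMul a)) (fun a b => AddChar.map_add_eq_mul ψ _ _)
    (fun a => by rw [← AddChar.map_add_eq_mul, add_neg_cancel, AddChar.map_zero_eq_one])
    (AddChar.map_zero_eq_one ψ)
    (by
      have h1 := AddChar.sum_eq_zero_of_ne_one hψ1
      rw [← Equiv.sum_comp (Additive.ofMul : G ≃ Additive G)] at h1
      exact h1)
    (by
      have h1 := AddChar.sum_eq_zero_of_ne_one hψψ1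
      rw [← Equiv.sum_comp (Additive.ofMul : G ≃ Additive G)] at h1
      exact h1)
  have hσX : σ (∑ d ∈ D, ψ (Additive.ofMul d.1) * ψ (Additive.ofMul d.2)) =
      ∑ d ∈ D, ψ (-Additive.ofMul d.1) * ψ (-Additive.ofMul d.2) := by
    rw [map_sum]
    apply sum_congr rfl
    intro d _
    rw [map_mul, hneg, hneg]
  have hn0 : Nat.card K ≠ 0 := by
    rw [Nat.card_eq_fintype_card, ← hcG]
    omega
  apply even_factorization σ (∑ d ∈ D, ψ (Additive.ofMul d.1) * ψ (Additive.ofMul d.2))
    (Nat.card K) hn0
  rw [hσX, hmain, Nat.card_eq_fintype_card, ← hcG]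
  push_cast
  rfl

end

end Pool.Agent.H40CS
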