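import Pool.Agent.H40CS.NeoMain

/-!
# The projective plane of a planar neofield
-/

set_option autoImplicit false

namespace Pool.Agent.H40CS

open Configuration

/-- The points (and the lines) of the projective plane: pairs, slopes, and one more. -/
inductive Pt (K : Type) : Type
  | aff : K → K → Pt K
  | slope : K → Pt K
  | top : Pt K

/-- The lines. -/
inductive Ln (K : Type) : Type
  | gen : K → K → Ln K
  | vert : K → Ln K
  | inf : Ln K

/-- The incidence. -/
def Inc {K : Type} (add mul : K → K → K) : Pt K → Ln K → Prop
  | .aff x y, .gen m k => y = add (mul x m) k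
  | .aff x _, .vert a => x = a
  | .aff _ _, .inf => False
  | .slope s, .gen m _ => s = m
  | .slope _, .vert _ => False
  | .slope _, .inf => True
  | .top, .gen _ _ => False
  | .top, .vert _ => True
  | .top, .inf => True

/-- The equivalence of the points with a sum type. -/
def ptEquiv (K : Type) : Pt K ≃ (K × K) ⊕ (K ⊕ Unit) where
  toFun
    | .aff x y => .inl (x, y)
    | .slope s => .inr (.inl s)
    | .top => .inr (.inr ())
  invFun
    | .inl p => .aff p.1 p.2
    | .inr (.inl s) => .slope s
    | .inr (.inr _) => .top
  left_inv p := by cases p <;> rfl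
  right_inv p := by rcases p with p | p | p <;> rfl

/-- The equivalence of the lines with a sum type. -/
def lnEquiv (K : Type) : Ln K ≃ (K × K) ⊕ (K ⊕ Unit) where
  toFun
    | .gen x y => .inl (x, y)
    | .vert s => .inr (.inl s)
    | .inf => .inr (.inr ())
  invFun
    | .inl p => .gen p.1 p.2
    | .inr (.inl s) => .vert s
    | .inr (.inr _) => .inf
  left_inv p := by cases p <;> rfl
  right_inv p := by rcases p with p | p | p <;> rfl

section

variable {K : Type} {add mul : K → K → K} {zero : K}

theorem join_ex (h : IsPlanarNeofield add mul zero) (p q : Pt K) :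
    ∃ l : Ln K, Inc add mul p l ∧ Inc add mul q l := by
  have hline : ∀ x y s : K, ∃ k, y = add (mul x s) k := by
    intro x y s
    obtain ⟨k, hk, _⟩ := h.left_div (mul x s) y
    exact ⟨k, hk.symm⟩
  cases p with
  | aff x y =>
    cases q with
    | aff x' y' =>
      by_cases hne : ((x, y) : K × K) = (x', y')
      · rw [Prod.mk.injEq] at hne
        exact ⟨.vert x, rfl, hne.1.symm⟩
      · obtain ⟨l, ⟨hl, h1, h2⟩, _⟩ := h.join (x, y) (x', y') hne
        rcases hl with ⟨m, k, rfl⟩ | ⟨a, rfl⟩
        · exact ⟨.gen m k, h1, h2⟩
        · exact ⟨.vert a, h1, h2⟩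
    | slope s =>
      obtain ⟨k, hk⟩ := hline x y s
      exact ⟨.gen s k, hk, rfl⟩
    | top => exact ⟨.vert x, rfl, trivial⟩
  | slope s =>
    cases q with
    | aff x y =>
      obtain ⟨k, hk⟩ := hline x y s
      exact ⟨.gen s k, rfl, hk⟩
    | slope s' => exact ⟨.inf, trivial, trivial⟩
    | top => exact ⟨.inf, trivial, trivial⟩
  | top =>
    cases q with
    | aff x y => exact ⟨.vert x, trivial, rfl⟩
    | slope s' => exact ⟨.inf, trivial, trivial⟩
    | top => exact ⟨.inf, trivial, trivial⟩

theorem meet_ex (h : IsPlanarNeofield add mul zero) (l l' : Ln K) :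
    ∃ p : Pt K, Inc add mul p l ∧ Inc add mul p l' := by
  cases l with
  | gen m k =>
    cases l' with
    | gen m' k' =>
      by_cases hm : m = m'
      · exact ⟨.slope m, rfl, hm⟩
      · obtain ⟨x, hx, _⟩ := exists_unique_meet h hm k k'
        exact ⟨.aff x (add (mul x m) k), rfl, hx⟩
    | vert a => exact ⟨.aff a (add (mul a m) k), rfl, rfl⟩
    | inf => exact ⟨.slope m, rfl, trivial⟩
  | vert a =>
    cases l' with
    | gen m k => exact ⟨.aff a (add (mul a m) k), rfl, rfl⟩
    | vert a' => exact ⟨.top, trivial, trivial⟩
    | inf => exact ⟨.top, trivial, trivial⟩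
  | inf =>
    cases l' with
    | gen m k => exact ⟨.slope m, trivial, rfl⟩
    | vert a' => exact ⟨.top, trivial, trivial⟩
    | inf => exact ⟨.top, trivial, trivial⟩

theorem line_unique (h : IsPlanarNeofield add mul zero) {p q : Pt K} (hpq : p ≠ q) {l l' : Ln K}
    (h1 : Inc add mul p l) (h2 : Inc add mul q l) (h3 : Inc add mul p l')
    (h4 : Inc add mul q l') : l = l' := by
  obtain ⟨e, he0, he, -⟩ := h.group
  cases p with
  | aff x y =>
    cases q with
    | aff x' y' =>
      have hne : ((x, y) : K × K) ≠ (x', y') := by
        intro h5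
        rw [Prod.mk.injEq] at h5
        exact hpq (by rw [h5.1, h5.2])
      have key : ∀ t : Ln K, Inc add mul (.aff x y) t → Inc add mul (.aff x' y') t →
          ∃ s : Set (K × K), (IsNeoLine add mul s ∧ (x, y) ∈ s ∧ (x', y') ∈ s) ∧
            ((∃ m k, t = .gen m k ∧ s = {p : K × K | p.2 = add (mul p.1 m) k}) ∨
              ∃ a, t = .vert a ∧ s = {p : K × K | p.1 = a}) := by
        intro t ht ht'
        cases t with
        | gen m k =>
          exact ⟨{p : K × K | p.2 = add (mul p.1 m) k}, ⟨Or.inl ⟨m, k, rfl⟩, ht, ht'⟩,
            Or.inl ⟨m, k, rfl, rfl⟩⟩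
        | vert a => exact ⟨{p : K × K | p.1 = a}, ⟨Or.inr ⟨a, rfl⟩, ht, ht'⟩, Or.inr ⟨a, rfl, rfl⟩⟩
        | inf => exact ht.elim
      obtain ⟨s, hs, hs'⟩ := key l h1 h2
      obtain ⟨t, ht, ht'⟩ := key l' h3 h4
      have hst : s = t := by
        obtain ⟨u, _, hu⟩ := h.join (x, y) (x', y') hne
        exact (hu s hs).trans (hu t ht).symm
      have hvg : ∀ m k a : K, {p : K × K | p.2 = add (mul p.1 m) k} ≠ {p : K × K | p.1 = a} := by
        intro m k a h5
        -- the vertical line contains two points with the same first coordinate
        have h6 : ((a, zero) : K × K) ∈ {p : K × K | p.2 = add (mul p.1 m) k} := by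
          rw [h5]; rfl
        have h7 : ((a, e) : K × K) ∈ {p : K × K | p.2 = add (mul p.1 m) k} := by
          rw [h5]; rfl
        have h8 : zero = add (mul a m) k := h6
        have h9 : e = add (mul a m) k := h7
        exact he0 (h9.trans h8.symm)
      rcases hs' with ⟨m, k, rfl, hs'⟩ | ⟨a, rfl, hs'⟩ <;>
        rcases ht' with ⟨m', k', rfl, ht'⟩ | ⟨a', rfl, ht'⟩
      · obtain ⟨h5, h6⟩ := line_inj h (hs'.symm.trans (hst.trans ht'))
        rw [h5, h6]
      · exact absurd (hs'.symm.trans (hst.trans ht')) (hvg _ _ _)
      · exact absurd (ht'.symm.trans (hst.symm.trans hs')) (hvg _ _ _)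
      · have h5 : ((a, zero) : K × K) ∈ {p : K × K | p.1 = a'} := by
          rw [← ht', ← hst, hs']; rfl
        have h6 : a = a' := h5
        rw [h6]
    | slope s =>
      cases l with
      | gen m k =>
        cases l' with
        | gen m' k' =>
          have e1 : s = m := h2
          have e2 : s = m' := h4
          subst e1
          subst e2
          have e3 : y = add (mul x s) k := h1
          have e4 : y = add (mul x s) k' := h3
          rw [add_left_cancel' h (e3.symm.trans e4)]
        | vert a => exact h4.elim
        | inf => exact h3.elim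
      | vert a => exact h2.elim
      | inf => exact h1.elim
    | top =>
      cases l with
      | gen m k => exact h2.elim
      | vert a =>
        cases l' with
        | gen m k => exact h4.elim
        | vert a' =>
          have e1 : x = a := h1
          have e2 : x = a' := h3
          rw [← e1, ← e2]
        | inf => exact h3.elim
      | inf => exact h1.elim
  | slope s =>
    cases q with
    | aff x y =>
      cases l with
      | gen m k =>
        cases l' with
        | gen m' k' =>
          have e1 : s = m := h1
          have e2 : s = m' := h3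
          subst e1
          subst e2
          have e3 : y = add (mul x s) k := h2
          have e4 : y = add (mul x s) k' := h4
          rw [add_left_cancel' h (e3.symm.trans e4)]
        | vert a => exact h3.elim
        | inf => exact h4.elim
      | vert a => exact h1.elim
      | inf => exact h2.elim
    | slope s' =>
      have hne : s ≠ s' := fun h5 => hpq (by rw [h5])
      have key : ∀ t : Ln K, Inc add mul (.slope s) t → Inc add mul (.slope s') t → t = .inf := by
        intro t ht ht'
        cases t with
        | gen m k =>
          have e1 : s = m := ht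
          have e2 : s' = m := ht'
          exact absurd (e1.trans e2.symm) hne
        | vert a => exact ht.elim
        | inf => rfl
      rw [key l h1 h2, key l' h3 h4]
    | top =>
      have key : ∀ t : Ln K, Inc add mul (.slope s) t → Inc add mul .top t → t = .inf := by
        intro t ht ht'
        cases t with
        | gen m k => exact ht'.elim
        | vert a => exact ht.elim
        | inf => rfl
      rw [key l h1 h2, key l' h3 h4]
  | top =>
    cases q with
    | aff x y =>
      cases l with
      | gen m k => exact h1.elim
      | vert a =>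
        cases l' with
        | gen m k => exact h3.elim
        | vert a' =>
          have e1 : x = a := h2
          have e2 : x = a' := h4
          rw [← e1, ← e2]
        | inf => exact h4.elim
      | inf => exact h2.elim
    | slope s =>
      have key : ∀ t : Ln K, Inc add mul (.slope s) t → Inc add mul .top t → t = .inf := by
        intro t ht ht'
        cases t with
        | gen m k => exact ht'.elim
        | vert a => exact ht.elim
        | inf => rfl
      rw [key l h2 h1, key l' h4 h3]
    | top => exact absurd rfl hpq

/-- The membership. -/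
@[instance_reducible] def memb (add mul : K → K → K) : Membership (Pt K) (Ln K) := ⟨fun l p => Inc add mul p l⟩

/-- The projective plane. -/
@[instance_reducible] noncomputable def plane (h : IsPlanarNeofield add mul zero) :
    @ProjectivePlane (Pt K) (Ln K) (memb add mul) :=
  letI := memb add mul
  { exists_point := by
      intro l
      cases l with
      | gen m k => exact ⟨.top, fun t => t⟩
      | vert a => exact ⟨.slope zero, fun t => t⟩
      | inf => exact ⟨.aff zero zero, fun t => t⟩
    exists_line := by
      intro p
      obtain ⟨e, he0, he, -⟩ := h.group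
      cases p with
      | aff x y => exact ⟨.inf, fun t => t⟩
      | slope s => exact ⟨.vert zero, fun t => t⟩
      | top => exact ⟨.gen zero zero, fun t => t⟩
    eq_or_eq := by
      intro p q l l' h1 h2 h3 h4
      by_cases hpq : p = q
      · exact Or.inl hpq
      · exact Or.inr (line_unique h hpq h1 h2 h3 h4)
    mkPoint := fun {l l'} _ => (meet_ex h l l').choose
    mkPoint_ax := fun {l l'} _ => (meet_ex h l l').choose_spec
    mkLine := fun {p q} _ => (join_ex h p q).choose
    mkLine_ax := fun {p q} _ => (join_ex h p q).choose_spec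
    exists_config := by
      obtain ⟨e, he0, he, -⟩ := h.group
      exact ⟨.aff zero zero, .top, .slope zero, .gen e zero, .inf, .vert e, fun t => t,
        fun t => he0 t.symm, fun t => t, trivial, trivial, fun t => he0 t.symm, trivial,
        fun t => t⟩ }

/-- A map on the points. -/
def actPt (f1 f2 f3 : K → K) : Pt K → Pt K
  | .aff x y => .aff (f1 x) (f2 y)
  | .slope s => .slope (f3 s)
  | .top => .top

/-- A map on the lines. -/
def actLn (f1 f2 f3 : K → K) : Ln K → Ln K
  | .gen m k => .gen (f3 m) (f2 k)
  | .vert a => .vert (f1 a)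
  | .inf => .inf

theorem inc_act {f1 f2 f3 : K → K} (i1 : Function.Injective f1) (i2 : Function.Injective f2)
    (i3 : Function.Injective f3) (hm : ∀ x m, mul (f1 x) (f3 m) = f2 (mul x m))
    (ha : ∀ u v, f2 (add u v) = add (f2 u) (f2 v)) (p : Pt K) (l : Ln K) :
    Inc add mul (actPt f1 f2 f3 p) (actLn f1 f2 f3 l) ↔ Inc add mul p l := by
  cases p with
  | aff x y =>
    cases l with
    | gen m k =>
      show f2 y = add (mul (f1 x) (f3 m)) (f2 k) ↔ y = add (mul x m) k
      rw [hm, ← ha]
      exact i2.eq_iff
    | vert a => exact i1.eq_iff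
    | inf => exact Iff.rfl
  | slope s =>
    cases l with
    | gen m k => exact i3.eq_iff
    | vert a => exact Iff.rfl
    | inf => exact Iff.rfl
  | top =>
    cases l with
    | gen m k => exact Iff.rfl
    | vert a => exact Iff.rfl
    | inf => exact Iff.rfl

/-- The plane of a neofield with commutative multiplication has a large abelian group. -/
theorem neofield_plane {K : Type} [Finite K] {add mul : K → K → K} {zero : K}
    (h : IsPlanarNeofield add mul zero)
    (hcomm : ∀ a b, a ≠ zero → b ≠ zero → mul a b = mul b a) (h6 : 6 ≤ Nat.card K) :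
    ∃ (P L : Type) (_ : Finite P) (_ : Finite L) (_ : Membership P L)
      (_ : ProjectivePlane P L) (G : Type) (_ : CommGroup G) (_ : Finite G) (_ : MulAction G P)
      (_ : MulAction G L) (x : P),
      ProjectivePlane.order P L = Nat.card K ∧
        (∀ (g : G) (p : P) (l : L), g • p ∈ g • l ↔ p ∈ l) ∧
        (∀ g : G, (∀ p : P, g • p = p) → g = 1) ∧
          Nat.card P < 2 * Nat.card (MulAction.orbit G x) := by
  classical
  have : Fintype K := Fintype.ofFinite K
  let G : Type := {x : K // x ≠ zero}
  let inst : CommGroup G := neoGroup h hcomm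
  set e : K := ((1 : G) : K) with he
  have hmulG : ∀ a b : G, ((a * b : G) : K) = mul a b := fun a b => rfl
  have hone : ∀ a : K, a ≠ zero → mul e a = a ∧ mul a e = a := h.group.choose_spec.2.1
  have hemul : ∀ a : K, mul e a = a := by
    intro a
    by_cases ha : a = zero
    · rw [ha, mul_zero' h]
    · exact (hone a ha).1
  have hassoc : ∀ (a b : G) (x : K), mul (mul a b) x = mul a (mul b x) := by
    intro a b x
    by_cases hx : x = zero
    · rw [hx, mul_zero' h, mul_zero' h, mul_zero' h]
    · exact h.assoc a b x a.2 b.2 hx
  let actK : MulAction G K :=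
    { smul := fun a x => mul a x
      one_smul := hemul
      mul_smul := fun a b x => hassoc a b x }
  have hsm : ∀ (a : G) (x : K), a • x = mul a x := fun _ _ => rfl
  -- the action on points and on lines
  let actP : MulAction (G × G) (Pt K) :=
    { smul := fun g p => actPt (g.1 • ·) (g.2 • ·) ((g.2 * g.1⁻¹) • ·) p
      one_smul := by
        intro p
        cases p with
        | aff x y =>
          show Pt.aff ((1 : G) • x) ((1 : G) • y) = _
          rw [one_smul, one_smul]
        | slope s =>
          show Pt.slope (((1 : G) * (1 : G)⁻¹) • s) = _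
          rw [inv_one, mul_one, one_smul]
        | top => rfl
      mul_smul := by
        rintro ⟨a, b⟩ ⟨a', b'⟩ p
        cases p with
        | aff x y =>
          show Pt.aff ((a * a') • x) ((b * b') • y) = Pt.aff (a • a' • x) (b • b' • y)
          rw [mul_smul, mul_smul]
        | slope s =>
          show Pt.slope (((b * b') * (a * a')⁻¹) • s) = Pt.slope ((b * a⁻¹) • (b' * a'⁻¹) • s)
          rw [← mul_smul, mul_inv, mul_mul_mul_comm]
        | top => rfl }
  let actL : MulAction (G × G) (Ln K) :=
    { smul := fun g p => actLn (g.1 • ·) (g.2 • ·) ((g.2 * g.1⁻¹) • ·) p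
      one_smul := by
        intro p
        cases p with
        | gen x y =>
          show Ln.gen (((1 : G) * (1 : G)⁻¹) • x) ((1 : G) • y) = _
          rw [inv_one, mul_one, one_smul, one_smul]
        | vert s =>
          show Ln.vert ((1 : G) • s) = _
          rw [one_smul]
        | inf => rfl
      mul_smul := by
        rintro ⟨a, b⟩ ⟨a', b'⟩ p
        cases p with
        | gen x y =>
          show Ln.gen (((b * b') * (a * a')⁻¹) • x) ((b * b') • y) =
            Ln.gen ((b * a⁻¹) • (b' * a'⁻¹) • x) (b • b' • y)
          rw [← mul_smul, ← mul_smul, mul_inv, mul_mul_mul_comm]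
        | vert s =>
          show Ln.vert ((a * a') • s) = Ln.vert (a • a' • s)
          rw [mul_smul]
        | inf => rfl }
  let _ := memb (K := K) add mul
  let _ := plane h
  have hfP : Finite (Pt K) := Finite.of_equiv _ (ptEquiv K).symm
  have hfL : Finite (Ln K) := Finite.of_equiv _ (lnEquiv K).symm
  have hcardP : Nat.card (Pt K) = Nat.card K ^ 2 + Nat.card K + 1 := by
    have hU : Nat.card Unit = 1 := by simp
    rw [Nat.card_congr (ptEquiv K), Nat.card_sum, Nat.card_sum, Nat.card_prod, hU]
    ring
  have hcardG : Nat.card G + 1 = Nat.card K := by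
    rw [Nat.card_eq_fintype_card, Nat.card_eq_fintype_card]
    have h1 : Fintype.card G = Fintype.card K - 1 := by
      have := Fintype.card_subtype_compl (fun x : K => x = zero)
      rw [Fintype.card_subtype_eq] at this
      exact this
    have h2 : 0 < Fintype.card K := Fintype.card_pos_iff.2 ⟨zero⟩
    omega
  refine ⟨Pt K, Ln K, hfP, hfL, inferInstance, inferInstance, G × G, inferInstance,
    inferInstance, actP, actL, .aff e e, ?_, ?_, ?_, ?_⟩
  · have : Fintype (Pt K) := Fintype.ofFinite _
    have h1 := ProjectivePlane.card_points (Pt K) (Ln K)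
    rw [← Nat.card_eq_fintype_card, hcardP] at h1
    nlinarith
  · rintro ⟨a, b⟩ p l
    apply inc_act (f1 := (a • ·)) (f2 := (b • ·)) (f3 := ((b * a⁻¹) • ·))
    · exact MulAction.injective a
    · exact MulAction.injective b
    · exact MulAction.injective (b * a⁻¹)
    · intro x m
      show mul (mul a x) (mul ((b * a⁻¹ : G) : K) m) = mul b (mul x m)
      by_cases hx : x = zero
      · rw [hx, mul_zero' h, zero_mul' h, zero_mul' h, mul_zero' h]
      by_cases hm : m = zero
      · rw [hm, mul_zero' h, mul_zero' h, mul_zero' h, mul_zero' h]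
      have h1 : ((a * ⟨x, hx⟩) * ((b * a⁻¹) * ⟨m, hm⟩) : G) = b * (⟨x, hx⟩ * ⟨m, hm⟩) := by
        rw [mul_comm b a⁻¹, mul_assoc a⁻¹, mul_comm a, mul_assoc, mul_inv_cancel_left,
          mul_left_comm]
      exact congrArg (fun t : G => (t : K)) h1
    · intro u v
      exact h.left_distrib u v b
  · rintro ⟨a, b⟩ hfix
    have h1 : Pt.aff (a • e) (b • e) = Pt.aff e e := hfix (.aff e e)
    have h2 : a • e = e ∧ b • e = e := by
      injection h1 with h3 h4
      exact ⟨h3, h4⟩
    have h3 : a = 1 := Subtype.ext ((hone a a.2).2.symm.trans h2.1)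
    have h4 : b = 1 := Subtype.ext ((hone b b.2).2.symm.trans h2.2)
    rw [h3, h4]
    rfl
  · have hinj : Function.Injective
        (fun g : G × G => (⟨g • (Pt.aff e e : Pt K), MulAction.mem_orbit _ g⟩ :
          MulAction.orbit (G × G) (Pt.aff e e : Pt K))) := by
      rintro ⟨a, b⟩ ⟨a', b'⟩ hab
      have h1 : Pt.aff (a • e) (b • e) = Pt.aff (a' • e) (b' • e) := congrArg Subtype.val hab
      have h2 : a • e = a' • e ∧ b • e = b' • e := by
        injection h1 with h3 h4
        exact ⟨h3, h4⟩
      have h3 : a = a' := Subtype.ext (((hone a a.2).2.symm.trans h2.1).trans (hone a' a'.2).2)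
      have h4 : b = b' := Subtype.ext (((hone b b.2).2.symm.trans h2.2).trans (hone b' b'.2).2)
      rw [h3, h4]
    have h1 := Nat.card_le_card_of_injective _ hinj
    rw [Nat.card_prod] at h1
    rw [hcardP, ← hcardG]
    rw [← hcardG] at h6
    nlinarith

end

end Pool.Agent.H40CS
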