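import Pool.Agent.H40CS.Dpds

namespace Pool.Agent.H40CS

open Finset WittVector

/-- The lines `y = x m + k` and `x = a`. -/
def IsNeoLine {K : Type} (add mul : K → K → K) (L : Set (K × K)) : Prop :=
  (∃ m k : K, L = {p : K × K | p.2 = add (mul p.1 m) k}) ∨ ∃ a : K, L = {p : K × K | p.1 = a}

/-- A planar neofield: `(K, add)` is a loop with identity `zero`, the nonzero elements form a
group under `mul`, both distributive laws hold, and the lines form an affine plane. -/
structure IsPlanarNeofield {K : Type} (add mul : K → K → K) (zero : K) : Prop where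
  add_zero : ∀ a, add zero a = a ∧ add a zero = a
  left_div : ∀ a b, ∃! x, add a x = b
  right_div : ∀ a b, ∃! y, add y a = b
  mul_ne : ∀ a b, a ≠ zero → b ≠ zero → mul a b ≠ zero
  assoc : ∀ a b c, a ≠ zero → b ≠ zero → c ≠ zero → mul (mul a b) c = mul a (mul b c)
  group : ∃ e, e ≠ zero ∧ (∀ a, a ≠ zero → mul e a = a ∧ mul a e = a) ∧
    ∀ a, a ≠ zero → ∃ b, b ≠ zero ∧ mul a b = e ∧ mul b a = e
  right_distrib : ∀ a b c, mul (add a b) c = add (mul a c) (mul b c)
  left_distrib : ∀ a b c, mul c (add a b) = add (mul c a) (mul c b)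
  join : ∀ P Q : K × K, P ≠ Q → ∃! L : Set (K × K), IsNeoLine add mul L ∧ P ∈ L ∧ Q ∈ L
  parallel : ∀ (L : Set (K × K)) (P : K × K), IsNeoLine add mul L → P ∉ L →
    ∃! M : Set (K × K), IsNeoLine add mul M ∧ P ∈ M ∧ Disjoint M L
  nondegenerate : ∃ P Q R : K × K, ¬ ∃ L : Set (K × K), IsNeoLine add mul L ∧ P ∈ L ∧ Q ∈ L ∧ R ∈ L

section

variable {K : Type} {add mul : K → K → K} {zero : K}

theorem add_left_cancel' (h : IsPlanarNeofield add mul zero) {a x y : K}
    (hxy : add a x = add a y) : x = y :=
  (h.left_div a (add a y)).unique hxy rfl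

theorem add_right_cancel' (h : IsPlanarNeofield add mul zero) {a x y : K}
    (hxy : add x a = add y a) : x = y :=
  (h.right_div a (add y a)).unique hxy rfl

theorem zero_mul' (h : IsPlanarNeofield add mul zero) (a : K) : mul zero a = zero := by
  have h1 := h.right_distrib zero zero a
  rw [(h.add_zero zero).1] at h1
  have h2 : add (mul zero a) zero = add (mul zero a) (mul zero a) := by
    rw [(h.add_zero _).2]; exact h1
  exact (add_left_cancel' h h2).symm

theorem mul_zero' (h : IsPlanarNeofield add mul zero) (a : K) : mul a zero = zero := by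
  have h1 := h.left_distrib zero zero a
  rw [(h.add_zero zero).1] at h1
  have h2 : add (mul a zero) zero = add (mul a zero) (mul a zero) := by
    rw [(h.add_zero _).2]; exact h1
  exact (add_left_cancel' h h2).symm

theorem line_inj (h : IsPlanarNeofield add mul zero) {m k m' k' : K}
    (hL : {p : K × K | p.2 = add (mul p.1 m) k} = {p : K × K | p.2 = add (mul p.1 m') k'}) :
    m = m' ∧ k = k' := by
  obtain ⟨e, he0, he, -⟩ := h.group
  have hmulone : ∀ a, mul e a = a := by
    intro a
    by_cases ha : a = zero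
    · rw [ha, mul_zero' h]
    · exact (he a ha).1
  have h1 : ((zero, k) : K × K) ∈ {p : K × K | p.2 = add (mul p.1 m) k} := by
    show k = add (mul zero m) k
    rw [zero_mul' h, (h.add_zero k).1]
  rw [hL] at h1
  have h2 : k = add (mul zero m') k' := h1
  rw [zero_mul' h, (h.add_zero k').1] at h2
  have h3 : ((e, add m k) : K × K) ∈ {p : K × K | p.2 = add (mul p.1 m) k} := by
    show add m k = add (mul e m) k
    rw [hmulone]
  rw [hL] at h3
  have h4 : add m k = add (mul e m') k' := h3
  rw [hmulone, ← h2] at h4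
  exact ⟨add_right_cancel' h h4, h2⟩

/-- Lines of different slopes meet in exactly one point. -/
theorem exists_unique_meet (h : IsPlanarNeofield add mul zero) {m m' : K} (hm : m ≠ m')
    (k k' : K) : ∃! x, add (mul x m) k = add (mul x m') k' := by
  set L : Set (K × K) := {p : K × K | p.2 = add (mul p.1 m) k} with hL
  set L' : Set (K × K) := {p : K × K | p.2 = add (mul p.1 m') k'} with hL'
  have hLl : IsNeoLine add mul L := Or.inl ⟨m, k, rfl⟩
  have hLl' : IsNeoLine add mul L' := Or.inl ⟨m', k', rfl⟩
  have hex : ∃ x, add (mul x m) k = add (mul x m') k' := by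
    by_contra hcon
    push Not at hcon
    have hdisj : Disjoint L L' := by
      rw [Set.disjoint_left]
      rintro ⟨x, y⟩ h1 h2
      have e1 : y = add (mul x m) k := h1
      have e2 : y = add (mul x m') k' := h2
      exact hcon x (e1.symm.trans e2)
    set P : K × K := (zero, k) with hP
    have hPL : P ∈ L := by
      show k = add (mul zero m) k
      rw [zero_mul' h, (h.add_zero k).1]
    have hPL' : P ∉ L' := Set.disjoint_left.1 hdisj hPL
    have hkk : k ≠ k' := by
      intro h1
      apply hPL'
      show k = add (mul zero m') k'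
      rw [zero_mul' h, (h.add_zero k').1]
      exact h1
    set M : Set (K × K) := {p : K × K | p.2 = add (mul p.1 m') k} with hM
    have hPM : P ∈ M := by
      show k = add (mul zero m') k
      rw [zero_mul' h, (h.add_zero k).1]
    have hMdisj : Disjoint M L' := by
      rw [Set.disjoint_left]
      rintro ⟨x, y⟩ h1 h2
      have e1 : y = add (mul x m') k := h1
      have e2 : y = add (mul x m') k' := h2
      exact hkk (add_left_cancel' h (e1.symm.trans e2))
    have h3 := (h.parallel L' P hLl' hPL').unique (y₁ := L) (y₂ := M)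
      ⟨hLl, hPL, hdisj⟩ ⟨Or.inl ⟨m', k, rfl⟩, hPM, hMdisj⟩
    exact hm (line_inj h h3).1
  obtain ⟨x, hx⟩ := hex
  refine ⟨x, hx, ?_⟩
  intro y hy
  by_contra hne
  have hPQ : ((x, add (mul x m) k) : K × K) ≠ (y, add (mul y m) k) := by
    intro h1
    exact hne (congrArg Prod.fst h1).symm
  have h3 := (h.join _ _ hPQ).unique (y₁ := L) (y₂ := L')
    ⟨hLl, rfl, rfl⟩ ⟨hLl', hx, hy⟩
  exact hm (line_inj h h3).1

end

end Pool.Agent.H40CS
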