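import Pool.Agent.H40CS.PlanarRing
import Pool.Agent.H40CS.Density

namespace Pool.Agent.H40CS

open Finset WittVector

/-- `φ` is planar: for every `x ≠ 1` the map `y ↦ φ (x y) (φ y)⁻¹` is a bijection. -/
def IsPlanarFunction {G N : Type*} [Group G] [Group N] (φ : G → N) : Prop :=
  ∀ x : G, x ≠ 1 → Function.Bijective (fun y : G => φ (x * y) * (φ y)⁻¹)

/-- The order of a group carrying a planar function is odd. -/
theorem odd_of_planar {G N : Type*} [Group G] [Group N] [Finite G] {φ : G → N}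
    (hφ : IsPlanarFunction φ) : Odd (Nat.card G) := by
  classical
  by_contra hodd
  rw [Nat.not_odd_iff_even, even_iff_two_dvd] at hodd
  obtain ⟨x, hx⟩ := exists_prime_orderOf_dvd_card' 2 hodd
  have hx1 : x ≠ 1 := by
    intro h
    rw [h, orderOf_one] at hx
    omega
  have hxx : x * x = 1 := by
    have := pow_orderOf_eq_one x
    rwa [hx, sq] at this
  obtain ⟨y, hy⟩ := (hφ x hx1).2 1
  have h2 : φ (x * (x * y)) * (φ (x * y))⁻¹ = 1 := by
    rw [← mul_assoc, hxx, one_mul]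
    simp only at hy
    rw [mul_inv_eq_one] at hy ⊢
    exact hy.symm
  have h3 := (hφ x hx1).1 (a₁ := x * y) (a₂ := y) (h2.trans hy.symm)
  exact hx1 (mul_eq_right.1 h3)

noncomputable section

section lam

variable {N : Type*} [Group N] {R : Type*} [CommRing R]

open Classical in
/-- The extension by zero of the character `h ^ j ↦ Z ^ j` of the cyclic group generated
by `h`. -/
def lam (h : N) (Z : R) (g : N) : R :=
  if hg : ∃ j : ℕ, h ^ j = g then Z ^ hg.choose else 0

theorem lam_pow {h : N} {Z : R} (hZ : Z ^ orderOf h = 1) (j : ℕ) : lam h Z (h ^ j) = Z ^ j := by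
  have hex : ∃ i : ℕ, h ^ i = h ^ j := ⟨j, rfl⟩
  unfold lam
  rw [dif_pos hex]
  have h1 := hex.choose_spec
  rw [pow_eq_pow_iff_modEq] at h1
  rw [pow_eq_pow_mod hex.choose hZ, pow_eq_pow_mod j hZ, h1]

theorem lam_of_not {h : N} {Z : R} {g : N} (hg : ¬ ∃ j : ℕ, h ^ j = g) : lam h Z g = 0 := by
  unfold lam
  rw [dif_neg hg]

theorem mem_iff_pow [Finite N] {h g : N} : g ∈ Subgroup.zpowers h ↔ ∃ j : ℕ, h ^ j = g := by
  rw [← mem_powers_iff_mem_zpowers]
  exact Iff.rfl

theorem lam_mul [Finite N] {h : N} {Z : R} (hZ : Z ^ orderOf h = 1) (g k : N)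
    (hk : k ∈ Subgroup.zpowers h) : lam h Z (g * k) = lam h Z g * lam h Z k := by
  obtain ⟨j, rfl⟩ := mem_iff_pow.1 hk
  by_cases hg : ∃ i : ℕ, h ^ i = g
  · obtain ⟨i, rfl⟩ := hg
    rw [← pow_add, lam_pow hZ, lam_pow hZ, lam_pow hZ, pow_add]
  · rw [lam_of_not hg, zero_mul]
    apply lam_of_not
    intro hcon
    apply hg
    rw [← mem_iff_pow] at hcon ⊢
    exact (Subgroup.mul_mem_cancel_right _ hk).1 hcon

theorem lam_one {h : N} {Z : R} (hZ : Z ^ orderOf h = 1) : lam h Z 1 = 1 := by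
  have := lam_pow hZ 0
  simpa using this

theorem sum_lam [Fintype N] [IsDomain R] {h : N} {Z : R} (hZ : Z ^ orderOf h = 1)
    (hZ1 : Z ≠ 1) : ∑ g : N, lam h Z g = 0 := by
  have h1 : ∑ g : N, lam h Z g = (∑ g : N, lam h Z g) * Z := by
    rw [sum_mul, ← Equiv.sum_comp (Equiv.mulRight h)]
    apply sum_congr rfl
    intro g _
    rw [Equiv.coe_mulRight, lam_mul hZ g h (Subgroup.mem_zpowers h)]
    have h2 := lam_pow hZ 1
    rw [pow_one, pow_one] at h2
    rw [h2]
  have h2 : (∑ g : N, lam h Z g) * (1 - Z) = 0 := by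
    linear_combination h1
  rcases mul_eq_zero.1 h2 with h3 | h3
  · exact h3
  · exact absurd (sub_eq_zero.1 h3).symm hZ1

theorem conj_lam [Finite N] {h : N} {Z : R} (hZ : Z ^ orderOf h = 1) (σ : R →+* R) {L : ℕ}
    (hσ : σ Z = Z ^ L) (hL : orderOf h ∣ L + 1) (g : N) : σ (lam h Z g) = lam h Z g⁻¹ := by
  by_cases hg : ∃ i : ℕ, h ^ i = g
  · obtain ⟨i, rfl⟩ := hg
    have h1 : (h ^ i)⁻¹ = h ^ (L * i) := by
      rw [inv_eq_iff_mul_eq_one, ← pow_add]
      have : i + L * i = (L + 1) * i := by ring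
      rw [this, pow_mul, orderOf_dvd_iff_pow_eq_one.1 hL, one_pow]
    rw [h1, lam_pow hZ, lam_pow hZ, map_pow, hσ, ← pow_mul]
  · rw [lam_of_not hg, map_zero, lam_of_not]
    intro hcon
    apply hg
    rw [← mem_iff_pow] at hcon ⊢
    exact inv_mem_iff.1 hcon

/-- The representation induced from the character of the cyclic subgroup. -/
def rho (h : N) (Z : R) (n : N) :
    Matrix (N ⧸ Subgroup.zpowers h) (N ⧸ Subgroup.zpowers h) R :=
  Matrix.of fun c₁ c₂ => lam h Z (c₁.out⁻¹ * n * c₂.out)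

theorem rho_mul [Fintype N] {h : N} {Z : R} (hZ : Z ^ orderOf h = 1)
    [Fintype (N ⧸ Subgroup.zpowers h)] (n m : N) :
    rho h Z n * rho h Z m = rho h Z (n * m) := by
  classical
  ext c₁ c₂
  rw [Matrix.mul_apply]
  simp only [rho, Matrix.of_apply]
  set c : N ⧸ Subgroup.zpowers h := QuotientGroup.mk (m * c₂.out) with hc
  have hcmem : c.out⁻¹ * m * c₂.out ∈ Subgroup.zpowers h := by
    rw [mul_assoc, ← QuotientGroup.eq, QuotientGroup.out_eq']
  rw [sum_eq_single c]
  · rw [← lam_mul hZ _ _ hcmem]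
    congr 1
    group
  · intro b _ hb
    have : lam h Z (b.out⁻¹ * m * c₂.out) = 0 := by
      apply lam_of_not
      intro hcon
      apply hb
      rw [← mem_iff_pow, mul_assoc, ← QuotientGroup.eq, QuotientGroup.out_eq'] at hcon
      rw [hcon]
    rw [this, mul_zero]
  · intro hcon
    exact absurd (mem_univ c) hcon

theorem rho_one [Finite N] {h : N} {Z : R} (hZ : Z ^ orderOf h = 1)
    [DecidableEq (N ⧸ Subgroup.zpowers h)] : rho h Z 1 = 1 := by
  ext c₁ c₂
  simp only [rho, Matrix.of_apply, mul_one]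
  by_cases hc : c₁ = c₂
  · rw [hc, Matrix.one_apply_eq, inv_mul_cancel, lam_one hZ]
  · rw [Matrix.one_apply_ne hc]
    apply lam_of_not
    intro hcon
    apply hc
    rw [← mem_iff_pow, ← QuotientGroup.eq, QuotientGroup.out_eq', QuotientGroup.out_eq'] at hcon
    exact hcon

theorem sum_rho [Fintype N] [IsDomain R] {h : N} {Z : R} (hZ : Z ^ orderOf h = 1)
    (hZ1 : Z ≠ 1) : ∑ n : N, rho h Z n = 0 := by
  ext c₁ c₂
  rw [Matrix.sum_apply]
  simp only [rho, Matrix.of_apply, Matrix.zero_apply]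
  rw [← sum_lam hZ hZ1]
  exact Equiv.sum_comp ((Equiv.mulLeft c₁.out⁻¹).trans (Equiv.mulRight c₂.out)) (lam h Z)

theorem conj_rho [Finite N] {h : N} {Z : R} (hZ : Z ^ orderOf h = 1) (σ : R →+* R) {L : ℕ}
    (hσ : σ Z = Z ^ L) (hL : orderOf h ∣ L + 1) (n : N) :
    ((rho h Z n).map σ).transpose = rho h Z n⁻¹ := by
  ext c₁ c₂
  simp only [rho, Matrix.transpose_apply, Matrix.map_apply, Matrix.of_apply]
  rw [conj_lam hZ σ hσ hL]
  congr 1
  group

end lam

end

end Pool.Agent.H40CS
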