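import Pool.Agent.H40CS.Planar

namespace Pool.Agent.H40CS

open Finset WittVector

theorem iterate_frobenius_pow {l : ℕ} [Fact l.Prime] {k : Type*} [Field k] [CharP k l]
    (Z : WittVector l k) (hFZ : frobenius Z = Z ^ l) (i : ℕ) :
    ((frobenius : WittVector l k →+* WittVector l k) ^ i) Z = Z ^ (l ^ i) := by
  induction i with
  | zero => simp
  | succ i ih =>
    rw [pow_succ', RingHom.mul_def, RingHom.comp_apply, ih, map_pow, hFZ, ← pow_mul, pow_succ,
      mul_comm l]

theorem planar_matrix {G N : Type*} [Group G] [Group N] [Fintype G] [Fintype N] {φ : G → N}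
    (hφ : IsPlanarFunction φ) {R : Type*} [CommRing R] [IsDomain R] {h : N} {Z : R}
    (hZ : Z ^ orderOf h = 1) (hZ1 : Z ≠ 1) (σ : R →+* R) {L : ℕ} (hσ : σ Z = Z ^ L)
    (hL : orderOf h ∣ L + 1) [Fintype (N ⧸ Subgroup.zpowers h)]
    [DecidableEq (N ⧸ Subgroup.zpowers h)] :
    (∑ y : G, rho h Z (φ y)) * ((∑ y : G, rho h Z (φ y)).map σ).transpose =
      (Fintype.card G : R) • (1 : Matrix (N ⧸ Subgroup.zpowers h) (N ⧸ Subgroup.zpowers h) R) := by
  classical
  have h1 : ((∑ y : G, rho h Z (φ y)).map σ).transpose = ∑ z : G, rho h Z (φ z)⁻¹ := by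
    have e : (∑ y : G, rho h Z (φ y)).map σ = ∑ y : G, (rho h Z (φ y)).map σ := by
      exact map_sum (σ.mapMatrix (m := N ⧸ Subgroup.zpowers h)) (fun y : G => rho h Z (φ y)) univ
    rw [e, Matrix.transpose_sum]
    exact sum_congr rfl fun y _ => conj_rho hZ σ hσ hL (φ y)
  rw [h1, sum_mul_sum, sum_comm]
  have h2 : ∀ z : G, ∑ y : G, rho h Z (φ y) * rho h Z (φ z)⁻¹ =
      ∑ x : G, rho h Z (φ (x * z) * (φ z)⁻¹) := by
    intro z
    rw [← Equiv.sum_comp (Equiv.mulRight z)]
    apply sum_congr rfl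
    intro x _
    rw [Equiv.coe_mulRight, rho_mul hZ]
  rw [sum_congr rfl fun z _ => h2 z, sum_comm]
  rw [← add_sum_erase univ _ (mem_univ (1 : G))]
  have h3 : ∑ z : G, rho h Z (φ (1 * z) * (φ z)⁻¹) =
      (Fintype.card G : R) • (1 : Matrix (N ⧸ Subgroup.zpowers h) (N ⧸ Subgroup.zpowers h) R) := by
    have : ∀ z ∈ (univ : Finset G), rho h Z (φ (1 * z) * (φ z)⁻¹) = 1 := by
      intro z _
      rw [one_mul, mul_inv_cancel, rho_one hZ]
    rw [sum_congr rfl this, sum_const, card_univ, Nat.cast_smul_eq_nsmul]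
  have h4 : ∑ x ∈ univ.erase (1 : G), ∑ z : G, rho h Z (φ (x * z) * (φ z)⁻¹) = 0 := by
    apply sum_eq_zero
    intro x hx
    have hb := hφ x (ne_of_mem_erase hx)
    rw [hb.sum_comp (fun n => rho h Z n)]
    exact sum_rho hZ hZ1
  rw [h3, h4, add_zero]

/-- The criterion: if there is a planar function between groups of order `v`, and `w`, `l` are
primes with `w ∣ v` and `w ∣ l ^ i + 1`, then `l` divides `v` to an even power. -/
theorem planar_criterion {G N : Type*} [Group G] [Group N] [Finite G] [Finite N]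
    (hcard : Nat.card G = Nat.card N) {φ : G → N} (hφ : IsPlanarFunction φ) {w l i : ℕ}
    (hw : w.Prime) (hl : l.Prime) (hwv : w ∣ Nat.card G) (hi : i ≠ 0) (hwl : w ∣ l ^ i + 1) :
    Even ((Nat.card G).factorization l) := by
  classical
  have : Fintype G := Fintype.ofFinite G
  have : Fintype N := Fintype.ofFinite N
  have : Fact l.Prime := ⟨hl⟩
  have : Fact w.Prime := ⟨hw⟩
  have hodd := odd_of_planar hφ
  obtain ⟨h, hh⟩ := exists_prime_orderOf_dvd_card' (G := N) w (by rw [← hcard]; exact hwv)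
  obtain ⟨z, hz, hz1⟩ := exists_root' l w i hi hw.two_le hwl
  set Z : WittVector l (GaloisField l (2 * i)) := teichmuller l z with hZ
  have hZw : Z ^ w = 1 := by rw [hZ, ← map_pow, hz, map_one]
  have hZ1 : Z ≠ 1 := by
    intro hcon
    apply hz1
    have := congrArg (fun t : WittVector l (GaloisField l (2 * i)) => t.coeff 0) hcon
    simpa [hZ, teichmuller_coeff_zero] using this
  have hFZ : frobenius Z = Z ^ l := by
    rw [hZ, frobenius_eq_map_frobenius, map_teichmuller, frobenius_def, map_pow]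
  have hσ := iterate_frobenius_pow Z hFZ i
  have hZo : Z ^ orderOf h = 1 := by rw [hh]; exact hZw
  have hLo : orderOf h ∣ l ^ i + 1 := by rw [hh]; exact hwl
  have : Fintype (N ⧸ Subgroup.zpowers h) := Fintype.ofFinite _
  set σ : WittVector l (GaloisField l (2 * i)) →+* WittVector l (GaloisField l (2 * i)) :=
    (WittVector.frobenius : WittVector l (GaloisField l (2 * i)) →+*
      WittVector l (GaloisField l (2 * i))) ^ i with hσd
  have hM := planar_matrix hφ hZo hZ1 σ hσ hLo
  set M := ∑ y : G, rho h Z (φ y) with hMd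
  have hdet := congrArg Matrix.det hM
  rw [Matrix.det_mul, Matrix.det_transpose, Matrix.det_smul, Matrix.det_one, mul_one] at hdet
  have hmap : (M.map σ).det = σ M.det := by
    rw [RingHom.map_det]
    rfl
  rw [hmap] at hdet
  set d := Fintype.card (N ⧸ Subgroup.zpowers h) with hd
  have hv0 : Nat.card G ≠ 0 := Nat.card_pos.ne'
  have hcG : Fintype.card G = Nat.card G := Nat.card_eq_fintype_card.symm
  have heven := even_factorization σ M.det ((Nat.card G) ^ d) (pow_ne_zero d hv0) (by
    rw [hdet, hcG]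
    push_cast
    rfl)
  have hdw : d * w = Nat.card G := by
    have h1 := Subgroup.card_eq_card_quotient_mul_card_subgroup (Subgroup.zpowers h)
    rw [Nat.card_zpowers, hh, ← hcard] at h1
    rw [hd, ← Nat.card_eq_fintype_card]
    exact h1.symm
  have hdodd : Odd d := by
    rw [← hdw, Nat.odd_mul] at hodd
    exact hodd.1
  rw [Nat.factorization_pow, Finsupp.smul_apply, smul_eq_mul, Nat.even_mul] at heven
  rcases heven with h1 | h1
  · exact absurd h1 (Nat.not_even_iff_odd.2 hdodd)
  · exact h1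

end Pool.Agent.H40CS
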