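import Pool.Agent.H40CS.Local

namespace Pool.Agent.H40CS

open Finset WittVector

noncomputable section

/-- In the field with `l ^ (2 i)` elements, where `w` divides `l ^ i + 1`, there is an element
`z` with `z ^ w = 1` and `z ≠ 1`. -/
theorem exists_root' (l w i : ℕ) [Fact l.Prime] (hi : i ≠ 0) (hw : 2 ≤ w)
    (hwl : w ∣ l ^ i + 1) : ∃ z : GaloisField l (2 * i), z ^ w = 1 ∧ z ≠ 1 := by
  classical
  have : Fintype (GaloisField l (2 * i)) := Fintype.ofFinite _
  have hl : l.Prime := Fact.out
  have hcard : Nat.card (GaloisField l (2 * i)) = l ^ (2 * i) :=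
    GaloisField.card l (2 * i) (by omega)
  obtain ⟨g, hg⟩ := IsCyclic.exists_generator (α := (GaloisField l (2 * i))ˣ)
  have hgo : orderOf g = Nat.card (GaloisField l (2 * i))ˣ :=
    orderOf_eq_card_of_forall_mem_zpowers hg
  have hu : Nat.card (GaloisField l (2 * i))ˣ = l ^ (2 * i) - 1 := by
    rw [Nat.card_units, hcard]
  have hdv : w ∣ l ^ (2 * i) - 1 := by
    have : l ^ (2 * i) - 1 = (l ^ i + 1) * (l ^ i - 1) := by
      have := Nat.sq_sub_sq (l ^ i) 1
      rw [← pow_mul, mul_comm i 2] at this
      simpa using this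
    rw [this]
    exact Dvd.dvd.mul_right hwl _
  obtain ⟨c, hc⟩ := hdv
  have hpos : 0 < l ^ (2 * i) - 1 := by
    have h1 := hl.two_le
    have h2 : 2 ^ 1 ≤ l ^ (2 * i) :=
      (Nat.pow_le_pow_left h1 1).trans (Nat.pow_le_pow_right hl.pos (by omega))
    omega
  have hc0 : 0 < c := by
    rcases Nat.eq_zero_or_pos c with h | h
    · rw [h, mul_zero] at hc; omega
    · exact h
  refine ⟨((g ^ c : (GaloisField l (2 * i))ˣ) : GaloisField l (2 * i)), ?_, ?_⟩
  · rw [← Units.val_pow_eq_pow_val, ← pow_mul]
    have : g ^ (c * w) = 1 := by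
      rw [mul_comm c w, ← hc, ← hu, ← hgo]
      exact pow_orderOf_eq_one g
    rw [this, Units.val_one]
  · intro h
    have h1 : g ^ c = 1 := Units.ext (by simpa using h)
    have h2 := orderOf_dvd_of_pow_eq_one h1
    rw [hgo, hu, hc] at h2
    have h3 := Nat.le_of_dvd hc0 h2
    nlinarith

/-- If a natural number is a norm `δ σ(δ)` in the Witt vectors, its `p`-adic valuation is even. -/
theorem even_factorization {p : ℕ} [Fact p.Prime] {k : Type*} [Field k] [CharP k p]
    [PerfectRing k p] (σ : WittVector p k →+* WittVector p k) (δ : WittVector p k) (a : ℕ)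
    (ha : a ≠ 0) (h : δ * σ δ = (a : WittVector p k)) : Even (a.factorization p) := by
  have hp : p.Prime := Fact.out
  have hp0 : (p : WittVector p k) ≠ 0 := WittVector.p_nonzero p k
  have hcast : ∀ b : ℕ, ¬ p ∣ b → (constantCoeff : WittVector p k →+* k) (b : WittVector p k) ≠ 0 := by
    intro b hb h0
    rw [map_natCast] at h0
    exact hb ((CharP.cast_eq_zero_iff k p b).1 h0)
  have hcp : (constantCoeff : WittVector p k →+* k) (p : WittVector p k) = 0 := by
    rw [map_natCast, CharP.cast_eq_zero]
  obtain ⟨u, hu⟩ : ∃ u, a = p ^ (a.factorization p) * u := ⟨_, (Nat.ordProj_mul_ordCompl_eq_self a p).symm⟩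
  have hpu : ¬ p ∣ u := by
    intro hcon
    obtain ⟨u', hu'⟩ := hcon
    have h1 : p ^ (a.factorization p + 1) ∣ a := ⟨u', by rw [pow_succ, mul_assoc, ← hu', ← hu]⟩
    have h2 := (hp.pow_dvd_iff_le_factorization ha).1 h1
    omega
  have hδ : δ ≠ 0 := by
    intro h0
    rw [h0, zero_mul] at h
    have h1 : (p : WittVector p k) ^ (a.factorization p) * (u : WittVector p k) = 0 := by
      rw [h]
      conv_rhs => rw [hu]
      push_cast
      ring
    rcases mul_eq_zero.1 h1 with h2 | h2
    · exact pow_ne_zero _ hp0 h2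
    · exact hcast u hpu (by rw [h2, map_zero])
  obtain ⟨m, b, hb⟩ := exists_eq_pow_p_mul' δ hδ
  have hub : IsUnit ((b : WittVector p k) * σ b) := (b.isUnit).mul ((b.isUnit).map σ)
  have h1 : (p : WittVector p k) ^ (2 * m) * ((b : WittVector p k) * σ b) =
      (p : WittVector p k) ^ (a.factorization p) * (u : WittVector p k) := by
    have h2 : ((p ^ (a.factorization p) * u : ℕ) : WittVector p k) = (a : WittVector p k) := by
      rw [← hu]
    push_cast at h2
    rw [h2, ← h, hb, map_mul, map_pow, map_natCast]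
    ring
  have hcu : (constantCoeff : WittVector p k →+* k) ((b : WittVector p k) * σ b) ≠ 0 :=
    (hub.map _).ne_zero
  rcases lt_trichotomy (2 * m) (a.factorization p) with hlt | heq | hgt
  · exfalso
    obtain ⟨e, he⟩ := Nat.exists_eq_add_of_lt hlt
    rw [he] at h1
    have h2 : (b : WittVector p k) * σ b =
        (p : WittVector p k) * ((p : WittVector p k) ^ e * (u : WittVector p k)) := by
      apply mul_left_cancel₀ (pow_ne_zero (2 * m) hp0)
      rw [h1]; ring
    apply hcu
    rw [h2, map_mul, hcp, zero_mul]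
  · exact ⟨m, by omega⟩
  · exfalso
    obtain ⟨e, he⟩ := Nat.exists_eq_add_of_lt hgt
    rw [he] at h1
    have h2 : (u : WittVector p k) =
        (p : WittVector p k) * ((p : WittVector p k) ^ e * ((b : WittVector p k) * σ b)) := by
      apply mul_left_cancel₀ (pow_ne_zero (a.factorization p) hp0)
      rw [← h1]; ring
    apply hcast u hpu
    rw [h2, map_mul, hcp, zero_mul]

end

end Pool.Agent.H40CS
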