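import Pool.Agent.H40CS.SedfAlg
import Pool.Agent.H40CS.PlanarMain

namespace Pool.Agent.H40CS

open Finset WittVector

theorem exists_functional' (K : Type*) [Field K] {V : Type*} [AddCommGroup V] [Module K V] (v : V)
    (hv : v ≠ 0) : ∃ f : V →ₗ[K] K, f v ≠ 0 := by
  by_contra hcon
  push Not at hcon
  exact hv ((Module.forall_dual_apply_eq_zero_iff K v).1 hcon)

theorem exists_functional {w : ℕ} [Fact w.Prime] {Q : Type*} [AddCommGroup Q]
    (hQ : ∀ x : Q, w • x = 0) (q : Q) (hq : q ≠ 0) : ∃ f : Q →+ ZMod w, f q ≠ 0 := by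
  have M : Module (ZMod w) Q := AddCommGroup.zmodModule hQ
  obtain ⟨f, hf⟩ := @exists_functional' (ZMod w) _ Q _ M q hq
  exact ⟨f.toAddMonoidHom, hf⟩

/-- A nonzero homomorphism to `ZMod w`, for a prime `w` dividing the order of the group. -/
theorem exists_hom {G : Type*} [AddCommGroup G] [Finite G] {w : ℕ} (hw : w.Prime)
    (hd : w ∣ Nat.card G) : ∃ f : G →+ ZMod w, f ≠ 0 := by
  classical
  have : Fact w.Prime := ⟨hw⟩
  set H : AddSubgroup G := (nsmulAddMonoidHom (α := G) w).range with hH
  have hne : ∃ g : G, g ∉ H := by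
    by_contra hcon
    push Not at hcon
    have hsurj : Function.Surjective (nsmulAddMonoidHom (α := G) w) := by
      intro g
      exact hcon g
    have hinj : Function.Injective (nsmulAddMonoidHom (α := G) w) :=
      Finite.injective_iff_surjective.2 hsurj
    obtain ⟨g, hg⟩ := exists_prime_addOrderOf_dvd_card' (G := G) w hd
    have h1 : w • g = 0 := by rw [← hg]; exact addOrderOf_nsmul_eq_zero g
    have h2 : g = 0 := by
      apply hinj
      rw [map_zero]
      exact h1
    rw [h2, addOrderOf_zero] at hg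
    exact hw.one_lt.ne hg
  obtain ⟨g, hg⟩ := hne
  have hQ : ∀ x : G ⧸ H, w • x = 0 := by
    intro x
    obtain ⟨a, rfl⟩ := QuotientAddGroup.mk_surjective x
    rw [← QuotientAddGroup.mk_nsmul, QuotientAddGroup.eq_zero_iff]
    exact ⟨a, rfl⟩
  have hgQ : (QuotientAddGroup.mk g : G ⧸ H) ≠ 0 := by
    intro h0
    exact hg ((QuotientAddGroup.eq_zero_iff g).1 h0)
  obtain ⟨φ, hφ⟩ := exists_functional hQ _ hgQ
  refine ⟨φ.comp (QuotientAddGroup.mk' H), ?_⟩
  intro h0
  apply hφ
  have := DFunLike.congr_fun h0 g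
  exact this

/-- `A` is an `(n, m, k, lam)`-strong external difference family in `G`. -/
def IsSEDF {G : Type*} [AddCommGroup G] [DecidableEq G] {m : ℕ} (k lam : ℕ)
    (A : Fin m → Finset G) : Prop :=
  (∀ i, (A i).card = k) ∧ (∀ i j, i ≠ j → Disjoint (A i) (A j)) ∧
    ∀ i, ∀ g : G, g ≠ 0 →
      ((A i ×ˢ (univ.filter (fun j => j ≠ i)).biUnion A).filter (fun p => p.1 - p.2 = g)).card = lam

section

variable {G : Type*} [AddCommGroup G] [DecidableEq G] {m k lam : ℕ} {A : Fin m → Finset G}

theorem disj_union (h : IsSEDF k lam A) (i : Fin m) :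
    Disjoint (A i) ((univ.filter (fun j => j ≠ i)).biUnion A) := by
  rw [disjoint_biUnion_right]
  intro j hj
  exact h.2.1 i j (Ne.symm (mem_filter.1 hj).2)

theorem filter_zero (h : IsSEDF k lam A) (i : Fin m) :
    ((A i ×ˢ (univ.filter (fun j => j ≠ i)).biUnion A).filter
      (fun p => p.1 - p.2 = (0 : G))).card = 0 := by
  rw [card_eq_zero, filter_eq_empty_iff]
  rintro ⟨a, b⟩ hab h0
  rw [mem_product] at hab
  have h1 : a = b := sub_eq_zero.1 h0
  exact (disjoint_left.1 (disj_union h i)) hab.1 (h1 ▸ hab.2)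

theorem card_union_eq (h : IsSEDF k lam A) (i : Fin m) :
    ((univ.filter (fun j => j ≠ i)).biUnion A).card = (m - 1) * k := by
  rw [card_biUnion (fun a _ b _ hab => h.2.1 a b hab), sum_congr rfl (fun j _ => h.1 j),
    sum_const, smul_eq_mul]
  congr 1
  rw [filter_ne' univ i, card_erase_of_mem (mem_univ i), card_univ, Fintype.card_fin]

theorem sedf_count [Fintype G] (h : IsSEDF k lam A) (i : Fin m) :
    k * ((m - 1) * k) = lam * (Fintype.card G - 1) := by
  have h1 : (A i ×ˢ (univ.filter (fun j => j ≠ i)).biUnion A).card = k * ((m - 1) * k) := by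
    rw [card_product, h.1, card_union_eq h]
  rw [← h1, card_eq_sum_card_fiberwise (f := fun p : G × G => p.1 - p.2)
    (t := (univ : Finset G)) (fun p _ => mem_univ _),
    ← add_sum_erase univ _ (mem_univ (0 : G)), filter_zero h i, zero_add,
    sum_congr rfl (fun g hg => h.2.2 i g (ne_of_mem_erase hg)), sum_const, smul_eq_mul,
    card_erase_of_mem (mem_univ _), card_univ, mul_comm]

theorem sedf_char [Fintype G] {R : Type*} [CommRing R] [IsDomain R] (h : IsSEDF k lam A)
    (ψ : AddChar G R) (hψ : ψ ≠ 1) (i : Fin m) :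
    (∑ a ∈ A i, ψ a) * (∑ b ∈ (univ.filter (fun j => j ≠ i)).biUnion A, ψ (-b)) =
      -(lam : R) := by
  have h0 : ∑ x : G, ψ x = 0 := AddChar.sum_eq_zero_of_ne_one hψ
  have h2 : (∑ a ∈ A i, ψ a) * (∑ b ∈ (univ.filter (fun j => j ≠ i)).biUnion A, ψ (-b)) =
      ∑ p ∈ A i ×ˢ (univ.filter (fun j => j ≠ i)).biUnion A, ψ (p.1 - p.2) := by
    rw [sum_mul_sum, ← sum_product']
    apply sum_congr rfl
    intro p _
    rw [sub_eq_add_neg, AddChar.map_add_eq_mul]
  have h3 : ∑ p ∈ A i ×ˢ (univ.filter (fun j => j ≠ i)).biUnion A, ψ (p.1 - p.2) =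
      ∑ x : G, (((A i ×ˢ (univ.filter (fun j => j ≠ i)).biUnion A).filter
        (fun p => p.1 - p.2 = x)).card : R) * ψ x := by
    rw [← sum_fiberwise_of_maps_to (g := fun p : G × G => p.1 - p.2)
      (t := (univ : Finset G)) (fun p _ => mem_univ _)]
    apply sum_congr rfl
    intro x _
    rw [sum_congr rfl (g := fun _ => ψ x) (fun p hp => by rw [(mem_filter.1 hp).2]),
      sum_const, nsmul_eq_mul]
  rw [h2, h3, ← add_sum_erase univ _ (mem_univ (0 : G)), filter_zero h i, Nat.cast_zero,
    zero_mul, zero_add]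
  have h4 : ∑ x ∈ univ.erase (0 : G),
      (((A i ×ˢ (univ.filter (fun j => j ≠ i)).biUnion A).filter
        (fun p => p.1 - p.2 = x)).card : R) * ψ x =
      (lam : R) * ∑ x ∈ univ.erase (0 : G), ψ x := by
    rw [mul_sum]
    apply sum_congr rfl
    intro x hx
    rw [h.2.2 i x (ne_of_mem_erase hx)]
  rw [h4]
  rw [← add_sum_erase univ _ (mem_univ (0 : G)), AddChar.map_zero_eq_one] at h0
  linear_combination (lam : R) * h0

end

/-- The criterion: `v_l(lam)` and `v_l(n - 1)` are even. -/
theorem sedf_criterion {G : Type*} [AddCommGroup G] [DecidableEq G] [Finite G] {m k lam : ℕ}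
    (hm : 3 ≤ m) (hlam : 1 ≤ lam) {A : Fin m → Finset G} (h : IsSEDF k lam A) {w l i : ℕ}
    (hw : w.Prime) (hl : l.Prime) (hwG : w ∣ Nat.card G) (hi : i ≠ 0) (hwl : w ∣ l ^ i + 1)
    (hml : m < l) : Even (lam.factorization l) ∧ Even ((Nat.card G - 1).factorization l) := by
  classical
  have : Fintype G := Fintype.ofFinite G
  have : Fact l.Prime := ⟨hl⟩
  have : Fact w.Prime := ⟨hw⟩
  obtain ⟨f, hf⟩ := exists_hom hw hwG
  obtain ⟨z, hz, hz1⟩ := exists_root' l w i hi hw.two_le hwl
  set Z : WittVector l (GaloisField l (2 * i)) := teichmuller l z with hZ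
  have hZw : Z ^ w = 1 := by rw [hZ, ← map_pow, hz, map_one]
  have hZ1 : Z ≠ 1 := by
    intro hcon
    apply hz1
    have := congrArg (fun t : WittVector l (GaloisField l (2 * i)) => t.coeff 0) hcon
    simpa [hZ, teichmuller_coeff_zero] using this
  have hFZ : WittVector.frobenius Z = Z ^ l := by
    rw [hZ, frobenius_eq_map_frobenius, map_teichmuller, frobenius_def, map_pow]
  have hσZ := iterate_frobenius_pow Z hFZ i
  set σ : WittVector l (GaloisField l (2 * i)) →+* WittVector l (GaloisField l (2 * i)) :=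
    (WittVector.frobenius : WittVector l (GaloisField l (2 * i)) →+*
      WittVector l (GaloisField l (2 * i))) ^ i with hσd
  have hZo : orderOf Z = w := orderOf_eq_prime hZw hZ1
  set ψ : AddChar G (WittVector l (GaloisField l (2 * i))) :=
    (AddChar.zmodChar w hZw).compAddMonoidHom f with hψ
  have hψa : ∀ a, ψ a = Z ^ (f a).val := fun a => AddChar.zmodChar_apply hZw (f a)
  have hψ1 : ψ ≠ 1 := by
    intro hcon
    apply hf
    ext a
    have h1 : ψ a = 1 := by rw [hcon]; rfl
    rw [hψa] at h1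
    have h2 := orderOf_dvd_of_pow_eq_one h1
    rw [hZo] at h2
    have h3 := Nat.eq_zero_of_dvd_of_lt h2 (ZMod.val_lt (f a))
    rw [ZMod.val_eq_zero] at h3
    rw [h3]
    rfl
  have hneg : ∀ a, σ (ψ a) = ψ (-a) := by
    intro a
    have e1 : ψ a * ψ (-a) = 1 := by
      rw [← AddChar.map_add_eq_mul, add_neg_cancel, AddChar.map_zero_eq_one]
    have e2 : σ (ψ a) * ψ a = 1 := by
      rw [hψa, map_pow, hσZ, ← mul_pow, ← pow_succ]
      obtain ⟨c, hc⟩ := hwl
      rw [hc, pow_mul, hZw, one_pow, one_pow]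
    exact left_inv_eq_right_inv e2 e1
  set x : Fin m → WittVector l (GaloisField l (2 * i)) := fun j => ∑ a ∈ A j, ψ a with hx
  have hσx : ∀ j, σ (x j) = ∑ a ∈ A j, ψ (-a) := by
    intro j
    simp only [hx]
    rw [map_sum]
    exact sum_congr rfl fun a _ => hneg a
  have hσσ : ∀ j, σ (σ (x j)) = x j := by
    intro j
    rw [hσx, map_sum]
    simp only [hx]
    exact sum_congr rfl fun a _ => by rw [hneg, neg_neg]
  have hmain : ∀ j, x j * σ ((∑ i, x i) - x j) =
      -(lam : WittVector l (GaloisField l (2 * i))) := by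
    intro j
    rw [← sedf_char h ψ hψ1 j]
    simp only [hx]
    congr 1
    have h1 : (∑ i, ∑ a ∈ A i, ψ a) - ∑ a ∈ A j, ψ a =
        ∑ b ∈ (univ.filter (fun i => i ≠ j)).biUnion A, ψ b := by
      rw [sum_biUnion (fun a _ b _ hab => h.2.1 a b hab), filter_ne' univ j,
        ← add_sum_erase univ _ (mem_univ j)]
      ring
    rw [h1, map_sum]
    exact sum_congr rfl fun a _ => hneg a
  have hchar : CharZero (WittVector l (GaloisField l (2 * i))) := by
    refine charZero_of_inj_zero ?_
    intro n hn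
    by_contra hn0
    have h1 : ((n : ℤ) : WittVector l (GaloisField l (2 * i))) = 0 := by
      rw [Int.cast_natCast]; exact hn
    -- divide by the exact power of `l`
    obtain ⟨u, hu⟩ : ∃ u, n = l ^ (n.factorization l) * u :=
      ⟨_, (Nat.ordProj_mul_ordCompl_eq_self n l).symm⟩
    have hlu : ¬ l ∣ u := by
      intro hcon
      obtain ⟨u', hu'⟩ := hcon
      have h1 : l ^ (n.factorization l + 1) ∣ n :=
        ⟨u', by rw [pow_succ, mul_assoc, ← hu', ← hu]⟩
      have h2 := (hl.pow_dvd_iff_le_factorization hn0).1 h1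
      omega
    have h2 : (l : WittVector l (GaloisField l (2 * i))) ^ (n.factorization l) *
        (u : WittVector l (GaloisField l (2 * i))) = 0 := by
      rw [← hn]
      conv_rhs => rw [hu]
      push_cast
      ring
    rcases mul_eq_zero.1 h2 with h3 | h3
    · exact pow_ne_zero _ (WittVector.p_nonzero l (GaloisField l (2 * i))) h3
    · apply hlu
      have h4 : (constantCoeff : WittVector l (GaloisField l (2 * i)) →+* _)
          (u : WittVector l (GaloisField l (2 * i))) = 0 := by rw [h3, map_zero]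
      rw [map_natCast] at h4
      exact (CharP.cast_eq_zero_iff (GaloisField l (2 * i)) l u).1 h4
  have hlam0 : lam ≠ 0 := by omega
  have hev : Even (lam.factorization l) := by
    rcases sedf_algebra σ hm x lam hlam hmain hσσ with h1 | ⟨p, q, hpq, hp1, hq1, hpqn, h1⟩
    · exact even_factorization σ (x ⟨0, by omega⟩) lam hlam0 (h1 _)
    · set P : ℤ := (p : ℤ) - 1 with hP
      set Q : ℤ := (q : ℤ) - 1 with hQ
      set D : ℤ := (p : ℤ) - q with hD
      have hP0 : P ≠ 0 := by rw [hP]; omega
      have hQ0 : Q ≠ 0 := by rw [hQ]; omega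
      have hD0 : D ≠ 0 := by rw [hD]; omega
      have hc0 : D ^ 2 * lam * P * Q ≠ 0 := by
        have : (lam : ℤ) ≠ 0 := by exact_mod_cast hlam0
        positivity
      have h2 := even_factorization_int σ ((∑ i, x i) * (P : WittVector l (GaloisField l (2 * i))) *
        (Q : WittVector l (GaloisField l (2 * i)))) (D ^ 2 * lam * P * Q) hc0 (by
          rw [map_mul, map_mul, map_intCast, map_intCast]
          push_cast
          linear_combination ((P : WittVector l (GaloisField l (2 * i))) *
            (Q : WittVector l (GaloisField l (2 * i)))) * h1)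
      have hPl : P.natAbs.factorization l = 0 := by
        apply Nat.factorization_eq_zero_of_not_dvd
        intro hdv
        have := Nat.le_of_dvd (Int.natAbs_pos.2 hP0) hdv
        omega
      have hQl : Q.natAbs.factorization l = 0 := by
        apply Nat.factorization_eq_zero_of_not_dvd
        intro hdv
        have := Nat.le_of_dvd (Int.natAbs_pos.2 hQ0) hdv
        omega
      have h3 : (D ^ 2 * lam * P * Q).natAbs = D.natAbs ^ 2 * lam * P.natAbs * Q.natAbs := by
        rw [Int.natAbs_mul, Int.natAbs_mul, Int.natAbs_mul, Int.natAbs_pow, Int.natAbs_natCast]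
      have hDn : D.natAbs ≠ 0 := Int.natAbs_ne_zero.2 hD0
      have hPn : P.natAbs ≠ 0 := Int.natAbs_ne_zero.2 hP0
      have hQn : Q.natAbs ≠ 0 := Int.natAbs_ne_zero.2 hQ0
      rw [h3, Nat.factorization_mul (by positivity) hQn, Nat.factorization_mul (by positivity) hPn,
        Nat.factorization_mul (by positivity) hlam0, Nat.factorization_pow] at h2
      simp only [Finsupp.add_apply, Finsupp.smul_apply, smul_eq_mul, hPl, hQl, add_zero] at h2
      obtain ⟨c, hc⟩ := h2
      exact ⟨c - D.natAbs.factorization l, by omega⟩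
  refine ⟨hev, ?_⟩
  by_cases hn1 : Fintype.card G - 1 = 0
  · rw [Nat.card_eq_fintype_card, hn1]
    simp
  have hcount := sedf_count h ⟨0, by omega⟩
  have hk0 : k ≠ 0 := by
    intro h0
    rw [h0, zero_mul] at hcount
    rcases mul_eq_zero.1 hcount.symm with h1 | h1
    · exact hlam0 h1
    · exact hn1 h1
  have hm1 : m - 1 ≠ 0 := by omega
  have h4 := congrArg (fun t => Nat.factorization t l) hcount
  rw [Nat.factorization_mul hk0 (by positivity), Nat.factorization_mul hm1 hk0,
    Nat.factorization_mul hlam0 hn1] at h4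
  simp only [Finsupp.add_apply] at h4
  have hml0 : (m - 1).factorization l = 0 := by
    apply Nat.factorization_eq_zero_of_not_dvd
    intro hdv
    have := Nat.le_of_dvd (by omega) hdv
    omega
  rw [Nat.card_eq_fintype_card]
  obtain ⟨c, hc⟩ := hev
  exact ⟨k.factorization l - c, by omega⟩

end Pool.Agent.H40CS
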