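import Pool.Agent.H40CS.PlanarRing

namespace Pool.Agent.H40CS

open Finset WittVector

noncomputable section

/-- If an integer is a norm `δ σ(δ)` in the Witt vectors, its `p`-adic valuation is even. -/
theorem even_factorization_int {p : ℕ} [Fact p.Prime] {k : Type*} [Field k] [CharP k p]
    [PerfectRing k p] (σ : WittVector p k →+* WittVector p k) (δ : WittVector p k) (a : ℤ)
    (ha : a ≠ 0) (h : δ * σ δ = (a : WittVector p k)) : Even (a.natAbs.factorization p) := by
  have h1 : (δ * δ) * σ (δ * δ) = ((a.natAbs ^ 2 : ℕ) : WittVector p k) := by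
    have e : (δ * δ) * σ (δ * δ) = (δ * σ δ) * (δ * σ δ) := by
      rw [map_mul]; ring
    rw [e, h]
    have e2 : ((a.natAbs ^ 2 : ℕ) : ℤ) = a * a := by
      push_cast
      rw [sq_abs, sq]
    have e3 : (((a.natAbs ^ 2 : ℕ) : ℤ) : WittVector p k) = ((a * a : ℤ) : WittVector p k) := by
      rw [e2]
    rw [Int.cast_natCast] at e3
    rw [e3]
    push_cast
    rfl
  -- valuation of `δ`
  have hp : p.Prime := Fact.out
  have hp0 : (p : WittVector p k) ≠ 0 := WittVector.p_nonzero p k
  set A : ℕ := a.natAbs with hA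
  have hA0 : A ≠ 0 := Int.natAbs_ne_zero.2 ha
  have hcast : ∀ b : ℕ, ¬ p ∣ b → (constantCoeff : WittVector p k →+* k) (b : WittVector p k) ≠ 0 := by
    intro b hb h0
    rw [map_natCast] at h0
    exact hb ((CharP.cast_eq_zero_iff k p b).1 h0)
  have hcp : (constantCoeff : WittVector p k →+* k) (p : WittVector p k) = 0 := by
    rw [map_natCast, CharP.cast_eq_zero]
  obtain ⟨u, hu⟩ : ∃ u, A = p ^ (A.factorization p) * u :=
    ⟨_, (Nat.ordProj_mul_ordCompl_eq_self A p).symm⟩
  have hpu : ¬ p ∣ u := by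
    intro hcon
    obtain ⟨u', hu'⟩ := hcon
    have h1 : p ^ (A.factorization p + 1) ∣ A := ⟨u', by rw [pow_succ, mul_assoc, ← hu', ← hu]⟩
    have h2 := (hp.pow_dvd_iff_le_factorization hA0).1 h1
    omega
  have hpu2 : ¬ p ∣ u ^ 2 := fun hcon => hpu (hp.dvd_of_dvd_pow hcon)
  have hδ : δ ≠ 0 := by
    intro h0
    rw [h0, zero_mul, zero_mul] at h1
    have h2 : (p : WittVector p k) ^ (2 * A.factorization p) * ((u ^ 2 : ℕ) : WittVector p k) = 0 := by
      rw [h1]
      conv_rhs => rw [hu]
      push_cast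
      ring
    rcases mul_eq_zero.1 h2 with h3 | h3
    · exact pow_ne_zero _ hp0 h3
    · exact hcast _ hpu2 (by rw [h3, map_zero])
  obtain ⟨m, b, hb⟩ := exists_eq_pow_p_mul' δ hδ
  have hub : IsUnit (((b : WittVector p k) * σ b) ^ 2) :=
    ((b.isUnit).mul ((b.isUnit).map σ)).pow 2
  have h2 : (p : WittVector p k) ^ (4 * m) * (((b : WittVector p k) * σ b) ^ 2) =
      (p : WittVector p k) ^ (2 * A.factorization p) * ((u ^ 2 : ℕ) : WittVector p k) := by
    have h3 : (((p ^ (A.factorization p) * u) ^ 2 : ℕ) : WittVector p k) =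
        ((A ^ 2 : ℕ) : WittVector p k) := by
      rw [← hu]
    push_cast at h3 h1 ⊢
    have h4 : (p : WittVector p k) ^ (2 * A.factorization p) * (u : WittVector p k) ^ 2 =
        ((p : WittVector p k) ^ (A.factorization p) * (u : WittVector p k)) ^ 2 := by ring
    rw [h4, h3, ← h1, hb, map_mul, map_mul, map_pow, map_natCast]
    ring
  have hcu : (constantCoeff : WittVector p k →+* k) (((b : WittVector p k) * σ b) ^ 2) ≠ 0 :=
    (hub.map _).ne_zero
  have key : 4 * m = 2 * A.factorization p := by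
    rcases lt_trichotomy (4 * m) (2 * A.factorization p) with hlt | heq | hgt
    · exfalso
      obtain ⟨e, he⟩ := Nat.exists_eq_add_of_lt hlt
      rw [he] at h2
      have h3 : ((b : WittVector p k) * σ b) ^ 2 =
          (p : WittVector p k) * ((p : WittVector p k) ^ e * ((u ^ 2 : ℕ) : WittVector p k)) := by
        apply mul_left_cancel₀ (pow_ne_zero (4 * m) hp0)
        rw [h2]; ring
      apply hcu
      rw [h3, map_mul, hcp, zero_mul]
    · exact heq
    · exfalso
      obtain ⟨e, he⟩ := Nat.exists_eq_add_of_lt hgt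
      rw [he] at h2
      have h3 : ((u ^ 2 : ℕ) : WittVector p k) =
          (p : WittVector p k) * ((p : WittVector p k) ^ e * (((b : WittVector p k) * σ b) ^ 2)) := by
        apply mul_left_cancel₀ (pow_ne_zero (2 * A.factorization p) hp0)
        rw [← h2]; ring
      apply hcast _ hpu2
      rw [h3, map_mul, hcp, zero_mul]
  exact ⟨m, by omega⟩

/-- The algebra of the character values of a strong external difference family. -/
theorem sedf_algebra {R : Type*} [CommRing R] [IsDomain R] [CharZero R] (σ : R →+* R) {m : ℕ}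
    (hm : 3 ≤ m) (x : Fin m → R) (lam : ℕ) (hlam : 1 ≤ lam)
    (h : ∀ j, x j * σ ((∑ i, x i) - x j) = -(lam : R)) (hσ : ∀ j, σ (σ (x j)) = x j) :
    (∀ j, x j * σ (x j) = lam) ∨
    ∃ p q : ℕ, p + q = m ∧ p ≠ 1 ∧ q ≠ 1 ∧ p ≠ q ∧
      (∑ i, x i) * σ (∑ i, x i) * (((p : ℤ) - 1 : ℤ) : R) * (((q : ℤ) - 1 : ℤ) : R) =
        (((p : ℤ) - q : ℤ) : R) ^ 2 * lam := by
  classical
  set X := ∑ i, x i with hX
  have hσX : σ (σ X) = X := by
    rw [hX, map_sum, map_sum]
    exact sum_congr rfl fun j _ => hσ j
  by_cases hX0 : X = 0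
  · left
    intro j
    have h1 := h j
    rw [hX0, zero_sub, map_neg] at h1
    linear_combination -h1
  right
  have hσX0 : σ X ≠ 0 := by
    intro h0
    apply hX0
    rw [← hσX, h0, map_zero]
  set N := X * σ X with hN
  have hN0 : N ≠ 0 := mul_ne_zero hX0 hσX0
  set y : Fin m → R := fun j => x j * σ X with hy
  have hy1 : ∀ j, y j = x j * σ (x j) - lam := by
    intro j
    have h1 := h j
    rw [map_sub] at h1
    simp only [hy]
    linear_combination h1
  have hy2 : ∀ j, y j = σ (x j) * X := by
    intro j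
    have h1 := hy1 j
    have h2 : σ (y j) = σ (x j * σ (x j) - lam) := by rw [h1]
    simp only [hy] at h2
    rw [map_mul, map_sub, map_mul, hσX, hσ, map_natCast] at h2
    rw [h2, h1]
    ring
  have hy3 : ∀ j, y j * y j = N * y j + lam * N := by
    intro j
    have h1 := hy1 j
    have h2 := hy2 j
    have h3 : y j * y j = (x j * σ X) * (σ (x j) * X) := by
      conv_lhs => rw [h2]
      rw [← h2]
    have h4 : x j * σ (x j) = y j + lam := by rw [h1]; ring
    rw [h3]
    have h5 : (x j * σ X) * (σ (x j) * X) = (x j * σ (x j)) * N := by rw [hN]; ring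
    rw [h5, h4]
    ring
  set r := y ⟨0, by omega⟩ with hr
  have hy4 : ∀ j, y j = r ∨ y j = N - r := by
    intro j
    have h1 := hy3 j
    have h2 := hy3 ⟨0, by omega⟩
    rw [← hr] at h2
    have h3 : (y j - r) * (y j + r - N) = 0 := by linear_combination h1 - h2
    rcases mul_eq_zero.1 h3 with h4 | h4
    · exact Or.inl (sub_eq_zero.1 h4)
    · right
      linear_combination h4
  set s : Finset (Fin m) := univ.filter (fun j => y j = r) with hs
  set p := s.card with hp
  set q := (univ.filter (fun j => ¬ y j = r)).card with hq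
  have hpq : p + q = m := by
    rw [hp, hq, hs, card_filter_add_card_filter_not, card_univ, Fintype.card_fin]
  have hsum : (p : R) * r + q * (N - r) = N := by
    have h1 : ∑ j, y j = N := by
      simp only [hy]
      rw [← sum_mul, hN]
    rw [← sum_filter_add_sum_filter_not univ (fun j => y j = r)] at h1
    rw [sum_congr rfl (fun j hj => (mem_filter.1 hj).2),
      sum_congr (s₁ := univ.filter (fun j => ¬ y j = r)) rfl
        (fun j hj => (hy4 j).resolve_left (mem_filter.1 hj).2)] at h1
    rw [sum_const, sum_const, nsmul_eq_mul, nsmul_eq_mul] at h1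
    exact h1
  have hr2 : r * r = N * r + lam * N := hy3 ⟨0, by omega⟩
  have h1 : ((p : R) - q) * r = (1 - q) * N := by linear_combination hsum
  have h2 : N * (N * (1 - (p : R)) * (1 - q) - ((p : R) - q) ^ 2 * lam) = 0 := by
    have h3 : (((p : R) - q) * r) * (((p : R) - q) * r) =
        ((p : R) - q) * N * (((p : R) - q) * r) + ((p : R) - q) ^ 2 * lam * N := by
      linear_combination (((p : R) - q) ^ 2) * hr2
    rw [h1] at h3
    linear_combination h3
  have h3 : N * (1 - (p : R)) * (1 - q) = ((p : R) - q) ^ 2 * lam := by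
    rcases mul_eq_zero.1 h2 with h4 | h4
    · exact absurd h4 hN0
    · exact sub_eq_zero.1 h4
  have hlam0 : (lam : R) ≠ 0 := by
    rw [Nat.cast_ne_zero]; omega
  have hcast : ∀ a b : ℕ, ((a : R) - b) ^ 2 * lam = 0 → a = b := by
    intro a b hab
    rcases mul_eq_zero.1 hab with h4 | h4
    · have h5 := pow_eq_zero_iff (two_ne_zero) |>.1 h4
      exact_mod_cast sub_eq_zero.1 h5
    · exact absurd h4 hlam0
  have hp1 : p ≠ 1 := by
    intro h4
    rw [h4] at h3
    have h5 := hcast 1 q (by rw [← h3]; push_cast; ring)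
    omega
  have hq1 : q ≠ 1 := by
    intro h4
    rw [h4] at h3
    have h5 := hcast p 1 (by rw [← h3]; push_cast; ring)
    omega
  have hpqne : p ≠ q := by
    intro h4
    rw [h4, sub_self, zero_pow two_ne_zero, zero_mul] at h3
    have h5 : (1 - (q : R)) ≠ 0 := by
      intro h6
      apply hq1
      have h7 : ((1 : ℕ) : R) = (q : R) := by
        push_cast
        exact sub_eq_zero.1 h6
      exact_mod_cast h7.symm
    exact (mul_ne_zero (mul_ne_zero hN0 h5) h5) h3
  refine ⟨p, q, hpq, hp1, hq1, hpqne, ?_⟩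
  push_cast
  linear_combination h3

end

end Pool.Agent.H40CS
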